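import Pool.Agent.H65.Um.Chk

/-!
# The finite check for `N = 16`
-/

set_option autoImplicit false

namespace Pool.Agent.H65.Um

theorem chkE16 : chkN 16 pairsL = true := by decide +kernel

end Pool.Agent.H65.Um
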