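import Pool.Agent.H65.Um.ChkV
import Pool.Agent.H65.Um.ChkE16
import Pool.Agent.H65.Um.ChkE32

/-!
# Early sums, columns `4 N - 2, ..., 4 N + 15`
-/

set_option autoImplicit false

namespace Pool.Agent.H65.Um

open Pool.Agent.H65.Ul

theorem TY_nodup : TY.Nodup := by
  simp [TY]

theorem early_E2 {s u v : ℕ} (H : Str s u v) (t c : ℕ) (ht : t < v)
    (h1 : 4 * 2 ^ s ≤ c + 2) (h2 : c ≤ 4 * 2 ^ s + 15) : Two v (2 * (t : ℤ) + v * (c : ℤ)) := by
  have h16 := H.par.sixteen
  have hv := H.par.hv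
  obtain ⟨k, a, rfl, ha⟩ : ∃ k a, t = k * 2 ^ s + a ∧ a < 2 ^ s :=
    ⟨t / 2 ^ s, t % 2 ^ s, by rw [Nat.div_add_mod'], Nat.mod_lt _ (by positivity)⟩
  have hk : k < u := by
    by_contra hc
    have : u * 2 ^ s ≤ k * 2 ^ s := Nat.mul_le_mul_right _ (by omega)
    omega
  obtain ⟨N', a', hN', hA, p, hp, hK⟩ := reduce H.par ha hk
  have hchk : chkN N' pairsL = true := by
    rcases hN' with rfl | rfl
    · exact chkE16
    · exact chkE32
  unfold chkN at hchk
  rw [List.all_eq_true] at hchk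
  have h3 := hchk p hp
  rw [List.all_eq_true] at h3
  have h4 := h3 a' (by rw [List.mem_range]; exact hA.lt')
  unfold chkA at h4
  rw [Bool.or_eq_true, Bool.and_eq_true, decide_eq_true_eq, decide_eq_true_eq] at h4
  rcases h4 with ⟨e1, e2⟩ | h4
  · exfalso
    obtain ⟨e3, e4⟩ := last_of_rel hA hK e1 e2
    rw [← e3] at hv
    have e5 : (k + 1) * 2 ^ s = k * 2 ^ s + 2 ^ s := by ring
    omega
  · rw [← filterMap_ent_congr hA hK good_TY] at h4
    unfold chkY at h4
    rw [List.all_eq_true] at h4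
    have h5 := h4 (c + 2 - 4 * 2 ^ s) (by rw [List.mem_range]; omega)
    have e6 : decide ((c + 2 - 4 * 2 ^ s) % 2 = 1) =
        decide ((c + 2 - 4 * 2 ^ s + 26) % 2 = 1) := by
      apply decide_eq_decide.mpr; omega
    rw [e6] at h5
    exact two_of_go H ha ht TY_nodup good_TY (by omega) (by omega) h5

end Pool.Agent.H65.Um
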