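import Pool.Agent.H65.Um.ChkZ
import Pool.Agent.H65.Um.EarlyE2

/-!
# Early sums which need the strip
-/

set_option autoImplicit false

namespace Pool.Agent.H65.Um

open Pool.Agent.H65.Ul

theorem early_fin {s u v : ℕ} (H : Str s u v) (t c : ℕ) (ht : t < v)
    (hc : (2 * 2 ^ s ≤ c + 1 ∧ c ≤ 2 * 2 ^ s + 6) ∨ (4 * 2 ^ s ≤ c + 2 ∧ c ≤ 4 * 2 ^ s + 15)) :
    Two v (2 * (t : ℤ) + v * (c : ℤ)) := by
  rcases hc with ⟨h1, h2⟩ | ⟨h1, h2⟩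
  · exact early_E0 H t c ht h1 h2
  · exact early_E2 H t c ht h1 h2

end Pool.Agent.H65.Um
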