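import Pool.Agent.H65.Um.Fam
import Pool.Agent.H65.Um.EarlyFin

/-!
# Assembly of the early and the late part
-/

set_option autoImplicit false

namespace Pool.Agent.H65.Um

open Pool.Agent.H65.Ul

/-- Coordinates of a sum. -/
theorem coordsK {v : ℕ} (hv : v % 2 = 1) (K : ℕ) (hK : v ≤ K) :
    ∃ t c : ℕ, t < v ∧ K = 2 * t + v * c := by
  have h0 : 0 < v := by omega
  have h1 := Nat.mod_add_div K v
  have h2 := Nat.mod_lt K h0
  rcases Nat.mod_two_eq_zero_or_one (K % v) with hp | hp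
  · exact ⟨K % v / 2, K / v, by omega, by omega⟩
  · have h3 : 1 ≤ K / v := Nat.div_pos hK h0
    refine ⟨(K % v + v) / 2, K / v - 1, by omega, ?_⟩
    have e : v * (K / v - 1) = v * (K / v) - v := by
      obtain ⟨w, hw⟩ : ∃ w, K / v = w + 1 := ⟨K / v - 1, by omega⟩
      rw [hw, Nat.add_sub_cancel, Nat.mul_succ, Nat.add_sub_cancel]
    have h4 : v ≤ v * (K / v) := Nat.le_mul_of_pos_right _ h3
    omega

theorem pairs_of {s u v : ℕ} (H : Str s u v)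
    (hbulk : ∀ t c : ℕ, t < v → 2 * v + 3 ≤ 2 * t + v * c →
      (c + 2 ≤ 2 * 2 ^ s ∨ (2 * 2 ^ s + 7 ≤ c ∧ c + 3 ≤ 4 * 2 ^ s)) →
      Two v (2 * (t : ℤ) + v * (c : ℤ)))
    (hlate : ∀ K : ℕ, (4 * 2 ^ s + 16) * v ≤ K → (K % 2 = 1 → (4 * 2 ^ s + 17) * v ≤ K) →
      (∀ t : ℕ, t % 2 = 1 → t ≤ 2 ^ s + 3 → K ≠ 2 * (2 * t) + v * (4 * 2 ^ s + 16)) → Two v K) :
    ∀ K : ℕ, 2 * v + 3 ≤ K → Two v K := by
  intro K hK
  have hvodd := H.par.vodd
  obtain ⟨t, c, ht, hc⟩ := coordsK hvodd K (by omega)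
  have hz : (K : ℤ) = 2 * (t : ℤ) + v * (c : ℤ) := by rw [hc]; push_cast; ring
  by_cases h1 : c ≤ 4 * 2 ^ s + 15
  · rw [hz]
    by_cases h2 : c + 2 ≤ 2 * 2 ^ s
    · exact hbulk t c ht (by omega) (Or.inl h2)
    · by_cases h3 : c ≤ 2 * 2 ^ s + 6
      · exact early_fin H t c ht (Or.inl ⟨by omega, h3⟩)
      · by_cases h4 : c + 3 ≤ 4 * 2 ^ s
        · exact hbulk t c ht (by omega) (Or.inr ⟨by omega, h4⟩)
        · exact early_fin H t c ht (Or.inr ⟨by omega, h1⟩)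
  · by_cases hX : ∃ t0 : ℕ, t0 % 2 = 1 ∧ t0 ≤ 2 ^ s + 3 ∧ K = 2 * (2 * t0) + v * (4 * 2 ^ s + 16)
    · obtain ⟨t0, e1, e2, e3⟩ := hX
      have := fam H t0 e1 e2
      have e4 : (K : ℤ) = 2 * (2 * (t0 : ℤ)) + v * (4 * 2 ^ s + 16) := by rw [e3]; push_cast; ring
      rw [e4]; exact this
    · refine hlate K ?_ ?_ ?_
      · have : v * (4 * 2 ^ s + 16) ≤ v * c := Nat.mul_le_mul_left _ (by omega)
        rw [mul_comm]; omega
      · intro hodd
        have hc2 : c % 2 = 1 := by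
          obtain ⟨w, hw⟩ : ∃ w, v = 2 * w + 1 := ⟨v / 2, by omega⟩
          have e : v * c = 2 * (w * c) + c := by rw [hw]; ring
          omega
        have : v * (4 * 2 ^ s + 17) ≤ v * c := Nat.mul_le_mul_left _ (by omega)
        rw [mul_comm]; omega
      · intro t0 e1 e2 e3
        exact hX ⟨t0, e1, e2, e3⟩

end Pool.Agent.H65.Um
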