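import Pool.Agent.H65.Um.Defs

/-!
# The finite check for the early sums: definitions
-/

set_option autoImplicit false

namespace Pool.Agent.H65.Um

/-- Offset class with the last row separated. -/
def oc (N o : ℕ) : ℕ := if o + 1 = N then 20 else co o

/-- Known cells left of the strip (bit `i` is column `2 N - 14 + i`, `i ≤ 12`). -/
def lft (bc cl : ℕ) : ℕ :=
  if cl = 20 then (if bc = 0 then 3822 else 7645) else if cl = 0 then
    (if bc = 0 then 6007 else 0) else 0

/-- The extended row: bit `i` is column `2 N - 14 + i`, `i ≤ 22`. -/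
def em (q : Bool) (bc cl : ℕ) : ℕ :=
  (((tab q bc) >>> (10 * (if cl = 20 then 19 else cl))) % 1024) <<< 13 ||| lft bc cl

/-- The reversed rows. -/
def rtab (q : Bool) : ℕ → ℕ
  | 0 => if q then 105319329974189360436113538824022564120734711077678585297672
    else 105319329974189360436113538824022564120734712202480050052868
  | 1 => 1435140553811513274871594731835668609534871351552847874301554
  | 2 => 53441232477838129448017182519467412493264761613116315303999
  | 3 => 717570276905025886617131913809060910764089746848646359908667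
  | 4 => 26720616238188313905342475186633970767874877585335708041247
  | _ => 717570276905025886617131913809060911974192697075370528555293

/-- Reversed left part. -/
def rlft (bc cl : ℕ) : ℕ :=
  if cl = 20 then (if bc = 0 then 3913728 else 6151168) else if cl = 0 then
    (if bc = 0 then 7828480 else 0) else 0

/-- The reversed extended row: bit `22 - i`. -/
def emr (q : Bool) (bc cl : ℕ) : ℕ :=
  (((rtab q bc) >>> (10 * (if cl = 20 then 19 else cl))) % 1024) ||| rlft bc cl

/-- Types of pairs of rows. -/
inductive Ty where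
  | A : ℕ → ℕ → Ty
  | B : ℕ → ℕ → Ty
  | C : Ty

/-- Carry and class of the offset `a + d - N`. -/
def prof (N a d : ℕ) : ℕ × ℕ := ((a + d) / N, oc N ((a + d) % N))

/-- Classes of the two rows, and the frame. -/
def rws (N u k a : ℕ) : Ty → Option (ℕ × ℕ × ℕ × ℕ × ℕ)
  | Ty.A j o =>
    let p := prof N a (N - o)
    if j + 1 ≤ k + p.1 then some (j, oc N o, cb (k + p.1 - 1 - j), p.2, 0) else none
  | Ty.B j i =>
    let p := prof N a (N + i)
    let b := k + p.1 - 1 + j
    if b < u ∧ ¬ (b + 1 = u ∧ p.2 = 20) then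
      some (cb (u - 1 - j), oc N (N - 1 - i), cb b, p.2, 1) else none
  | Ty.C =>
    let p := prof N a (N + 1)
    if 1 ≤ k then some (cb (k - 1), 20, p.1 - 1, p.2, 0) else none

/-- The list of types. -/
def TY : List Ty := [.B 1 0, .C, .A 1 6, .B 1 3, .A 1 1, .B 0 3, .A 0 0, .A 2 0, .B 0 1, .A 0 4,
  .B 1 5, .A 1 3, .B 0 4, .A 0 1, .B 2 0, .A 0 2, .A 0 6]

/-- Equality of the columns allowed. -/
def eqf (N k a : ℕ) : Ty → Bool
  | Ty.A j o => decide (j = 0) && decide (2 * o < k * N + a)
  | _ => false

/-- An entry: row, reversed row, frame, flag. -/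
def ent (q : Bool) (N u k a : ℕ) (ty : Ty) : Option (ℕ × ℕ × ℕ × Bool) :=
  match rws N u k a ty with
  | none => none
  | some (b1, c1, b2, c2, fr) => some (em q b1 c1, emr q b2 c2, fr, eqf N k a ty)

/-- Set of solutions. -/
def sol (m r S : ℕ) : ℕ := m &&& (if 22 ≤ S then r <<< (S - 22) else r >>> (22 - S))

/-- Masks of the two classes. -/
def lom (S : ℕ) (odd e : Bool) : ℕ :=
  if odd then 0x555555 else (2 ^ (S / 2 + (if e then 1 else 0)) - 1)

def him (S : ℕ) (odd : Bool) : ℕ :=
  if odd then 0x2AAAAA else (0x7FFFFF >>> (S / 2 + 1)) <<< (S / 2 + 1)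

/-- Search for two solutions of the same class. -/
def go (y : ℕ) (odd : Bool) : List (ℕ × ℕ × ℕ × Bool) → Bool → Bool → Bool
  | [], _, _ => false
  | (m, r, fr, e) :: L, lo, hi =>
    let S := y - 2 * fr
    let s := sol m r S
    let l := s &&& lom S odd e
    let h := s &&& him S odd
    (l != 0 && (lo || (l &&& (l - 1)) != 0)) || (h != 0 && (hi || (h &&& (h - 1)) != 0)) ||
      go y odd L (lo || l != 0) (hi || h != 0)

def chkY (L : List (ℕ × ℕ × ℕ × Bool)) : Bool :=
  (List.range 18).all (fun y => go (y + 26) (decide (y % 2 = 1)) L false false)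

def chkA (q : Bool) (N u k a : ℕ) : Bool :=
  (decide (k + 1 = u) && decide (a + 1 = N)) || chkY (TY.filterMap (ent q N u k a))

def pairsL : List (ℕ × ℕ) := [(3,0),(3,1),(3,2),(5,0),(5,1),(5,2),(5,3),(5,4),
  (7,0),(7,1),(7,2),(7,3),(7,4),(7,5),(7,6),(9,4),(9,5),(9,6),(9,7),(11,6),(11,7)]

def chkN (N : ℕ) (L : List (ℕ × ℕ)) : Bool :=
  L.all (fun p => (List.range N).all (fun a => chkA (decide (p.1 = 3)) N p.1 p.2 a))

end Pool.Agent.H65.Um
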