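import Pool.Agent.H65.Um.Chk

/-!
# Soundness of the finite check: the search, and the extended rows
-/

set_option autoImplicit false

namespace Pool.Agent.H65.Um

open Pool.Agent.H65.Ul

/-! ### The search -/

theorem two_bits {n : ℕ} (h : n &&& (n - 1) ≠ 0) : ∃ i j : ℕ, i ≠ j ∧ n.testBit i = true ∧
    n.testBit j = true := by
  obtain ⟨i, hi⟩ := Nat.exists_testBit_of_ne_zero h
  rw [Nat.testBit_and, Bool.and_eq_true] at hi
  by_contra hc
  push Not at hc
  have hu : n = 2 ^ i := by
    apply Nat.eq_of_testBit_eq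
    intro j
    by_cases hj : j = i
    · subst hj; rw [hi.1, Nat.testBit_two_pow_self]
    · rw [Nat.testBit_two_pow_of_ne (Ne.symm hj)]
      by_contra h1
      exact hc i j (Ne.symm hj) hi.1 (by simpa using h1)
  rw [hu] at hi
  have h2 := hi.2
  rw [Nat.testBit_two_pow_sub_one] at h2
  simp at h2

theorem exists_bit {n : ℕ} (h : n ≠ 0) : ∃ i : ℕ, n.testBit i = true :=
  Nat.exists_testBit_of_ne_zero h

/-- Solution in the lower class. -/
def LoS (y : ℕ) (odd : Bool) (e : ℕ × ℕ × ℕ × Bool) (i : ℕ) : Prop :=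
  (sol e.1 e.2.1 (y - 2 * e.2.2.1)).testBit i = true ∧
    (lom (y - 2 * e.2.2.1) odd e.2.2.2).testBit i = true

/-- Solution in the upper class. -/
def HiS (y : ℕ) (odd : Bool) (e : ℕ × ℕ × ℕ × Bool) (i : ℕ) : Prop :=
  (sol e.1 e.2.1 (y - 2 * e.2.2.1)).testBit i = true ∧
    (him (y - 2 * e.2.2.1) odd).testBit i = true

/-- Two different solutions of the same class. -/
def Twice (f : Ty → Option (ℕ × ℕ × ℕ × Bool)) (TL : List Ty)
    (Q : (ℕ × ℕ × ℕ × Bool) → ℕ → Prop) : Prop :=
  ∃ ty ∈ TL, ∃ ty' ∈ TL, ∃ e e' i i', f ty = some e ∧ f ty' = some e' ∧ Q e i ∧ Q e' i' ∧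
    (ty ≠ ty' ∨ (ty = ty' ∧ i ≠ i'))

def Once (f : Ty → Option (ℕ × ℕ × ℕ × Bool)) (TL : List Ty)
    (Q : (ℕ × ℕ × ℕ × Bool) → ℕ → Prop) : Prop :=
  ∃ ty ∈ TL, ∃ e i, f ty = some e ∧ Q e i

theorem Once.cons {f : Ty → Option (ℕ × ℕ × ℕ × Bool)} {TL : List Ty}
    {Q : (ℕ × ℕ × ℕ × Bool) → ℕ → Prop} (t : Ty) (h : Once f TL Q) : Once f (t :: TL) Q := by
  obtain ⟨ty, h1, h2⟩ := h
  exact ⟨ty, List.mem_cons_of_mem _ h1, h2⟩

theorem Twice.cons {f : Ty → Option (ℕ × ℕ × ℕ × Bool)} {TL : List Ty}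
    {Q : (ℕ × ℕ × ℕ × Bool) → ℕ → Prop} (t : Ty) (h : Twice f TL Q) : Twice f (t :: TL) Q := by
  obtain ⟨ty, h1, ty', h2, h3⟩ := h
  exact ⟨ty, List.mem_cons_of_mem _ h1, ty', List.mem_cons_of_mem _ h2, h3⟩

theorem go_sound (y : ℕ) (odd : Bool) (f : Ty → Option (ℕ × ℕ × ℕ × Bool)) :
    ∀ (TL : List Ty) (lo hi : Bool), TL.Nodup → go y odd (TL.filterMap f) lo hi = true →
    (lo = true ∧ Once f TL (LoS y odd)) ∨ Twice f TL (LoS y odd) ∨
    (hi = true ∧ Once f TL (HiS y odd)) ∨ Twice f TL (HiS y odd) := by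
  intro TL
  induction TL with
  | nil => intro lo hi _ h; exact absurd h (by simp [go])
  | cons t TL ih =>
    intro lo hi hnd h
    rw [List.nodup_cons] at hnd
    obtain ⟨hnt, hnd⟩ := hnd
    have hne : ∀ ty ∈ TL, t ≠ ty := fun ty h1 h2 => hnt (h2 ▸ h1)
    rw [List.filterMap_cons] at h
    cases hf : f t with
    | none =>
      rw [hf] at h
      rcases ih lo hi hnd h with ⟨a, b⟩ | b | ⟨a, b⟩ | b
      · exact Or.inl ⟨a, b.cons t⟩
      · exact Or.inr (Or.inl (b.cons t))
      · exact Or.inr (Or.inr (Or.inl ⟨a, b.cons t⟩))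
      · exact Or.inr (Or.inr (Or.inr (b.cons t)))
    | some e =>
      rw [hf] at h
      obtain ⟨m, r, fr, fl⟩ := e
      simp only [go] at h
      set S := y - 2 * fr with hS
      have onceLo : sol m r S &&& lom S odd fl ≠ 0 → Once f (t :: TL) (LoS y odd) := by
        intro h1
        obtain ⟨i, hi⟩ := exists_bit h1
        rw [Nat.testBit_and, Bool.and_eq_true] at hi
        exact ⟨t, by simp, _, i, hf, hi⟩
      have onceHi : sol m r S &&& him S odd ≠ 0 → Once f (t :: TL) (HiS y odd) := by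
        intro h1
        obtain ⟨i, hi⟩ := exists_bit h1
        rw [Nat.testBit_and, Bool.and_eq_true] at hi
        exact ⟨t, by simp, _, i, hf, hi⟩
      rw [Bool.or_eq_true, Bool.or_eq_true, Bool.and_eq_true, Bool.and_eq_true, Bool.or_eq_true,
        Bool.or_eq_true, bne_iff_ne, bne_iff_ne, bne_iff_ne, bne_iff_ne] at h
      rcases h with (⟨h1, h2⟩ | ⟨h1, h2⟩) | h
      · rcases h2 with h2 | h2
        · exact Or.inl ⟨h2, onceLo h1⟩
        · obtain ⟨i, j, hij, hi, hj⟩ := two_bits h2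
          rw [Nat.testBit_and, Bool.and_eq_true] at hi hj
          exact Or.inr (Or.inl ⟨t, by simp, t, by simp, _, _, i, j, hf, hf, hi, hj,
            Or.inr ⟨rfl, hij⟩⟩)
      · rcases h2 with h2 | h2
        · exact Or.inr (Or.inr (Or.inl ⟨h2, onceHi h1⟩))
        · obtain ⟨i, j, hij, hi, hj⟩ := two_bits h2
          rw [Nat.testBit_and, Bool.and_eq_true] at hi hj
          exact Or.inr (Or.inr (Or.inr ⟨t, by simp, t, by simp, _, _, i, j, hf, hf, hi, hj,
            Or.inr ⟨rfl, hij⟩⟩))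
      · have h4 := ih _ _ hnd h
        rw [Bool.or_eq_true, Bool.or_eq_true, bne_iff_ne, bne_iff_ne] at h4
        rcases h4 with ⟨a, b⟩ | b | ⟨a, b⟩ | b
        · rcases a with a | a
          · exact Or.inl ⟨a, b.cons t⟩
          · right; left
            obtain ⟨i, hi⟩ := exists_bit a
            rw [Nat.testBit_and, Bool.and_eq_true] at hi
            obtain ⟨ty', m1, e', i', f1, q1⟩ := b
            exact ⟨t, by simp, ty', List.mem_cons_of_mem _ m1, _, e', i, i', hf, f1, hi, q1,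
              Or.inl (hne ty' m1)⟩
        · exact Or.inr (Or.inl (b.cons t))
        · rcases a with a | a
          · exact Or.inr (Or.inr (Or.inl ⟨a, b.cons t⟩))
          · right; right; right
            obtain ⟨i, hi⟩ := exists_bit a
            rw [Nat.testBit_and, Bool.and_eq_true] at hi
            obtain ⟨ty', m1, e', i', f1, q1⟩ := b
            exact ⟨t, by simp, ty', List.mem_cons_of_mem _ m1, _, e', i, i', hf, f1, hi, q1,
              Or.inl (hne ty' m1)⟩
        · exact Or.inr (Or.inr (Or.inr (b.cons t)))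

/-! ### Solutions -/

theorem emr_chk : ∀ q : Bool, ∀ bc < 6, ∀ cl < 21, ∀ i < 23,
    (emr q bc cl).testBit (22 - i) = (em q bc cl).testBit i := by decide +kernel

theorem emr_lt_chk : ∀ q : Bool, ∀ bc < 6, ∀ cl < 21, emr q bc cl < 2 ^ 23 := by decide +kernel

theorem sol_sound {q : Bool} {m bc cl S i : ℕ} (hb : bc < 6) (hc : cl < 21)
    (h : (sol m (emr q bc cl) S).testBit i = true) :
    m.testBit i = true ∧ ∃ j : ℕ, j < 23 ∧ i + j = S ∧ (em q bc cl).testBit j = true := by
  unfold sol at h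
  rw [Nat.testBit_and, Bool.and_eq_true] at h
  refine ⟨h.1, ?_⟩
  have h2 := h.2
  have hlt : ∀ j, (emr q bc cl).testBit j = true → j < 23 := by
    intro j hj
    by_contra hc2
    have h3 : emr q bc cl < 2 ^ j :=
      (emr_lt_chk q bc hb cl hc).trans_le (Nat.pow_le_pow_right (by norm_num) (by omega))
    rw [Nat.testBit_lt_two_pow h3] at hj
    exact Bool.noConfusion hj
  by_cases hS : 22 ≤ S
  · rw [if_pos hS, Nat.testBit_shiftLeft, Bool.and_eq_true, decide_eq_true_eq] at h2
    have h3 := hlt _ h2.2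
    refine ⟨22 - (i - (S - 22)), by omega, by omega, ?_⟩
    rw [← emr_chk q bc hb cl hc _ (by omega)]
    have e : 22 - (22 - (i - (S - 22))) = i - (S - 22) := by omega
    rw [e]; exact h2.2
  · rw [if_neg hS, Nat.testBit_shiftRight] at h2
    have h3 := hlt _ h2
    refine ⟨22 - (22 - S + i), by omega, by omega, ?_⟩
    rw [← emr_chk q bc hb cl hc _ (by omega)]
    have e : 22 - (22 - (22 - S + i)) = 22 - S + i := by omega
    rw [e]; exact h2

theorem cb_lt (b : ℕ) : cb b < 6 := by unfold cb; split_ifs <;> omega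

theorem co_lt (o : ℕ) : co o < 20 := by unfold co; split_ifs <;> omega

theorem oc_lt (N o : ℕ) : oc N o < 21 := by
  unfold oc; have := co_lt o; split_ifs <;> omega

/-! ### The extended rows are known cells -/

theorem tab15 : ∀ q : Bool, ∀ bc < 6, ((tab q bc) >>> (10 * 15)) % 1024 =
    ((tab q bc) >>> (10 * 19)) % 1024 := by decide +kernel

theorem em_high : ∀ q : Bool, ∀ bc < 6, ∀ cl < 21, ∀ i < 23, 13 ≤ i →
    (em q bc cl).testBit i = true →
    ((tab q bc >>> (10 * (if cl = 20 then 19 else cl))) % 1024).testBit (i - 13) = true := by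
  decide +kernel

theorem em_low_chk : ∀ q : Bool, ∀ bc < 6, ∀ cl < 21, ∀ i < 13,
    (!(em q bc cl).testBit i || ((decide (cl = 20) && decide (bc = 0)) &&
      (decide (i ≤ 11) && decide (i % 4 ≠ 0))) || (decide (cl = 20) && decide (bc ≠ 0) &&
      decide (i % 4 ≠ 1)) || (decide (cl = 0) && decide (bc = 0) && decide (i % 4 ≠ 3))) = true := by
  decide +kernel

theorem em_low (q : Bool) (bc : ℕ) (h1 : bc < 6) (cl : ℕ) (h2 : cl < 21) (i : ℕ) (h3 : i < 13)
    (h : (em q bc cl).testBit i = true) :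
    (cl = 20 ∧ bc = 0 ∧ i ≤ 11 ∧ i % 4 ≠ 0) ∨ (cl = 20 ∧ bc ≠ 0 ∧ i % 4 ≠ 1) ∨
    (cl = 0 ∧ bc = 0 ∧ i % 4 ≠ 3) := by
  have := em_low_chk q bc h1 cl h2 i h3
  rw [h] at this
  simp only [Bool.not_true, Bool.false_or, Bool.or_eq_true, Bool.and_eq_true,
    decide_eq_true_eq] at this
  tauto

theorem em_lt : ∀ q : Bool, ∀ bc < 6, ∀ cl < 21, em q bc cl < 2 ^ 23 := by decide +kernel

theorem em_cel {s u v : ℕ} (H : Str s u v) {b o i : ℕ} (ho : o < 2 ^ s) (hr : b * 2 ^ s + o < v)
    (h : (em (decide (u = 3)) (cb b) (oc (2 ^ s) o)).testBit i = true) :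
    cel v ((b * 2 ^ s + o : ℕ) : ℤ) (2 * 2 ^ s - 14 + i) = true := by
  obtain ⟨m, hm⟩ : ∃ m, 2 ^ s = 16 * m := by
    refine ⟨2 ^ (s - 4), ?_⟩
    have h16 : (16 : ℕ) = 2 ^ 4 := by norm_num
    rw [h16, ← pow_add]
    congr 1
    have := H.par.hs
    omega
  have hmz : (2 : ℤ) ^ s = 16 * m := by exact_mod_cast hm
  have hN : 0 < 2 ^ s := by positivity
  have hm0 : 0 < m := by omega
  have hi : i < 23 := by
    by_contra hc
    have h3 : em (decide (u = 3)) (cb b) (oc (2 ^ s) o) < 2 ^ i :=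
      (em_lt _ _ (cb_lt b) _ (oc_lt _ o)).trans_le (Nat.pow_le_pow_right (by norm_num) (by omega))
    rw [Nat.testBit_lt_two_pow h3] at h
    exact Bool.noConfusion h
  by_cases h13 : 13 ≤ i
  · have h1 := em_high _ _ (cb_lt b) _ (oc_lt _ o) i hi h13 h
    have h2 : (msk (decide (u = 3)) b o).testBit (i - 13) = true := by
      unfold msk
      by_cases hl : o + 1 = 2 ^ s
      · have e1 : oc (2 ^ s) o = 20 := by unfold oc; rw [if_pos hl]
        rw [e1, if_pos rfl] at h1
        have e2 : co o = 15 ∨ co o = 19 := by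
          unfold co; split_ifs with h20
          · have : m = 1 := by omega
            left; omega
          · right; omega
        rcases e2 with e2 | e2
        · rw [e2, tab15 _ _ (cb_lt b)]; exact h1
        · rw [e2]; exact h1
      · have e1 : oc (2 ^ s) o = co o := by unfold oc; rw [if_neg hl]
        have := co_lt o
        rw [e1, if_neg (by omega)] at h1
        exact h1
    have h3 := H.strip b o (i - 13) ho hr (by omega) h2
    rw [← h3]
    congr 1
    have : ((i - 13 : ℕ) : ℤ) = i - 13 := by omega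
    rw [this]; ring
  · rcases em_low _ _ (cb_lt b) _ (oc_lt _ o) i (by omega) h with ⟨e1, e2, e3, e4⟩ | ⟨e1, e2, e3⟩ |
      ⟨e1, e2, e3⟩
    · have hl : o + 1 = 2 ^ s := by
        by_contra hc
        unfold oc at e1; rw [if_neg hc] at e1
        have := co_lt o; omega
      have hb : b = 0 := by unfold cb at e2; split_ifs at e2 <;> omega
      have h3 := H.pow2 s o (2 * 2 ^ s - 14 + i) (by have := H.par.hs; omega) le_rfl hl (by omega)
        (by omega) (by omega)
      rw [← h3, hb]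
      congr 1
      · simp
      · push_cast [Nat.cast_sub (show 14 ≤ 2 * 2 ^ s by omega)]; ring
    · have hl : o + 1 = 2 ^ s := by
        by_contra hc
        unfold oc at e1; rw [if_neg hc] at e1
        have := co_lt o; omega
      have hb : b ≠ 0 := by intro h0; apply e2; rw [h0]; rfl
      have hbu : b < u := by
        by_contra hc
        have h5 := H.par.hv
        have h6 : u * 2 ^ s ≤ b * 2 ^ s := Nat.mul_le_mul_right _ (by omega)
        omega
      have h3 := H.full (b + 1) (b * 2 ^ s + o) (2 * 2 ^ s - 14 + i) (by omega) (by omega)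
        (by rw [add_mul, one_mul]; omega) (by omega) (by omega)
      rw [← h3]
      congr 1
      push_cast [Nat.cast_sub (show 14 ≤ 2 * 2 ^ s by omega)]; ring
    · have ho0 : o = 0 := by
        unfold oc co at e1; split_ifs at e1 <;> omega
      have hb : b = 0 := by unfold cb at e2; split_ifs at e2 <;> omega
      have h3 := H.row0 (2 * 2 ^ s - 14 + i) (by omega) (by omega)
      rw [← h3, hb, ho0]
      congr 1
      · simp
      · push_cast [Nat.cast_sub (show 14 ≤ 2 * 2 ^ s by omega)]; ring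

end Pool.Agent.H65.Um
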