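import Pool.Agent.H65.Um.ChkS

/-!
# Soundness of the finite check: the rows of the types
-/

set_option autoImplicit false

namespace Pool.Agent.H65.Um

open Pool.Agent.H65.Ul

theorem prof_ge {N a o : ℕ} (ha : a < N) (ho : o ≤ a) :
    prof N a (N - o) = (1, oc N (a - o)) := by
  unfold prof
  have e : a + (N - o) = (a - o) + N := by omega
  rw [e, Nat.add_div_right _ (by omega), Nat.add_mod_right, Nat.div_eq_of_lt (by omega),
    Nat.mod_eq_of_lt (by omega)]

theorem prof_lt {N a o : ℕ} (ho : a < o) (hoN : o ≤ N) :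
    prof N a (N - o) = (0, oc N (N + a - o)) := by
  unfold prof
  have e : a + (N - o) = N + a - o := by omega
  rw [e, Nat.div_eq_of_lt (by omega), Nat.mod_eq_of_lt (by omega)]

theorem prof_add_lt {N a i : ℕ} (h : a + i < N) : prof N a (N + i) = (1, oc N (a + i)) := by
  unfold prof
  have e : a + (N + i) = (a + i) + N := by omega
  rw [e, Nat.add_div_right _ (by omega), Nat.add_mod_right, Nat.div_eq_of_lt (by omega),
    Nat.mod_eq_of_lt (by omega)]

theorem prof_add_ge {N a i : ℕ} (ha : a < N) (hi : i < N) (h : N ≤ a + i) :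
    prof N a (N + i) = (2, oc N (a + i - N)) := by
  unfold prof
  have e : a + (N + i) = (a + i - N) + N + N := by omega
  rw [e, Nat.add_div_right _ (by omega), Nat.add_div_right _ (by omega), Nat.add_mod_right,
    Nat.add_mod_right, Nat.div_eq_of_lt (by omega), Nat.mod_eq_of_lt (by omega)]

/-- The first row of a type. -/
def r1 (N v k : ℕ) : Ty → ℕ
  | .A j o => j * N + o
  | .B j i => v - i - j * N
  | .C => k * N - 1

/-- Bounds for the types. -/
def GoodTy : Ty → Prop
  | .A j o => (j ≤ 1 ∧ o ≤ 6) ∨ (j = 2 ∧ o = 0)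
  | .B j i => (j = 0 ∧ 1 ≤ i ∧ i ≤ 5) ∨ (j = 1 ∧ i ≤ 5) ∨ (j = 2 ∧ i = 0)
  | .C => True

/-- What the classes of a type mean. -/
structure RS (s u v t fr r b1 c1 b2 c2 : ℕ) : Prop where
  hfr : fr ≤ 1
  ex : ∃ b o b' o' : ℕ, o < 2 ^ s ∧ r = b * 2 ^ s + o ∧ r < v ∧ b1 = cb b ∧ c1 = oc (2 ^ s) o ∧
    o' < 2 ^ s ∧ b' * 2 ^ s + o' < v ∧ b2 = cb b' ∧ c2 = oc (2 ^ s) o' ∧
    r + (b' * 2 ^ s + o') = t + fr * v

theorem Par.sixteen {s u v : ℕ} (h : Par s u v) : 16 ≤ 2 ^ s := by
  calc 16 = 2 ^ 4 := by norm_num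
    _ ≤ 2 ^ s := Nat.pow_le_pow_right (by norm_num) h.hs

theorem rws_sound {s u v : ℕ} (H : Str s u v) {k a : ℕ} (ha : a < 2 ^ s)
    (ht : k * 2 ^ s + a < v) {ty : Ty} (hg : GoodTy ty) {b1 c1 b2 c2 fr : ℕ}
    (h : rws (2 ^ s) u k a ty = some (b1, c1, b2, c2, fr)) :
    RS s u v (k * 2 ^ s + a) fr (r1 (2 ^ s) v k ty) b1 c1 b2 c2 := by
  have h16 := H.par.sixteen
  have hv := H.par.hv
  have hu := H.par.hu
  have hku : k < u := by
    by_contra hc
    have : u * 2 ^ s ≤ k * 2 ^ s := Nat.mul_le_mul_right _ (by omega)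
    omega
  have hu3 : 3 * 2 ^ s ≤ u * 2 ^ s := Nat.mul_le_mul_right _ hu
  cases ty with
  | A j o =>
    have hj : j ≤ 2 := by simp only [GoodTy] at hg; omega
    have ho : o ≤ 6 := by simp only [GoodTy] at hg; omega
    simp only [rws] at h
    by_cases hoa : o ≤ a
    · rw [prof_ge ha hoa] at h
      split_ifs at h with hk
      simp only [Option.some.injEq, Prod.mk.injEq] at h
      obtain ⟨rfl, rfl, rfl, rfl, rfl⟩ := h
      obtain ⟨x, rfl⟩ : ∃ x, k = x + j := ⟨k - j, by simp only at hk; omega⟩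
      have e1 : (x + j) * 2 ^ s = x * 2 ^ s + j * 2 ^ s := by ring
      have hcb : cb j = j := by unfold cb; rw [if_pos (by omega)]
      have e2 : x + j + 1 - 1 - j = x := by omega
      refine ⟨by omega, j, o, x, a - o, by omega, rfl, ?_, hcb.symm, rfl, by omega, by omega,
        by rw [e2], rfl, ?_⟩
      · simp only [r1]; omega
      · simp only [r1]; omega
    · rw [prof_lt (by omega) (by omega)] at h
      split_ifs at h with hk
      simp only [Option.some.injEq, Prod.mk.injEq] at h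
      obtain ⟨rfl, rfl, rfl, rfl, rfl⟩ := h
      obtain ⟨x, rfl⟩ : ∃ x, k = x + 1 + j := ⟨k - 1 - j, by simp only at hk; omega⟩
      have e1 : (x + 1 + j) * 2 ^ s = x * 2 ^ s + 2 ^ s + j * 2 ^ s := by ring
      have hcb : cb j = j := by unfold cb; rw [if_pos (by omega)]
      have e2 : x + 1 + j + 0 - 1 - j = x := by omega
      refine ⟨by omega, j, o, x, 2 ^ s + a - o, by omega, rfl, ?_, hcb.symm, rfl, by omega,
        by omega, by rw [e2], rfl, ?_⟩
      · simp only [r1]; omega
      · simp only [r1]; omega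
  | B j i =>
    have hj : j ≤ 2 := by simp only [GoodTy] at hg; omega
    have hi5 : i ≤ 5 := by simp only [GoodTy] at hg; omega
    have hij : 1 ≤ i ∨ 1 ≤ j := by simp only [GoodTy] at hg; omega
    simp only [rws] at h
    have huj : (u - 1 - j) * 2 ^ s + (2 ^ s - 1 - i) = v - i - j * 2 ^ s := by
      obtain ⟨y, rfl⟩ : ∃ y, u = y + 1 + j := ⟨u - 1 - j, by omega⟩
      have e1 : (y + 1 + j) * 2 ^ s = y * 2 ^ s + 2 ^ s + j * 2 ^ s := by ring
      have e2 : y + 1 + j - 1 - j = y := by omega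
      rw [e2]; omega
    have hjN : j * 2 ^ s ≤ 2 * 2 ^ s := Nat.mul_le_mul_right _ hj
    have hjN1 : 1 ≤ j → 2 ^ s ≤ j * 2 ^ s := by
      intro h1
      calc 2 ^ s = 1 * 2 ^ s := by ring
        _ ≤ j * 2 ^ s := Nat.mul_le_mul_right _ h1
    have key : ∀ b off : ℕ, b * 2 ^ s + off = k * 2 ^ s + a + i + j * 2 ^ s → off < 2 ^ s →
        b < u ∧ ¬ (b + 1 = u ∧ oc (2 ^ s) off = 20) →
        RS s u v (k * 2 ^ s + a) 1 (v - i - j * 2 ^ s) (cb (u - 1 - j)) (oc (2 ^ s) (2 ^ s - 1 - i))
          (cb b) (oc (2 ^ s) off) := by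
      intro b off e1 e2 ⟨e3, e4⟩
      have hlt : b * 2 ^ s + off < v := by
        by_cases h5 : b + 1 = u
        · have h6 : ¬ off + 1 = 2 ^ s := by
            intro h7; apply e4; refine ⟨h5, ?_⟩
            unfold oc; rw [if_pos h7]
          rw [← h5] at hv
          have e5 : (b + 1) * 2 ^ s = b * 2 ^ s + 2 ^ s := by ring
          omega
        · have h6 : (b + 2) * 2 ^ s ≤ u * 2 ^ s := Nat.mul_le_mul_right _ (by omega)
          have e5 : (b + 2) * 2 ^ s = b * 2 ^ s + 2 ^ s + 2 ^ s := by ring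
          omega
      exact ⟨le_rfl, u - 1 - j, 2 ^ s - 1 - i, b, off, by omega, huj.symm, by omega, rfl, rfl, e2,
        hlt, rfl, rfl, by omega⟩
    by_cases hai : a + i < 2 ^ s
    · rw [prof_add_lt hai] at h
      split_ifs at h with hk
      simp only [Option.some.injEq, Prod.mk.injEq] at h
      obtain ⟨rfl, rfl, rfl, rfl, rfl⟩ := h
      simp only at hk ⊢
      have e2 : k + 1 - 1 + j = k + j := by omega
      rw [e2] at hk ⊢
      exact key (k + j) (a + i) (by ring) hai hk
    · rw [prof_add_ge ha (by omega) (by omega)] at h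
      split_ifs at h with hk
      simp only [Option.some.injEq, Prod.mk.injEq] at h
      obtain ⟨rfl, rfl, rfl, rfl, rfl⟩ := h
      simp only at hk ⊢
      have e2 : k + 2 - 1 + j = k + 1 + j := by omega
      rw [e2] at hk ⊢
      refine key (k + 1 + j) (a + i - 2 ^ s) ?_ (by omega) hk
      have e3 : (k + 1 + j) * 2 ^ s = k * 2 ^ s + 2 ^ s + j * 2 ^ s := by ring
      omega
  | C =>
    simp only [rws] at h
    split_ifs at h with hk
    simp only [Option.some.injEq, Prod.mk.injEq] at h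
    obtain ⟨rfl, rfl, rfl, rfl, rfl⟩ := h
    obtain ⟨x, rfl⟩ : ∃ x, k = x + 1 := ⟨k - 1, by omega⟩
    have e1 : (x + 1) * 2 ^ s = x * 2 ^ s + 2 ^ s := by ring
    have hoc : oc (2 ^ s) (2 ^ s - 1) = 20 := by unfold oc; rw [if_pos (by omega)]
    have e2 : x + 1 - 1 = x := by omega
    have e3 : r1 (2 ^ s) v (x + 1) Ty.C = x * 2 ^ s + (2 ^ s - 1) := by
      simp only [r1]; omega
    by_cases hai : a + 1 < 2 ^ s
    · rw [prof_add_lt hai] at *
      simp only
      exact ⟨by omega, x, 2 ^ s - 1, 0, a + 1, by omega, e3, by omega, by rw [e2], hoc.symm,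
        hai, by omega, rfl, rfl, by omega⟩
    · rw [prof_add_ge ha (by omega) (by omega)] at *
      simp only
      exact ⟨by omega, x, 2 ^ s - 1, 1, a + 1 - 2 ^ s, by omega, e3, by omega, by rw [e2],
        hoc.symm, by omega, by omega, rfl, rfl, by omega⟩

/-- Different types have different first rows. -/
theorem r1_inj {s u v : ℕ} (H : Par s u v) {k a : ℕ} (ha : a < 2 ^ s)
    (ht : k * 2 ^ s + a < v) {ty ty' : Ty} (hg : GoodTy ty) (hg' : GoodTy ty')
    (h1 : rws (2 ^ s) u k a ty ≠ none) (h2 : rws (2 ^ s) u k a ty' ≠ none)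
    (he : r1 (2 ^ s) v k ty = r1 (2 ^ s) v k ty') : ty = ty' := by
  have h16 := H.sixteen
  have hv := H.hv
  have hu := H.hu
  have hu3 : 3 * 2 ^ s ≤ u * 2 ^ s := Nat.mul_le_mul_right _ hu
  have hku : k < u := by
    by_contra hc
    have : u * 2 ^ s ≤ k * 2 ^ s := Nat.mul_le_mul_right _ (by omega)
    omega
  have AC : ∀ j o, GoodTy (Ty.A j o) → 1 ≤ k → j * 2 ^ s + o = k * 2 ^ s - 1 → False := by
    intro j o hA hk e
    have hj : j ≤ 2 := by simp only [GoodTy] at hA; omega
    have ho : o ≤ 6 := by simp only [GoodTy] at hA; omega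
    have e1 : 2 ^ s ≤ k * 2 ^ s := by
      calc 2 ^ s = 1 * 2 ^ s := by ring
        _ ≤ k * 2 ^ s := Nat.mul_le_mul_right _ hk
    have e2 : (k - j) * 2 ^ s = k * 2 ^ s - j * 2 ^ s := by rw [Nat.sub_mul]
    rcases Nat.eq_zero_or_pos (k - j) with h0 | h0
    · rw [h0] at e2; omega
    · have e3 : 2 ^ s ≤ (k - j) * 2 ^ s := by
        calc 2 ^ s = 1 * 2 ^ s := by ring
          _ ≤ (k - j) * 2 ^ s := Nat.mul_le_mul_right _ h0
      omega
  have AB : ∀ j o j' i', GoodTy (Ty.A j o) → GoodTy (Ty.B j' i') →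
      j * 2 ^ s + o = v - i' - j' * 2 ^ s → False := by
    intro j o j' i' hA hB e
    have hj : j ≤ 2 := by simp only [GoodTy] at hA; omega
    have ho : o ≤ 6 := by simp only [GoodTy] at hA; omega
    simp only [GoodTy] at hB
    have hj' : j' ≤ 2 := by omega
    have e2 : (u - j' - j) * 2 ^ s = u * 2 ^ s - j' * 2 ^ s - j * 2 ^ s := by
      rw [Nat.sub_mul, Nat.sub_mul]
    have hj2 : j' * 2 ^ s ≤ 2 * 2 ^ s := Nat.mul_le_mul_right _ hj'
    rcases Nat.eq_zero_or_pos (u - j' - j) with h0 | h0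
    · rw [h0] at e2; omega
    · have e3 : 2 ^ s ≤ (u - j' - j) * 2 ^ s := by
        calc 2 ^ s = 1 * 2 ^ s := by ring
          _ ≤ (u - j' - j) * 2 ^ s := Nat.mul_le_mul_right _ h0
      omega
  have BC : ∀ j i, GoodTy (Ty.B j i) → rws (2 ^ s) u k a (Ty.B j i) ≠ none → 1 ≤ k →
      v - i - j * 2 ^ s = k * 2 ^ s - 1 → False := by
    intro j i hB hv1 hk e
    have hj : j ≤ 2 := by simp only [GoodTy] at hB; omega
    have hi5 : i ≤ 5 := by simp only [GoodTy] at hB; omega
    have e1 : 2 ^ s ≤ k * 2 ^ s := by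
      calc 2 ^ s = 1 * 2 ^ s := by ring
        _ ≤ k * 2 ^ s := Nat.mul_le_mul_right _ hk
    have hj2 : j * 2 ^ s ≤ 2 * 2 ^ s := Nat.mul_le_mul_right _ hj
    by_cases hkj : k + j < u
    · have e2 : (u - j - k) * 2 ^ s = u * 2 ^ s - j * 2 ^ s - k * 2 ^ s := by
        rw [Nat.sub_mul, Nat.sub_mul]
      have e3 : 2 ^ s ≤ (u - j - k) * 2 ^ s := by
        calc 2 ^ s = 1 * 2 ^ s := by ring
          _ ≤ (u - j - k) * 2 ^ s := Nat.mul_le_mul_right _ (by omega)
      omega
    · apply hv1
      simp only [rws]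
      by_cases hai : a + i < 2 ^ s
      · rw [prof_add_lt hai, if_neg]
        simp only; omega
      · rw [prof_add_ge ha (by omega) (by omega), if_neg]
        simp only; omega
  cases ty with
  | A j o =>
    cases ty' with
    | A j' o' =>
      have hj : j ≤ 2 := by simp only [GoodTy] at hg; omega
      have ho : o ≤ 6 := by simp only [GoodTy] at hg; omega
      have hj' : j' ≤ 2 := by simp only [GoodTy] at hg'; omega
      have ho' : o' ≤ 6 := by simp only [GoodTy] at hg'; omega
      simp only [r1] at he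
      have : j = j' := by
        rcases Nat.lt_trichotomy j j' with h | h | h
        · exfalso
          have := Nat.mul_le_mul_right (2 ^ s) (show j + 1 ≤ j' from h)
          rw [add_mul, one_mul] at this; omega
        · exact h
        · exfalso
          have := Nat.mul_le_mul_right (2 ^ s) (show j' + 1 ≤ j from h)
          rw [add_mul, one_mul] at this; omega
      subst this
      have : o = o' := by omega
      rw [this]
    | B j' i' => exact (AB j o j' i' hg hg' he).elim
    | C =>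
      refine (AC j o hg ?_ he).elim
      by_contra hc
      apply h2; simp only [rws]; rw [if_neg (by omega)]
  | B j i =>
    cases ty' with
    | A j' o' => exact (AB j' o' j i hg' hg he.symm).elim
    | B j' i' =>
      simp only [r1] at he
      have hj : j ≤ 2 := by simp only [GoodTy] at hg; omega
      have hi5 : i ≤ 5 := by simp only [GoodTy] at hg; omega
      have hj' : j' ≤ 2 := by simp only [GoodTy] at hg'; omega
      have hi5' : i' ≤ 5 := by simp only [GoodTy] at hg'; omega
      have hj2 : j * 2 ^ s ≤ 2 * 2 ^ s := Nat.mul_le_mul_right _ hj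
      have hj2' : j' * 2 ^ s ≤ 2 * 2 ^ s := Nat.mul_le_mul_right _ hj'
      have : j = j' := by
        rcases Nat.lt_trichotomy j j' with h | h | h
        · exfalso
          have := Nat.mul_le_mul_right (2 ^ s) (show j + 1 ≤ j' from h)
          rw [add_mul, one_mul] at this; omega
        · exact h
        · exfalso
          have := Nat.mul_le_mul_right (2 ^ s) (show j' + 1 ≤ j from h)
          rw [add_mul, one_mul] at this; omega
      subst this
      have : i = i' := by omega
      rw [this]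
    | C =>
      refine (BC j i hg h1 ?_ he).elim
      by_contra hc
      apply h2; simp only [rws]; rw [if_neg (by omega)]
  | C =>
    have hk : 1 ≤ k := by
      by_contra hc
      apply h1; simp only [rws]; rw [if_neg (by omega)]
    cases ty' with
    | A j' o' => exact (AC j' o' hg' hk he.symm).elim
    | B j' i' => exact (BC j' i' hg' h2 hk he.symm).elim
    | C => rfl

end Pool.Agent.H65.Um
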