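import Pool.Agent.H65.Um.ChkT

/-!
# Soundness of the finite check: from solutions to two pairs, and the reduction to small parameters
-/

set_option autoImplicit false

namespace Pool.Agent.H65.Um

open Pool.Agent.H65.Ul

theorem pos_inj {v : ℕ} (hodd : v % 2 = 1) {r r' : ℕ} {x x' : ℤ} (hr : r < v) (hr' : r' < v)
    (h : 2 * (r : ℤ) + v * x = 2 * r' + v * x') : r = r' ∧ x = x' := by
  obtain ⟨w, hw⟩ : ∃ w : ℕ, v = 2 * w + 1 := ⟨v / 2, by omega⟩
  have h1 : (v : ℤ) * (x' - x) = 2 * ((r : ℤ) - r') := by linarith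
  obtain ⟨e, he⟩ : ∃ e : ℤ, x' - x = 2 * e := by
    refine ⟨(r : ℤ) - r' - w * (x' - x), ?_⟩
    have : (2 * (w : ℤ) + 1) * (x' - x) = 2 * ((r : ℤ) - r') := by
      rw [← h1, hw]; push_cast; ring
    linarith
  rw [he] at h1
  have h2 : (v : ℤ) * e = r - r' := by linarith
  have he0 : e = 0 := by
    rcases lt_trichotomy e 0 with h3 | h3 | h3
    · have : (v : ℤ) * e ≤ v * (-1) := mul_le_mul_of_nonneg_left (by omega) (by omega)
      omega
    · exact h3
    · have : (v : ℤ) * 1 ≤ v * e := mul_le_mul_of_nonneg_left (by omega) (by omega)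
      omega
  subst he0
  constructor
  · omega
  · omega

theorem hex5 : ∀ i < 24, (0x555555 : ℕ).testBit i = true → i % 2 = 0 := by decide

theorem hexA : ∀ i < 24, (0x2AAAAA : ℕ).testBit i = true → i % 2 = 1 := by decide

theorem bit_lt {n k i : ℕ} (hn : n < 2 ^ k) (h : n.testBit i = true) : i < k := by
  by_contra hc
  have : n < 2 ^ i := hn.trans_le (Nat.pow_le_pow_right (by norm_num) (by omega))
  rw [Nat.testBit_lt_two_pow this] at h
  exact Bool.noConfusion h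

theorem lom_odd {S : ℕ} {e : Bool} {i : ℕ} (h : (lom S true e).testBit i = true) : i % 2 = 0 := by
  have h' : (0x555555 : ℕ).testBit i = true := h
  exact hex5 i (bit_lt (by norm_num) h') h'

theorem him_odd {S : ℕ} {i : ℕ} (h : (him S true).testBit i = true) : i % 2 = 1 := by
  have h' : (0x2AAAAA : ℕ).testBit i = true := h
  exact hexA i (bit_lt (by norm_num) h') h'

theorem lom_even {S : ℕ} {e : Bool} {i : ℕ} (h : (lom S false e).testBit i = true) :
    i < S / 2 ∨ (e = true ∧ i = S / 2) := by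
  have h' : (2 ^ (S / 2 + (if e then 1 else 0)) - 1 : ℕ).testBit i = true := h
  rw [Nat.testBit_two_pow_sub_one, decide_eq_true_eq] at h'
  cases e
  · left; simpa using h'
  · have h'' : i < S / 2 + 1 := by simpa using h'
    by_cases h3 : i < S / 2
    · exact Or.inl h3
    · exact Or.inr ⟨rfl, by omega⟩

theorem him_even {S : ℕ} {i : ℕ} (h : (him S false).testBit i = true) : S / 2 < i := by
  have h' : ((0x7FFFFF >>> (S / 2 + 1)) <<< (S / 2 + 1) : ℕ).testBit i = true := h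
  rw [Nat.testBit_shiftLeft, Bool.and_eq_true, decide_eq_true_eq] at h'
  omega

/-- The position of a solution. -/
def posn (s v k : ℕ) (ty : Ty) (i : ℕ) : ℤ :=
  2 * ((r1 (2 ^ s) v k ty : ℕ) : ℤ) + v * (2 * 2 ^ s - 14 + i)

theorem ent_some {q : Bool} {N u k a : ℕ} {ty : Ty} {e : ℕ × ℕ × ℕ × Bool}
    (h : ent q N u k a ty = some e) : ∃ b1 c1 b2 c2 fr, rws N u k a ty = some (b1, c1, b2, c2, fr) ∧
      e = (em q b1 c1, emr q b2 c2, fr, eqf N k a ty) := by
  unfold ent at h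
  cases hr : rws N u k a ty with
  | none => rw [hr] at h; exact absurd h (by simp)
  | some x =>
    obtain ⟨b1, c1, b2, c2, fr⟩ := x
    rw [hr] at h
    simp only [Option.some.injEq] at h
    exact ⟨b1, c1, b2, c2, fr, rfl, h.symm⟩

/-- A solution gives two cells with the right sum. -/
theorem sol_cells {s u v : ℕ} (H : Str s u v) {k a : ℕ} (ha : a < 2 ^ s)
    (ht : k * 2 ^ s + a < v) {ty : Ty} (hg : GoodTy ty) {Y c : ℕ} (hY : 2 ≤ Y)
    (hc : c + 28 = 4 * 2 ^ s + Y) {e : ℕ × ℕ × ℕ × Bool}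
    (he : ent (decide (u = 3)) (2 ^ s) u k a ty = some e) {i : ℕ}
    (hs : (sol e.1 e.2.1 (Y - 2 * e.2.2.1)).testBit i = true) :
    XZ v (posn s v k ty i) = true ∧
    XZ v (2 * ((k * 2 ^ s + a : ℕ) : ℤ) + v * (c : ℤ) - posn s v k ty i) = true ∧
    ∃ t2 j : ℕ, t2 < v ∧ i + j = Y - 2 * e.2.2.1 ∧
      r1 (2 ^ s) v k ty + t2 = k * 2 ^ s + a + e.2.2.1 * v ∧ r1 (2 ^ s) v k ty < v ∧
      2 * ((k * 2 ^ s + a : ℕ) : ℤ) + v * (c : ℤ) - posn s v k ty i =
        2 * (t2 : ℤ) + v * (2 * 2 ^ s - 14 + j) ∧ e.2.2.1 ≤ 1 := by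
  obtain ⟨b1, c1, b2, c2, fr, h1, h2⟩ := ent_some he
  have hRS := rws_sound H ha ht hg h1
  rw [h2] at hs ⊢
  simp only at hs ⊢
  obtain ⟨b, o, b', o', g1, g2, g3, g4, g5, g6, g7, g8, g9, e1⟩ := hRS.ex
  obtain ⟨s1, j, s2, s3, s4⟩ := sol_sound (g8 ▸ cb_lt _) (g9 ▸ oc_lt _ _) hs
  have hfr := hRS.hfr
  have e3 : cel v ((r1 (2 ^ s) v k ty : ℕ) : ℤ) (2 * 2 ^ s - 14 + i) = true := by
    rw [g4, g5] at s1
    rw [g2]
    exact em_cel H g1 (g2 ▸ g3) s1
  have e4 : cel v ((b' * 2 ^ s + o' : ℕ) : ℤ) (2 * 2 ^ s - 14 + j) = true := by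
    rw [g8, g9] at s4
    exact em_cel H g6 g7 s4
  obtain ⟨t2, ht2⟩ : ∃ t2, t2 = b' * 2 ^ s + o' := ⟨_, rfl⟩
  rw [← ht2] at e1 e4 g7
  have key : 2 * ((k * 2 ^ s + a : ℕ) : ℤ) + v * (c : ℤ) - posn s v k ty i =
      2 * (t2 : ℤ) + v * (2 * 2 ^ s - 14 + j) := by
    unfold posn
    have f1 : (c : ℤ) = 4 * 2 ^ s + Y - 28 := by
      have : (c : ℤ) + 28 = 4 * 2 ^ s + Y := by exact_mod_cast hc
      linarith
    have f2 : (j : ℤ) = Y - 2 * fr - i := by omega
    have f3 : ((r1 (2 ^ s) v k ty : ℕ) : ℤ) + t2 = ((k * 2 ^ s + a : ℕ) : ℤ) + fr * v := by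
      exact_mod_cast e1
    rw [f1, f2]
    linear_combination (-2 : ℤ) * f3
  refine ⟨e3, ?_, t2, j, g7, s3, e1, g3, key, hfr⟩
  rw [key]
  exact e4

theorem posn_ne {s u v : ℕ} (H : Par s u v) {k a : ℕ} (ha : a < 2 ^ s)
    (ht : k * 2 ^ s + a < v) {ty ty' : Ty} (hg : GoodTy ty) (hg' : GoodTy ty')
    (h1 : rws (2 ^ s) u k a ty ≠ none) (h2 : rws (2 ^ s) u k a ty' ≠ none) {i i' : ℕ}
    (hr : r1 (2 ^ s) v k ty < v) (hr' : r1 (2 ^ s) v k ty' < v)
    (hne : ty ≠ ty' ∨ (ty = ty' ∧ i ≠ i')) : posn s v k ty i ≠ posn s v k ty' i' := by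
  intro h
  have hvodd : v % 2 = 1 := by
    have := H.hv
    have h2 : (u * 2 ^ s) % 2 = 0 := by
      obtain ⟨m, hm⟩ : ∃ m, s = m + 1 := ⟨s - 1, by have := H.hs; omega⟩
      rw [hm, pow_succ, ← mul_assoc, Nat.mul_mod_left]
    omega
  obtain ⟨e1, e2⟩ := pos_inj hvodd hr hr' h
  rcases hne with h3 | ⟨_, h3⟩
  · exact h3 (r1_inj H ha ht hg hg' h1 h2 e1)
  · apply h3; omega

/-- Two solutions of the same class give two pairs. -/
theorem two_of_go {s u v : ℕ} (H : Str s u v) {k a : ℕ} (ha : a < 2 ^ s)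
    (ht : k * 2 ^ s + a < v) {TL : List Ty} (hnd : TL.Nodup) (hTL : ∀ ty ∈ TL, GoodTy ty)
    {Y c : ℕ} (hY : 2 ≤ Y) (hc : c + 28 = 4 * 2 ^ s + Y)
    (h : go Y (decide (Y % 2 = 1)) (TL.filterMap (ent (decide (u = 3)) (2 ^ s) u k a))
      false false = true) :
    Two v (2 * ((k * 2 ^ s + a : ℕ) : ℤ) + v * (c : ℤ)) := by
  have hvodd : v % 2 = 1 := by
    have := H.par.hv
    have h2 : (u * 2 ^ s) % 2 = 0 := by
      obtain ⟨m, hm⟩ : ∃ m, s = m + 1 := ⟨s - 1, by have := H.par.hs; omega⟩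
      rw [hm, pow_succ, ← mul_assoc, Nat.mul_mod_left]
    omega
  have hpv : ∀ x : ℤ, (v * x) % 2 = x % 2 := by
    intro x
    obtain ⟨w, hw⟩ : ∃ w : ℕ, v = 2 * w + 1 := ⟨v / 2, by omega⟩
    have e : (v : ℤ) * x = 2 * (w * x) + x := by rw [hw]; push_cast; ring
    rw [e]; omega
  have hposp : ∀ ty i, posn s v k ty i % 2 = (i : ℤ) % 2 := by
    intro ty i
    unfold posn
    have h1 := hpv (2 * 2 ^ s - 14 + i)
    omega
  have hKp : (2 * ((k * 2 ^ s + a : ℕ) : ℤ) + v * (c : ℤ)) % 2 = (Y : ℤ) % 2 := by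
    have h1 := hpv (c : ℤ)
    omega
  set K : ℤ := 2 * ((k * 2 ^ s + a : ℕ) : ℤ) + v * (c : ℤ) with hK
  have lower : ∀ ty, GoodTy ty → ∀ e i, ent (decide (u = 3)) (2 ^ s) u k a ty = some e →
      Y % 2 = 0 → LoS Y false e i → 2 * posn s v k ty i < K := by
    intro ty hg e i he hY2 ⟨hs1, hs2⟩
    obtain ⟨_, _, t2, j, e1, e2, e3, e4, e5, e6⟩ := sol_cells H ha ht hg hY hc he hs1
    have e5' : K - posn s v k ty i = 2 * (t2 : ℤ) + v * (2 * 2 ^ s - 14 + j) := e5
    have e7 : posn s v k ty i = 2 * ((r1 (2 ^ s) v k ty : ℕ) : ℤ) + v * (2 * 2 ^ s - 14 + i) := rfl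
    rcases lom_even hs2 with h1 | ⟨h1, h2⟩
    · have h3 : i + 2 ≤ j := by omega
      have h4 : (v : ℤ) * 2 ≤ v * ((j : ℤ) - i) := mul_le_mul_of_nonneg_left (by omega) (by omega)
      have h5 : K - posn s v k ty i - posn s v k ty i = 2 * ((t2 : ℤ) - r1 (2 ^ s) v k ty) +
          v * ((j : ℤ) - i) := by rw [e5', e7]; ring
      omega
    · obtain ⟨b1, c1, b2, c2, fr, g1, g2⟩ := ent_some he
      rw [g2] at h1 e2 e3 h2
      simp only at h1 e2 e3 h2
      cases ty with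
      | A j' o =>
        have h1' : (decide (j' = 0) && decide (2 * o < k * 2 ^ s + a)) = true := h1
        rw [Bool.and_eq_true, decide_eq_true_eq, decide_eq_true_eq] at h1'
        obtain ⟨rfl, h6⟩ := h1'
        have hfr : fr = 0 := by
          simp only [rws] at g1
          split_ifs at g1
          simp only [Option.some.injEq, Prod.mk.injEq] at g1
          exact g1.2.2.2.2.symm
        have h7 : j = i := by omega
        subst h7
        have h8 : r1 (2 ^ s) v k (Ty.A 0 o) = o := by simp [r1]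
        rw [h8] at e3 e7
        rw [hfr] at e3
        have h9 : K - posn s v k (Ty.A 0 o) j - posn s v k (Ty.A 0 o) j = 2 * ((t2 : ℤ) - o) := by
          rw [e5', e7]; ring
        omega
      | B _ _ => exact Bool.noConfusion h1
      | C => exact Bool.noConfusion h1
  have upper : ∀ ty, GoodTy ty → ∀ e i, ent (decide (u = 3)) (2 ^ s) u k a ty = some e →
      Y % 2 = 0 → HiS Y false e i → K < 2 * posn s v k ty i := by
    intro ty hg e i he hY2 ⟨hs1, hs2⟩
    obtain ⟨_, _, t2, j, e1, e2, e3, e4, e5, e6⟩ := sol_cells H ha ht hg hY hc he hs1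
    have e5' : K - posn s v k ty i = 2 * (t2 : ℤ) + v * (2 * 2 ^ s - 14 + j) := e5
    have e7 : posn s v k ty i = 2 * ((r1 (2 ^ s) v k ty : ℕ) : ℤ) + v * (2 * 2 ^ s - 14 + i) := rfl
    have h1 := him_even hs2
    have h3 : j + 2 ≤ i := by omega
    have h4 : (v : ℤ) * 2 ≤ v * ((i : ℤ) - j) := mul_le_mul_of_nonneg_left (by omega) (by omega)
    have h5 : posn s v k ty i - (K - posn s v k ty i) = 2 * ((r1 (2 ^ s) v k ty : ℤ) - t2) +
        v * ((i : ℤ) - j) := by rw [e5', e7]; ring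
    omega
  have fin : ∀ Q : (ℕ × ℕ × ℕ × Bool) → ℕ → Prop,
      (∀ e i, Q e i → (sol e.1 e.2.1 (Y - 2 * e.2.2.1)).testBit i = true) →
      Twice (ent (decide (u = 3)) (2 ^ s) u k a) TL Q →
      (∀ ty, GoodTy ty → ∀ e i, ent (decide (u = 3)) (2 ^ s) u k a ty = some e → Q e i →
        2 * posn s v k ty i < K) ∨
      (∀ ty, GoodTy ty → ∀ e i, ent (decide (u = 3)) (2 ^ s) u k a ty = some e → Q e i →
        K < 2 * posn s v k ty i) ∨
      (K % 2 = 1 ∧ ∃ p : ℤ, ∀ e i, Q e i → (i : ℤ) % 2 = p) → Two v K := by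
    rintro Q hQ ⟨ty, m1, ty', m2, e, e', i, i', f1, f2, q1, q2, hne⟩ hcase
    have g1 := hTL ty m1
    have g2 := hTL ty' m2
    obtain ⟨x1, x2, t2, j, _, _, _, hr, _⟩ := sol_cells H ha ht g1 hY hc f1 (hQ _ _ q1)
    obtain ⟨x1', x2', t2', j', _, _, _, hr', _⟩ := sol_cells H ha ht g2 hY hc f2 (hQ _ _ q2)
    have hn1 : rws (2 ^ s) u k a ty ≠ none := by
      obtain ⟨b1, c1, b2, c2, fr, g, _⟩ := ent_some f1
      rw [g]; simp
    have hn2 : rws (2 ^ s) u k a ty' ≠ none := by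
      obtain ⟨b1, c1, b2, c2, fr, g, _⟩ := ent_some f2
      rw [g]; simp
    have hpn := posn_ne H.par ha ht g1 g2 hn1 hn2 hr hr' hne
    rcases hcase with hc1 | hc1 | ⟨hc1, p, hc2⟩
    · exact two_lo _ _ x1 x2 x1' x2' (hc1 ty g1 e i f1 q1) (hc1 ty' g2 e' i' f2 q2) hpn
    · exact two_hi _ _ x1 x2 x1' x2' (hc1 ty g1 e i f1 q1) (hc1 ty' g2 e' i' f2 q2) hpn
    · exact two_par _ _ x1 x2 x1' x2' hc1 (by rw [hposp, hposp, hc2 e i q1, hc2 e' i' q2]) hpn
  have hgo := go_sound Y (decide (Y % 2 = 1)) _ TL false false hnd h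
  rcases hgo with ⟨h1, _⟩ | h1 | ⟨h1, _⟩ | h1
  · exact Bool.noConfusion h1
  · refine fin _ (fun e i hq => hq.1) h1 ?_
    by_cases hp : Y % 2 = 1
    · right; right
      refine ⟨by omega, 0, ?_⟩
      intro e i hq
      have h2 : (lom (Y - 2 * e.2.2.1) true e.2.2.2).testBit i = true := by
        have := hq.2; rw [decide_eq_true hp] at this; exact this
      have := lom_odd h2
      omega
    · left
      rw [decide_eq_false hp] at h1 ⊢
      intro ty hg e i he hq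
      exact lower ty hg e i he (by omega) hq
  · exact Bool.noConfusion h1
  · refine fin _ (fun e i hq => hq.1) h1 ?_
    by_cases hp : Y % 2 = 1
    · right; right
      refine ⟨by omega, 1, ?_⟩
      intro e i hq
      have h2 : (him (Y - 2 * e.2.2.1) true).testBit i = true := by
        have := hq.2; rw [decide_eq_true hp] at this; exact this
      have := him_odd h2
      omega
    · right; left
      rw [decide_eq_false hp] at h1 ⊢
      intro ty hg e i he hq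
      exact upper ty hg e i he (by omega) hq

end Pool.Agent.H65.Um
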