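import Pool.Agent.H65.Um.ChkU

/-!
# The finite check: reduction to small parameters
-/

set_option autoImplicit false

namespace Pool.Agent.H65.Um

open Pool.Agent.H65.Ul

/-- Same classes of the offsets around `a`. -/
structure RelA (N a N' a' : ℕ) : Prop where
  lt : a < N
  lt' : a' < N'
  h16 : 16 ≤ N
  h16' : 16 ≤ N'
  pA : ∀ o ≤ 6, prof N a (N - o) = prof N' a' (N' - o)
  pB : ∀ i ≤ 5, prof N a (N + i) = prof N' a' (N' + i)
  oA : ∀ o ≤ 6, oc N o = oc N' o
  oB : ∀ i ≤ 5, oc N (N - 1 - i) = oc N' (N' - 1 - i)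
  e : a = a' ∨ (13 ≤ a ∧ 13 ≤ a')

/-- Same classes of the blocks. -/
structure RelK (u k u' k' : ℕ) : Prop where
  hk : k = k' ∨ (6 ≤ k ∧ 6 ≤ k' ∧ k % 2 = k' % 2)
  hu : u = u' ∨ (7 ≤ u ∧ 7 ≤ u' ∧ u % 2 = u' % 2)
  h3 : 3 ≤ u
  h3' : 3 ≤ u'
  kl : k < u
  kl' : k' < u'
  hd : u - k = u' - k' ∨ (4 ≤ u - k ∧ 4 ≤ u' - k')

theorem prof_le {N a o : ℕ} (hN : 0 < N) (ha : a < N) : (prof N a (N - o)).1 ≤ 1 := by
  unfold prof
  simp only
  have : a + (N - o) < 2 * N := by omega
  have := Nat.div_lt_of_lt_mul (m := a + (N - o)) (n := N) (k := 2) (by omega)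
  omega

theorem rws_congr {N u k a N' u' k' a' : ℕ} (hA : RelA N a N' a') (hK : RelK u k u' k') {ty : Ty}
    (hg : GoodTy ty) : rws N u k a ty = rws N' u' k' a' ty := by
  obtain ⟨hk, hu, h3, h3', kl, kl', hd⟩ := hK
  have l1 := hA.lt
  have l2 := hA.lt'
  have l3 := hA.h16
  have l4 := hA.h16'
  cases ty with
  | A j o =>
    have hj : j ≤ 2 := by simp only [GoodTy] at hg; omega
    have ho : o ≤ 6 := by simp only [GoodTy] at hg; omega
    simp only [rws]
    rw [hA.pA o ho, hA.oA o ho]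
    have hp := prof_le (N := N') (a := a') (o := o) (by omega) hA.lt'
    have hp2 : j ≤ (prof N' a' (N' - o)).1 + 1 := by
      simp only [GoodTy] at hg
      rcases hg with hg | hg
      · omega
      · rw [hg.2, prof_ge hA.lt' (by omega)]; simp only; omega
    set p := prof N' a' (N' - o) with hpdef
    have hcond : (j + 1 ≤ k + p.1) ↔ (j + 1 ≤ k' + p.1) := by omega
    by_cases h : j + 1 ≤ k + p.1
    · rw [if_pos h, if_pos (hcond.mp h)]
      have : cb (k + p.1 - 1 - j) = cb (k' + p.1 - 1 - j) := by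
        unfold cb; split_ifs <;> omega
      rw [this]
    · rw [if_neg h, if_neg (fun h2 => h (hcond.mpr h2))]
  | B j i =>
    have hj : j ≤ 2 := by simp only [GoodTy] at hg; omega
    have hi5 : i ≤ 5 := by simp only [GoodTy] at hg; omega
    have hp2 : (prof N' a' (N' + i)).1 + j ≤ 3 ∧ 1 ≤ (prof N' a' (N' + i)).1 := by
      by_cases hai : a' + i < N'
      · rw [prof_add_lt hai]; simp only; omega
      · rw [prof_add_ge hA.lt' (by omega) (by omega)]
        simp only [GoodTy] at hg ⊢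
        omega
    simp only [rws]
    rw [hA.pB i hi5, hA.oB i hi5]
    set p := prof N' a' (N' + i) with hpdef
    have hcond : (k + p.1 - 1 + j < u ∧ ¬ (k + p.1 - 1 + j + 1 = u ∧ p.2 = 20)) ↔
        (k' + p.1 - 1 + j < u' ∧ ¬ (k' + p.1 - 1 + j + 1 = u' ∧ p.2 = 20)) := by omega
    have e1 : cb (u - 1 - j) = cb (u' - 1 - j) := by unfold cb; split_ifs <;> omega
    have e2 : cb (k + p.1 - 1 + j) = cb (k' + p.1 - 1 + j) := by unfold cb; split_ifs <;> omega
    by_cases h : k + p.1 - 1 + j < u ∧ ¬ (k + p.1 - 1 + j + 1 = u ∧ p.2 = 20)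
    · rw [if_pos h, if_pos (hcond.mp h), e1, e2]
    · rw [if_neg h, if_neg (fun h2 => h (hcond.mpr h2))]
  | C =>
    simp only [rws]
    rw [hA.pB 1 (by norm_num)]
    by_cases h : 1 ≤ k
    · rw [if_pos h, if_pos (by omega)]
      have : cb (k - 1) = cb (k' - 1) := by unfold cb; split_ifs <;> omega
      rw [this]
    · rw [if_neg h, if_neg (by omega)]

theorem eqf_congr {N u k a N' u' k' a' : ℕ} (hA : RelA N a N' a') (hK : RelK u k u' k') {ty : Ty}
    (hg : GoodTy ty) : eqf N k a ty = eqf N' k' a' ty := by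
  obtain ⟨hk, hu, h3, h3', kl, kl', hd⟩ := hK
  cases ty with
  | A j o =>
    have hj : j ≤ 2 := by simp only [GoodTy] at hg; omega
    have ho : o ≤ 6 := by simp only [GoodTy] at hg; omega
    have l3 := hA.h16
    have l4 := hA.h16'
    have l5 := hA.e
    simp only [eqf]
    congr 1
    apply decide_eq_decide.mpr
    by_cases hk0 : k = 0
    · have hk0' : k' = 0 := by omega
      rw [hk0, hk0', Nat.zero_mul, Nat.zero_mul]
      omega
    · have e1 : N ≤ k * N := Nat.le_mul_of_pos_left _ (by omega)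
      have e2 : N' ≤ k' * N' := Nat.le_mul_of_pos_left _ (by omega)
      omega
  | B j i => rfl
  | C => rfl

theorem ent_congr {N u k a N' u' k' a' : ℕ} (hA : RelA N a N' a') (hK : RelK u k u' k')
    {ty : Ty} (hg : GoodTy ty) : ent (decide (u = 3)) N u k a ty =
      ent (decide (u' = 3)) N' u' k' a' ty := by
  unfold ent
  rw [rws_congr hA hK hg, eqf_congr hA hK hg]
  have : decide (u = 3) = decide (u' = 3) := by
    apply decide_eq_decide.mpr
    have := hK.hu
    omega
  rw [this]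

theorem filterMap_ent_congr {N u k a N' u' k' a' : ℕ} (hA : RelA N a N' a') (hK : RelK u k u' k')
    {TL : List Ty} (hTL : ∀ ty ∈ TL, GoodTy ty) :
    TL.filterMap (ent (decide (u = 3)) N u k a) =
      TL.filterMap (ent (decide (u' = 3)) N' u' k' a') := by
  apply List.filterMap_congr
  intro ty hty
  exact ent_congr hA hK (hTL ty hty)

/-- Small blocks suffice. -/
theorem exists_relK {u k : ℕ} (hu : u % 2 = 1) (h3 : 3 ≤ u) (hk : k < u) :
    ∃ p ∈ pairsL, RelK u k p.1 p.2 := by
  by_cases h7 : u ≤ 7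
  · have : u = 3 ∨ u = 5 ∨ u = 7 := by omega
    refine ⟨(u, k), ?_, Or.inl rfl, Or.inl rfl, h3, h3, hk, hk, Or.inl rfl⟩
    rcases this with rfl | rfl | rfl
    · interval_cases k <;> decide
    · interval_cases k <;> decide
    · interval_cases k <;> decide
  · by_cases hk3 : k ≤ 3
    · refine ⟨(7, k), ?_, Or.inl rfl, Or.inr (by omega), h3, by norm_num, hk, by simp only; omega,
        Or.inr (by simp only; omega)⟩
      interval_cases k <;> decide
    · by_cases hk4 : k = 4
      · subst hk4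
        exact ⟨(9, 4), by decide, Or.inl rfl, Or.inr (by omega), h3, by norm_num, hk,
          by norm_num, Or.inr (by simp only; omega)⟩
      · by_cases hk5 : k = 5
        · subst hk5
          refine ⟨(9, 5), by decide, Or.inl rfl, Or.inr (by omega), h3, by norm_num, hk,
            by norm_num, ?_⟩
          simp only; omega
        · have hk6 : 6 ≤ k := by omega
          by_cases d1 : u - k = 1
          · exact ⟨(7, 6), by decide, Or.inr (by omega), Or.inr (by omega), h3, by norm_num, hk,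
              by norm_num, Or.inl (by simp only; omega)⟩
          · by_cases d2 : u - k = 2
            · exact ⟨(9, 7), by decide, Or.inr (by omega), Or.inr (by omega), h3, by norm_num, hk,
                by norm_num, Or.inl (by simp only; omega)⟩
            · by_cases d3 : u - k = 3
              · exact ⟨(9, 6), by decide, Or.inr (by omega), Or.inr (by omega), h3, by norm_num,
                  hk, by norm_num, Or.inl (by simp only; omega)⟩
              · rcases Nat.mod_two_eq_zero_or_one k with hp | hp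
                · exact ⟨(11, 6), by decide, Or.inr (by omega), Or.inr (by omega), h3,
                    by norm_num, hk, by norm_num, Or.inr (by simp only; omega)⟩
                · exact ⟨(11, 7), by decide, Or.inr (by omega), Or.inr (by omega), h3,
                    by norm_num, hk, by norm_num, Or.inr (by simp only; omega)⟩

theorem oc_eq_of {N N' x x' : ℕ} (h : (x + 1 = N ↔ x' + 1 = N') ∧ (x + 1 ≠ N →
    (x = x' ∨ (16 ≤ x ∧ 16 ≤ x' ∧ x % 4 = x' % 4)))) : oc N x = oc N' x' := by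
  unfold oc
  by_cases h1 : x + 1 = N
  · rw [if_pos h1, if_pos (h.1.mp h1)]
  · rw [if_neg h1, if_neg (fun h2 => h1 (h.1.mpr h2))]
    have := h.2 h1
    unfold co; split_ifs <;> omega

/-- Small offsets suffice. -/
theorem exists_relA {N a m : ℕ} (hN : N = 32 * m) (hm : 0 < m) (ha : a < N) :
    ∃ a' < 32, RelA N a 32 a' := by
  have key : ∀ a' : ℕ, a' < 32 → (a = a' ∨ (13 ≤ a ∧ 13 ≤ a')) →
      (∀ o ≤ 6, (o ≤ a ↔ o ≤ a') ∧
        (o ≤ a → ((a - o + 1 = N ↔ a' - o + 1 = 32) ∧ (a - o + 1 ≠ N →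
          (a - o = a' - o ∨ (16 ≤ a - o ∧ 16 ≤ a' - o ∧ (a - o) % 4 = (a' - o) % 4))))) ∧
        (a < o → ((N + a - o + 1 = N ↔ 32 + a' - o + 1 = 32) ∧
          (16 ≤ N + a - o ∧ 16 ≤ 32 + a' - o ∧ (N + a - o) % 4 = (32 + a' - o) % 4)))) →
      (∀ i ≤ 5, (a + i < N ↔ a' + i < 32) ∧
        (a + i < N → ((a + i + 1 = N ↔ a' + i + 1 = 32) ∧ (a + i + 1 ≠ N →
          (a + i = a' + i ∨ (16 ≤ a + i ∧ 16 ≤ a' + i ∧ (a + i) % 4 = (a' + i) % 4))))) ∧
        (N ≤ a + i → a + i - N = a' + i - 32)) → RelA N a 32 a' := by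
    intro a' h1 h2 h3 h4
    refine ⟨ha, h1, by omega, by norm_num, ?_, ?_, ?_, ?_, h2⟩
    · intro o ho
      obtain ⟨g1, g2, g3⟩ := h3 o ho
      by_cases hoa : o ≤ a
      · rw [prof_ge ha hoa, prof_ge h1 (g1.mp hoa), oc_eq_of (g2 hoa)]
      · have hoa' : a' < o := by
          by_contra hc; exact hoa (g1.mpr (by omega))
        rw [prof_lt (by omega) (by omega), prof_lt hoa' (by omega)]
        obtain ⟨g4, g5⟩ := g3 (by omega)
        rw [oc_eq_of ⟨g4, fun _ => Or.inr g5⟩]
    · intro i hi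
      obtain ⟨g1, g2, g3⟩ := h4 i hi
      by_cases hai : a + i < N
      · rw [prof_add_lt hai, prof_add_lt (g1.mp hai), oc_eq_of (g2 hai)]
      · have hai' : 32 ≤ a' + i := by
          by_contra hc; exact hai (g1.mpr (by omega))
        rw [prof_add_ge ha (by omega) (by omega), prof_add_ge h1 (by omega) hai',
          ← g3 (by omega)]
        rw [oc_eq_of (N := N) (N' := 32) (x := a + i - N) (x' := a + i - N)
          ⟨by omega, fun _ => Or.inl rfl⟩]
    · intro o ho
      exact oc_eq_of ⟨by omega, fun _ => Or.inl rfl⟩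
    · intro i hi
      exact oc_eq_of ⟨by omega, fun _ => Or.inr (by omega)⟩
  by_cases h22 : a < 22
  · refine ⟨a, by omega, key a (by omega) (Or.inl rfl) ?_ ?_⟩
    · intro o ho
      refine ⟨by omega, fun h => ⟨by omega, fun _ => Or.inl rfl⟩, fun h => ⟨by omega, by omega,
        by omega, by omega⟩⟩
    · intro i hi
      exact ⟨by omega, fun h => ⟨by omega, fun _ => Or.inl rfl⟩, fun h => by omega⟩
  · by_cases h6 : N ≤ a + 6
    · refine ⟨32 - (N - a), by omega, key _ (by omega) (Or.inr (by omega)) ?_ ?_⟩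
      · intro o ho
        refine ⟨by omega, fun h => ⟨by omega, fun _ => Or.inr (by omega)⟩, fun h => by omega⟩
      · intro i hi
        exact ⟨by omega, fun h => ⟨by omega, fun _ => Or.inr (by omega)⟩, fun h => by omega⟩
    · refine ⟨22 + (a - 22) % 4, by omega, key _ (by omega) (Or.inr (by omega)) ?_ ?_⟩
      · intro o ho
        refine ⟨by omega, fun h => ⟨by omega, fun _ => Or.inr (by omega)⟩, fun h => by omega⟩
      · intro i hi
        exact ⟨by omega, fun h => ⟨by omega, fun _ => Or.inr (by omega)⟩, fun h => by omega⟩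

theorem relA_refl {N a : ℕ} (h16 : 16 ≤ N) (ha : a < N) : RelA N a N a :=
  ⟨ha, ha, h16, h16, fun _ _ => rfl, fun _ _ => rfl, fun _ _ => rfl, fun _ _ => rfl, Or.inl rfl⟩

/-- Reduction to `N' ∈ {16, 32}` and small `u'`. -/
theorem reduce {s u v : ℕ} (H : Par s u v) {k a : ℕ} (ha : a < 2 ^ s) (hk : k < u) :
    ∃ N' a', (N' = 16 ∨ N' = 32) ∧ RelA (2 ^ s) a N' a' ∧ ∃ p ∈ pairsL, RelK u k p.1 p.2 := by
  obtain ⟨p, hp, hK⟩ := exists_relK H.odd H.hu hk
  by_cases h4 : s = 4
  · refine ⟨16, a, Or.inl rfl, ?_, p, hp, hK⟩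
    rw [h4] at ha ⊢
    exact relA_refl (by norm_num) ha
  · obtain ⟨a', _, hA⟩ := exists_relA (N := 2 ^ s) (a := a) (m := 2 ^ (s - 5)) (by
      have h32 : (32 : ℕ) = 2 ^ 5 := by norm_num
      rw [h32, ← pow_add]
      congr 1
      have := H.hs
      omega) (by positivity) ha
    exact ⟨32, a', Or.inr rfl, hA, p, hp, hK⟩

theorem good_TY : ∀ ty ∈ TY, GoodTy ty := by
  intro ty hty
  simp only [TY, List.mem_cons, List.not_mem_nil, or_false] at hty
  rcases hty with rfl | rfl | rfl | rfl | rfl | rfl | rfl | rfl | rfl | rfl | rfl | rfl | rfl |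
    rfl | rfl | rfl | rfl <;> simp [GoodTy]

/-- The last offset is recognised. -/
theorem last_of_rel {N u k a N' u' k' a' : ℕ} (hA : RelA N a N' a') (hK : RelK u k u' k')
    (h1 : k' + 1 = u') (h2 : a' + 1 = N') : k + 1 = u ∧ a + 1 = N := by
  have l1 := hK.hd
  have l2 := hK.kl
  refine ⟨by omega, ?_⟩
  have h3 := hA.pB 0 (by norm_num)
  rw [prof_add_lt (by have := hA.lt; omega), prof_add_lt (by have := hA.lt'; omega)] at h3
  simp only [Prod.mk.injEq, true_and, Nat.add_zero] at h3
  by_contra h4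
  unfold oc at h3
  rw [if_neg h4, if_pos h2] at h3
  have := co_lt a
  omega

end Pool.Agent.H65.Um
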