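import Pool.Agent.H65.Um.ChkV

/-!
# The finite check for the sums in the columns `2 N - 1, ..., 2 N + 6`
-/

set_option autoImplicit false

namespace Pool.Agent.H65.Um

open Pool.Agent.H65.Ul

/-- Known cells in the columns 0, 1, 2. -/
def sm (bc cl : ℕ) : ℕ :=
  if bc = 0 ∧ cl = 0 then 5 else if bc = 0 ∧ cl = 1 then 3 else
    if cl = 20 ∨ cl % 2 = 1 then 7 else 1

/-- Reversed. -/
def smr (bc cl : ℕ) : ℕ :=
  if bc = 0 ∧ cl = 0 then 5242880 else if bc = 0 ∧ cl = 1 then 6291456 else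
    if cl = 20 ∨ cl % 2 = 1 then 7340032 else 4194304

/-- Entries, strip in the first row. -/
def entS (q : Bool) (N u k a : ℕ) (ty : Ty) : Option (ℕ × ℕ × ℕ × Bool) :=
  match rws N u k a ty with
  | none => none
  | some (b1, c1, b2, c2, fr) => some (em q b1 c1, smr b2 c2, fr, false)

/-- Entries, strip in the second row. -/
def entM (q : Bool) (N u k a : ℕ) (ty : Ty) : Option (ℕ × ℕ × ℕ × Bool) :=
  match rws N u k a ty with
  | none => none
  | some (b1, c1, b2, c2, fr) => some (em q b2 c2, smr b1 c1, fr, false)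

def TS : List Ty := [.B 1 0, .A 1 3, .A 0 2, .A 0 0, .A 1 0]

def TM : List Ty := [.B 0 2, .B 1 0, .B 1 1, .A 0 0]

def chkZY (L M : List (ℕ × ℕ × ℕ × Bool)) : Bool :=
  (List.range 8).all (fun y => go (y + 13) false L false false || go (y + 13) false M false false)

def chkZA (q : Bool) (N u k a : ℕ) : Bool :=
  (decide (k + 1 = u) && decide (a + 1 = N)) ||
    chkZY (TS.filterMap (entS q N u k a)) (TM.filterMap (entM q N u k a))

def chkZN (N : ℕ) (L : List (ℕ × ℕ)) : Bool :=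
  L.all (fun p => (List.range N).all (fun a => chkZA (decide (p.1 = 3)) N p.1 p.2 a))

theorem chkZ16 : chkZN 16 pairsL = true := by decide +kernel

theorem chkZ32 : chkZN 32 pairsL = true := by decide +kernel

theorem smr_chk : ∀ bc < 6, ∀ cl < 21, ∀ i < 23,
    (smr bc cl).testBit (22 - i) = (sm bc cl).testBit i := by decide +kernel

theorem smr_lt : ∀ bc < 6, ∀ cl < 21, smr bc cl < 2 ^ 23 := by decide +kernel

theorem sm_lt : ∀ bc < 6, ∀ cl < 21, sm bc cl < 2 ^ 3 := by decide +kernel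

theorem solz_sound {m bc cl S i : ℕ} (hb : bc < 6) (hc : cl < 21)
    (h : (sol m (smr bc cl) S).testBit i = true) :
    m.testBit i = true ∧ ∃ j : ℕ, j < 3 ∧ i + j = S ∧ (sm bc cl).testBit j = true := by
  unfold sol at h
  rw [Nat.testBit_and, Bool.and_eq_true] at h
  refine ⟨h.1, ?_⟩
  have h2 := h.2
  have hlt : ∀ j, (smr bc cl).testBit j = true → j < 23 :=
    fun j hj => bit_lt (smr_lt bc hb cl hc) hj
  have hlt3 : ∀ j, (sm bc cl).testBit j = true → j < 3 :=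
    fun j hj => bit_lt (sm_lt bc hb cl hc) hj
  by_cases hS : 22 ≤ S
  · rw [if_pos hS, Nat.testBit_shiftLeft, Bool.and_eq_true, decide_eq_true_eq] at h2
    have h3 := hlt _ h2.2
    have h4 : (sm bc cl).testBit (22 - (i - (S - 22))) = true := by
      rw [← smr_chk bc hb cl hc _ (by omega)]
      have e : 22 - (22 - (i - (S - 22))) = i - (S - 22) := by omega
      rw [e]; exact h2.2
    exact ⟨22 - (i - (S - 22)), hlt3 _ h4, by omega, h4⟩
  · rw [if_neg hS, Nat.testBit_shiftRight] at h2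
    have h3 := hlt _ h2
    have h4 : (sm bc cl).testBit (22 - (22 - S + i)) = true := by
      rw [← smr_chk bc hb cl hc _ (by omega)]
      have e : 22 - (22 - (22 - S + i)) = 22 - S + i := by omega
      rw [e]; exact h2
    exact ⟨22 - (22 - S + i), hlt3 _ h4, by omega, h4⟩

theorem sm_spec : ∀ bc < 6, ∀ cl < 21, ∀ e < 3, (sm bc cl).testBit e = true →
    e = 0 ∨ (e = 1 ∧ (cl = 20 ∨ cl % 2 = 1)) ∨ (e = 2 ∧ (cl = 20 ∨ cl % 2 = 1) ∧
      ¬ (bc = 0 ∧ cl = 1)) ∨ (e = 2 ∧ bc = 0 ∧ cl = 0) := by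
  intro bc h1 cl h2 e h3 h
  unfold sm at h
  have ha : ∀ e < 3, (5 : ℕ).testBit e = true → e = 0 ∨ e = 2 := by decide
  have hb : ∀ e < 3, (3 : ℕ).testBit e = true → e = 0 ∨ e = 1 := by decide
  have hc : ∀ e < 3, (1 : ℕ).testBit e = true → e = 0 := by decide
  split_ifs at h with g1 g2 g3
  · rcases ha e h3 h with h4 | h4
    · exact Or.inl h4
    · exact Or.inr (Or.inr (Or.inr ⟨h4, g1⟩))
  · rcases hb e h3 h with h4 | h4
    · exact Or.inl h4
    · exact Or.inr (Or.inl ⟨h4, Or.inr (by omega)⟩)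
  · have h5 : e = 0 ∨ e = 1 ∨ e = 2 := by omega
    rcases h5 with h5 | h5 | h5
    · exact Or.inl h5
    · exact Or.inr (Or.inl ⟨h5, g3⟩)
    · exact Or.inr (Or.inr (Or.inl ⟨h5, g3, g2⟩))
  · exact Or.inl (hc e h3 h)

theorem sm_cel {s u v : ℕ} (H : Str s u v) {b o e : ℕ} (ho : o < 2 ^ s) (hr : b * 2 ^ s + o < v)
    (he : e < 3) (h : (sm (cb b) (oc (2 ^ s) o)).testBit e = true) :
    cel v ((b * 2 ^ s + o : ℕ) : ℤ) e = true := by
  have h16 := H.par.sixteen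
  obtain ⟨m, hm⟩ : ∃ m, 2 ^ s = 4 * m := by
    refine ⟨2 ^ (s - 2), ?_⟩
    have h4 : (4 : ℕ) = 2 ^ 2 := by norm_num
    rw [h4, ← pow_add]
    congr 1
    have := H.par.hs
    omega
  have hpar : (b * 2 ^ s + o) % 2 = o % 2 := by
    have : b * 2 ^ s = 2 * (b * (2 * m)) := by rw [hm]; ring
    omega
  have hcl : ∀ x, (oc (2 ^ s) o = 20 ∨ oc (2 ^ s) o % 2 = 1) → x = o → o % 2 = 1 := by
    intro x h1 _
    unfold oc at h1
    split_ifs at h1 with h2
    · omega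
    · unfold co at h1; split_ifs at h1 <;> omega
  rcases sm_spec _ (cb_lt b) _ (oc_lt _ o) e he h with rfl | ⟨rfl, h1⟩ | ⟨rfl, h1, h2⟩ |
    ⟨rfl, h1, h2⟩
  · exact H.col0 _ (by omega)
  · exact H.col1 _ (by omega) (by have := hcl o h1 rfl; omega)
  · have h3 := hcl o h1 rfl
    refine H.col2 _ ?_ (by omega) (by omega)
    by_contra hc
    have hb : b = 0 := by
      by_contra hb
      have : 2 ^ s ≤ b * 2 ^ s := Nat.le_mul_of_pos_left _ (by omega)
      omega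
    subst hb
    apply h2
    have ho1 : o = 1 := by omega
    subst ho1
    refine ⟨rfl, ?_⟩
    unfold oc co
    rw [if_neg (by omega), if_pos (by norm_num)]
  · have ho0 : o = 0 := by
      unfold oc co at h2; split_ifs at h2 <;> omega
    have hb : b = 0 := by unfold cb at h1; split_ifs at h1 <;> omega
    have := H.row0 2 (by omega) (by norm_num)
    rw [hb, ho0]
    simpa using this

/-- A solution gives a pair with the strip cell in the upper half. -/
theorem solz_core {s u v : ℕ} (H : Str s u v) {t fr b o b' o' Y c i : ℕ} (ho : o < 2 ^ s)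
    (hr : b * 2 ^ s + o < v) (ho' : o' < 2 ^ s) (hr' : b' * 2 ^ s + o' < v)
    (hsum : b * 2 ^ s + o + (b' * 2 ^ s + o') = t + fr * v) (hY : 2 * fr ≤ Y)
    (hc : c + 14 = 2 * 2 ^ s + Y)
    (hs : (sol (em (decide (u = 3)) (cb b) (oc (2 ^ s) o)) (smr (cb b') (oc (2 ^ s) o'))
      (Y - 2 * fr)).testBit i = true) :
    XZ v (2 * ((b * 2 ^ s + o : ℕ) : ℤ) + v * (2 * 2 ^ s - 14 + i)) = true ∧
    XZ v (2 * (t : ℤ) + v * (c : ℤ) -
      (2 * ((b * 2 ^ s + o : ℕ) : ℤ) + v * (2 * 2 ^ s - 14 + i))) = true ∧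
    2 * (t : ℤ) + v * (c : ℤ) <
      2 * (2 * ((b * 2 ^ s + o : ℕ) : ℤ) + v * (2 * 2 ^ s - 14 + i)) := by
  have h16 := H.par.sixteen
  have h16z : (16 : ℤ) ≤ 2 ^ s := by exact_mod_cast h16
  obtain ⟨s1, j, s2, s3, s4⟩ := solz_sound (cb_lt _) (oc_lt _ _) hs
  have e3 := em_cel H ho hr s1
  have e4 := sm_cel H ho' hr' s2 s4
  have key : 2 * (t : ℤ) + v * (c : ℤ) -
      (2 * ((b * 2 ^ s + o : ℕ) : ℤ) + v * (2 * 2 ^ s - 14 + i)) =
      2 * ((b' * 2 ^ s + o' : ℕ) : ℤ) + v * (j : ℤ) := by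
    have f1 : (c : ℤ) = 2 * 2 ^ s + Y - 14 := by
      have : (c : ℤ) + 14 = 2 * 2 ^ s + Y := by exact_mod_cast hc
      linarith
    have f2 : (j : ℤ) = Y - 2 * fr - i := by omega
    have f3 : ((b * 2 ^ s + o : ℕ) : ℤ) + ((b' * 2 ^ s + o' : ℕ) : ℤ) = (t : ℤ) + fr * v := by
      exact_mod_cast hsum
    rw [f1, f2]
    linear_combination (-2 : ℤ) * f3
  refine ⟨e3, ?_, ?_⟩
  · rw [key]; exact e4
  · have h5 : (v : ℤ) * (2 * 2 ^ s - 14 + i - j) ≥ v * 2 :=
      mul_le_mul_of_nonneg_left (by omega) (by omega)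
    have h6 : 2 * (2 * ((b * 2 ^ s + o : ℕ) : ℤ) + v * (2 * 2 ^ s - 14 + i)) -
        (2 * (t : ℤ) + v * (c : ℤ)) = 2 * (((b * 2 ^ s + o : ℕ) : ℤ) - ((b' * 2 ^ s + o' : ℕ) : ℤ)) +
        v * (2 * 2 ^ s - 14 + i - j) := by
      linear_combination (-1 : ℤ) * key
    omega

theorem entS_some {q : Bool} {N u k a : ℕ} {ty : Ty} {e : ℕ × ℕ × ℕ × Bool}
    (h : entS q N u k a ty = some e) : ∃ b1 c1 b2 c2 fr,
      rws N u k a ty = some (b1, c1, b2, c2, fr) ∧ e = (em q b1 c1, smr b2 c2, fr, false) := by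
  unfold entS at h
  cases hr : rws N u k a ty with
  | none => rw [hr] at h; exact absurd h (by simp)
  | some x =>
    obtain ⟨b1, c1, b2, c2, fr⟩ := x
    rw [hr] at h
    simp only [Option.some.injEq] at h
    exact ⟨b1, c1, b2, c2, fr, rfl, h.symm⟩

theorem entM_some {q : Bool} {N u k a : ℕ} {ty : Ty} {e : ℕ × ℕ × ℕ × Bool}
    (h : entM q N u k a ty = some e) : ∃ b1 c1 b2 c2 fr,
      rws N u k a ty = some (b1, c1, b2, c2, fr) ∧ e = (em q b2 c2, smr b1 c1, fr, false) := by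
  unfold entM at h
  cases hr : rws N u k a ty with
  | none => rw [hr] at h; exact absurd h (by simp)
  | some x =>
    obtain ⟨b1, c1, b2, c2, fr⟩ := x
    rw [hr] at h
    simp only [Option.some.injEq] at h
    exact ⟨b1, c1, b2, c2, fr, rfl, h.symm⟩

theorem Par.vodd {s u v : ℕ} (H : Par s u v) : v % 2 = 1 := by
  have := H.hv
  have h2 : (u * 2 ^ s) % 2 = 0 := by
    obtain ⟨m, hm⟩ : ∃ m, s = m + 1 := ⟨s - 1, by have := H.hs; omega⟩
    rw [hm, pow_succ, ← mul_assoc, Nat.mul_mod_left]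
  omega

theorem two_of_S {s u v : ℕ} (H : Str s u v) {k a : ℕ} (ha : a < 2 ^ s)
    (ht : k * 2 ^ s + a < v) {TL : List Ty} (hTL : ∀ ty ∈ TL, GoodTy ty)
    {Y c : ℕ} (hY : 2 ≤ Y) (hc : c + 14 = 2 * 2 ^ s + Y)
    {Q : (ℕ × ℕ × ℕ × Bool) → ℕ → Prop}
    (hQ : ∀ e i, Q e i → (sol e.1 e.2.1 (Y - 2 * e.2.2.1)).testBit i = true)
    (h : Twice (entS (decide (u = 3)) (2 ^ s) u k a) TL Q) :
    Two v (2 * ((k * 2 ^ s + a : ℕ) : ℤ) + v * (c : ℤ)) := by
  obtain ⟨ty, m1, ty', m2, e, e', i, i', f1, f2, q1, q2, hne⟩ := h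
  obtain ⟨b1, c1, b2, c2, fr, g1, rfl⟩ := entS_some f1
  obtain ⟨b1', c1', b2', c2', fr', g1', rfl⟩ := entS_some f2
  obtain ⟨hfr, b, o, d, p, x1, x2, x3, rfl, rfl, x4, x5, rfl, rfl, x6⟩ :=
    rws_sound H ha ht (hTL ty m1) g1
  obtain ⟨hfr', b', o', d', p', x1', x2', x3', rfl, rfl, x4', x5', rfl, rfl, x6'⟩ :=
    rws_sound H ha ht (hTL ty' m2) g1'
  have w1 := solz_core (fr := fr) H x1 (x2 ▸ x3) x4 x5 (x2 ▸ x6) (by omega) hc (hQ _ _ q1)
  have w2 := solz_core (fr := fr') H x1' (x2' ▸ x3') x4' x5' (x2' ▸ x6') (by omega) hc (hQ _ _ q2)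
  refine two_hi _ _ w1.1 w1.2.1 w2.1 w2.2.1 w1.2.2 w2.2.2 ?_
  rw [← x2, ← x2']
  exact posn_ne H.par ha ht (hTL ty m1) (hTL ty' m2) (by rw [g1]; simp) (by rw [g1']; simp)
    x3 x3' hne

theorem two_of_M {s u v : ℕ} (H : Str s u v) {k a : ℕ} (ha : a < 2 ^ s)
    (ht : k * 2 ^ s + a < v) {TL : List Ty} (hTL : ∀ ty ∈ TL, GoodTy ty)
    {Y c : ℕ} (hY : 2 ≤ Y) (hc : c + 14 = 2 * 2 ^ s + Y)
    {Q : (ℕ × ℕ × ℕ × Bool) → ℕ → Prop}
    (hQ : ∀ e i, Q e i → (sol e.1 e.2.1 (Y - 2 * e.2.2.1)).testBit i = true)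
    (h : Twice (entM (decide (u = 3)) (2 ^ s) u k a) TL Q) :
    Two v (2 * ((k * 2 ^ s + a : ℕ) : ℤ) + v * (c : ℤ)) := by
  obtain ⟨ty, m1, ty', m2, e, e', i, i', f1, f2, q1, q2, hne⟩ := h
  obtain ⟨b1, c1, b2, c2, fr, g1, rfl⟩ := entM_some f1
  obtain ⟨b1', c1', b2', c2', fr', g1', rfl⟩ := entM_some f2
  obtain ⟨hfr, b, o, d, p, x1, x2, x3, rfl, rfl, x4, x5, rfl, rfl, x6⟩ :=
    rws_sound H ha ht (hTL ty m1) g1
  obtain ⟨hfr', b', o', d', p', x1', x2', x3', rfl, rfl, x4', x5', rfl, rfl, x6'⟩ :=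
    rws_sound H ha ht (hTL ty' m2) g1'
  have w1 := solz_core (fr := fr) H x4 x5 x1 (x2 ▸ x3) (by rw [← x2, add_comm]; exact x6) (by omega) hc
    (hQ _ _ q1)
  have w2 := solz_core (fr := fr') H x4' x5' x1' (x2' ▸ x3') (by rw [← x2', add_comm]; exact x6') (by omega) hc
    (hQ _ _ q2)
  refine two_hi _ _ w1.1 w1.2.1 w2.1 w2.2.1 w1.2.2 w2.2.2 ?_
  intro heq
  obtain ⟨y1, y2⟩ := pos_inj H.par.vodd x5 x5' heq
  have hfre : fr = fr' := by
    have a1 : fr = 0 ∨ fr = 1 := by omega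
    have a2 : fr' = 0 ∨ fr' = 1 := by omega
    rcases a1 with rfl | rfl <;> rcases a2 with rfl | rfl
    · rfl
    · exfalso; omega
    · exfalso; omega
    · rfl
  subst hfre
  rcases hne with h3 | ⟨_, h3⟩
  · apply h3
    exact r1_inj H.par ha ht (hTL ty m1) (hTL ty' m2) (by rw [g1]; simp) (by rw [g1']; simp)
      (by omega)
  · apply h3; omega

theorem entS_congr {N u k a N' u' k' a' : ℕ} (hA : RelA N a N' a') (hK : RelK u k u' k')
    {TL : List Ty} (hTL : ∀ ty ∈ TL, GoodTy ty) :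
    TL.filterMap (entS (decide (u = 3)) N u k a) =
      TL.filterMap (entS (decide (u' = 3)) N' u' k' a') := by
  apply List.filterMap_congr
  intro ty hty
  unfold entS
  rw [rws_congr hA hK (hTL ty hty)]
  have : decide (u = 3) = decide (u' = 3) := by
    apply decide_eq_decide.mpr
    have := hK.hu
    omega
  rw [this]

theorem entM_congr {N u k a N' u' k' a' : ℕ} (hA : RelA N a N' a') (hK : RelK u k u' k')
    {TL : List Ty} (hTL : ∀ ty ∈ TL, GoodTy ty) :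
    TL.filterMap (entM (decide (u = 3)) N u k a) =
      TL.filterMap (entM (decide (u' = 3)) N' u' k' a') := by
  apply List.filterMap_congr
  intro ty hty
  unfold entM
  rw [rws_congr hA hK (hTL ty hty)]
  have : decide (u = 3) = decide (u' = 3) := by
    apply decide_eq_decide.mpr
    have := hK.hu
    omega
  rw [this]

theorem good_TS : ∀ ty ∈ TS, GoodTy ty := by
  intro ty hty
  simp only [TS, List.mem_cons, List.not_mem_nil, or_false] at hty
  rcases hty with rfl | rfl | rfl | rfl | rfl <;> simp [GoodTy]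

theorem good_TM : ∀ ty ∈ TM, GoodTy ty := by
  intro ty hty
  simp only [TM, List.mem_cons, List.not_mem_nil, or_false] at hty
  rcases hty with rfl | rfl | rfl | rfl <;> simp [GoodTy]

theorem early_E0 {s u v : ℕ} (H : Str s u v) (t c : ℕ) (ht : t < v)
    (h1 : 2 * 2 ^ s ≤ c + 1) (h2 : c ≤ 2 * 2 ^ s + 6) : Two v (2 * (t : ℤ) + v * (c : ℤ)) := by
  have h16 := H.par.sixteen
  have hv := H.par.hv
  obtain ⟨k, a, rfl, ha⟩ : ∃ k a, t = k * 2 ^ s + a ∧ a < 2 ^ s :=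
    ⟨t / 2 ^ s, t % 2 ^ s, by rw [Nat.div_add_mod'], Nat.mod_lt _ (by positivity)⟩
  have hk : k < u := by
    by_contra hc
    have : u * 2 ^ s ≤ k * 2 ^ s := Nat.mul_le_mul_right _ (by omega)
    omega
  obtain ⟨N', a', hN', hA, p, hp, hK⟩ := reduce H.par ha hk
  have hchk : chkZN N' pairsL = true := by
    rcases hN' with rfl | rfl
    · exact chkZ16
    · exact chkZ32
  unfold chkZN at hchk
  rw [List.all_eq_true] at hchk
  have h3 := hchk p hp
  rw [List.all_eq_true] at h3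
  have h4 := h3 a' (by rw [List.mem_range]; exact hA.lt')
  unfold chkZA at h4
  rw [Bool.or_eq_true, Bool.and_eq_true, decide_eq_true_eq, decide_eq_true_eq] at h4
  rcases h4 with ⟨e1, e2⟩ | h4
  · exfalso
    obtain ⟨e3, e4⟩ := last_of_rel hA hK e1 e2
    rw [← e3] at hv
    have e5 : (k + 1) * 2 ^ s = k * 2 ^ s + 2 ^ s := by ring
    omega
  · rw [← entS_congr hA hK good_TS, ← entM_congr hA hK good_TM] at h4
    unfold chkZY at h4
    rw [List.all_eq_true] at h4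
    have h5 := h4 (c + 1 - 2 * 2 ^ s) (by rw [List.mem_range]; omega)
    rw [Bool.or_eq_true] at h5
    rcases h5 with h5 | h5
    · rcases go_sound _ _ _ _ _ _ (by simp [TS]) h5 with ⟨h6, _⟩ | h6 | ⟨h6, _⟩ | h6
      · exact Bool.noConfusion h6
      · exact two_of_S H ha ht good_TS (by omega) (by omega) (fun e i hq => hq.1) h6
      · exact Bool.noConfusion h6
      · exact two_of_S H ha ht good_TS (by omega) (by omega) (fun e i hq => hq.1) h6
    · rcases go_sound _ _ _ _ _ _ (by simp [TM]) h5 with ⟨h6, _⟩ | h6 | ⟨h6, _⟩ | h6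
      · exact Bool.noConfusion h6
      · exact two_of_M H ha ht good_TM (by omega) (by omega) (fun e i hq => hq.1) h6
      · exact Bool.noConfusion h6
      · exact two_of_M H ha ht good_TM (by omega) (by omega) (fun e i hq => hq.1) h6

end Pool.Agent.H65.Um
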