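import Pool.Agent.H65.Ul.Ulam2

/-!
# `U(4, v)` with `v + 1 = 2 ^ s * u`: cells, the strip table, and the list of known cells

A cell `(t, c)` is the position `2 * t + v * c` of the sequence of the odd terms.
-/

set_option autoImplicit false

namespace Pool.Agent.H65.Um

open Pool.Agent.H65.Ul

/-- The cell in row `t` and column `c`. -/
def cel (v : ℕ) (t c : ℤ) : Bool := XZ v (2 * t + v * c)

theorem cel_rec (v : ℕ) {t c : ℤ} (h : 2 * t + v * c ≠ 0) :
    cel v t c = E (cel v (t - 1) c) (cel v (t - 1) (c - 1)) (cel v (t - 1) (c - 2)) := by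
  unfold cel
  rw [XZ_rec v h]
  congr 2 <;> ring

theorem cel_shift (v : ℕ) (t c : ℤ) : cel v (t + v) c = cel v t (c + 2) := by
  unfold cel
  congr 1; ring

/-- Block class. -/
def cb (b : ℕ) : ℕ := if b < 4 then b else 4 + b % 2

/-- Offset class. -/
def co (o : ℕ) : ℕ := if o < 20 then o else 16 + o % 4

/-- The rows of a block class, 20 rows of 10 bits; `q` says `u = 3`. -/
def tab (q : Bool) : ℕ → ℕ
  | 0 => if q then 1218041069207851375147816937343690992857686307550454448857155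
    else 1218041069207851375147816937343690992857686883448806622240899
  | 1 => 463084940948594585336040480269901600531524323921619939376441
  | 2 => 427014582738623905874258351653001853911405343674930881905648
  | 3 => 926169880400611494045235041771892282210586203752291817782130
  | 4 => 854029163980670135120310985597745447327444090286284960990176
  | _ => 926169880400611494045235041771892901784183025289129636182754

/-- The row with offset `o` in block `b`: bit `i` is the cell in column `2 * 2 ^ s - 1 + i`,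
`i < 10`. -/
def msk (q : Bool) (b o : ℕ) : ℕ := (tab q (cb b) >>> (10 * co o)) % 1024

/-- The parameters: `N = 2 ^ s ≥ 16`, `u ≥ 3` odd, `v = N u - 1`. -/
structure Par (s u v : ℕ) : Prop where
  hs : 4 ≤ s
  hu : 3 ≤ u
  odd : u % 2 = 1
  hv : v + 1 = u * 2 ^ s

/-- Known cells with value `1`. -/
structure Str (s u v : ℕ) : Prop where
  par : Par s u v
  /-- row 0 -/
  row0 : ∀ c : ℕ, c ≤ 2 * 2 ^ s → c % 4 ≠ 1 → cel v 0 c = true
  /-- rows `k N - 1`, `2 ≤ k ≤ u` -/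
  full : ∀ k t c : ℕ, 2 ≤ k → k ≤ u → t + 1 = k * 2 ^ s → c + 2 ≤ 2 * 2 ^ s → c % 4 ≠ 3 →
    cel v t c = true
  /-- rows `k N - 2`, `2 ≤ k ≤ u` -/
  four : ∀ k t c : ℕ, 2 ≤ k → k ≤ u → t + 2 = k * 2 ^ s → c + 2 ≤ 2 * 2 ^ s → c % 4 = 0 →
    cel v t c = true
  /-- rows `2 ^ j - 1`, left part -/
  pow1 : ∀ j t c : ℕ, 2 ≤ j → j ≤ s → t + 1 = 2 ^ j → c < t → c % 4 ≠ 3 → cel v t c = true
  /-- rows `2 ^ j - 1`, right part -/
  pow2 : ∀ j t c : ℕ, 2 ≤ j → j ≤ s → t + 1 = 2 ^ j → t ≤ c → c + 3 ≤ 2 * 2 ^ j → c % 4 ≠ 2 →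
    cel v t c = true
  /-- rows `2 ^ j - 2`, right part -/
  pre : ∀ j t c : ℕ, 2 ≤ j → j ≤ s → t + 2 = 2 ^ j → t + 1 ≤ c → c + 3 ≤ 2 * 2 ^ j → c % 4 = 3 →
    cel v t c = true
  /-- column 0 -/
  col0 : ∀ t : ℕ, t ≤ v → cel v t 0 = true
  /-- column 1 -/
  col1 : ∀ t : ℕ, t ≤ v → t % 2 = 1 → cel v t 1 = true
  /-- column 2 -/
  col2 : ∀ t : ℕ, 3 ≤ t → t ≤ v → t % 2 = 1 → cel v t 2 = true
  /-- the strip of the columns `2 N - 1, ..., 2 N + 8` -/
  strip : ∀ b o i : ℕ, o < 2 ^ s → b * 2 ^ s + o < v → i < 10 →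
    (msk (decide (u = 3)) b o).testBit i = true →
    cel v ((b * 2 ^ s + o : ℕ) : ℤ) (2 * 2 ^ s - 1 + i) = true

/-- Two pairs, both in the lower half. -/
theorem two_lo {v : ℕ} {K : ℤ} (a b : ℤ) (h1 : XZ v a = true) (h2 : XZ v (K - a) = true)
    (h3 : XZ v b = true) (h4 : XZ v (K - b) = true) (h5 : 2 * a < K) (h6 : 2 * b < K)
    (h7 : a ≠ b) : Two v K :=
  ⟨a, b, h1, h2, h3, h4, by omega, by omega, h7, by omega⟩

/-- Two pairs, both in the upper half. -/
theorem two_hi {v : ℕ} {K : ℤ} (a b : ℤ) (h1 : XZ v a = true) (h2 : XZ v (K - a) = true)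
    (h3 : XZ v b = true) (h4 : XZ v (K - b) = true) (h5 : K < 2 * a) (h6 : K < 2 * b)
    (h7 : a ≠ b) : Two v K :=
  ⟨a, b, h1, h2, h3, h4, by omega, by omega, h7, by omega⟩

/-- Two pairs for an odd sum, first entries of the same parity. -/
theorem two_par {v : ℕ} {K : ℤ} (a b : ℤ) (h1 : XZ v a = true) (h2 : XZ v (K - a) = true)
    (h3 : XZ v b = true) (h4 : XZ v (K - b) = true) (h5 : K % 2 = 1) (h6 : a % 2 = b % 2)
    (h7 : a ≠ b) : Two v K :=
  ⟨a, b, h1, h2, h3, h4, by omega, by omega, h7, by omega⟩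

end Pool.Agent.H65.Um
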