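import Pool.Agent.H65.Um.Defs

/-!
# Early even positions, bulk columns (module M2)
-/

set_option autoImplicit false

namespace Pool.Agent.H65.Um

open Pool.Agent.H65.Ul

namespace EB

/-- a pair of terms with sum `K` -/
def P (v : ℕ) (K a : ℤ) : Prop := XZ v a = true ∧ XZ v (K - a) = true

theorem P.of {v : ℕ} {K a : ℤ} (t1 c1 t2 c2 : ℤ) (h1 : cel v t1 c1 = true)
    (h2 : cel v t2 c2 = true) (ha : 2 * t1 + v * c1 = a) (hK : 2 * t2 + v * c2 = K - a) :
    P v K a := by
  refine ⟨?_, ?_⟩
  · rw [← ha]; exact h1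
  · rw [← hK]; exact h2

theorem two_of_P {v : ℕ} {K a b : ℤ} (ha : P v K a) (hb : P v K b) (h1 : 2 * a ≠ K)
    (h2 : 2 * b ≠ K) (h3 : a ≠ b) (h4 : a + b ≠ K) : Two v K :=
  ⟨a, b, ha.1, ha.2, hb.1, hb.2, h1, h2, h3, by omega⟩

/-- two of three pairs -/
theorem two_of_three {v : ℕ} {K x : ℤ} (hv : 0 < v) (m r : ℕ) (h0 : m % 4 ≠ r → P v K x)
    (h1 : (m + 3) % 4 ≠ r → P v K (x + v)) (h2 : (m + 2) % 4 ≠ r → P v K (x + 2 * v))
    (hne : ∀ k : ℤ, 0 ≤ k → k ≤ 4 → 2 * x + v * k ≠ K) : Two v K := by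
  have n0 := hne 0 (by norm_num) (by norm_num)
  have n1 := hne 1 (by norm_num) (by norm_num)
  have n2 := hne 2 (by norm_num) (by norm_num)
  have n3 := hne 3 (by norm_num) (by norm_num)
  have n4 := hne 4 (by norm_num) (by norm_num)
  by_cases c0 : m % 4 = r
  · exact two_of_P (h1 (by omega)) (h2 (by omega)) (by intro h; apply n2; linarith)
      (by intro h; apply n4; linarith) (by omega) (by intro h; apply n3; linarith)
  · by_cases c1 : (m + 3) % 4 = r
    · exact two_of_P (h0 c0) (h2 (by omega)) (by intro h; apply n0; linarith)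
        (by intro h; apply n4; linarith) (by omega) (by intro h; apply n2; linarith)
    · exact two_of_P (h0 c0) (h1 c1) (by intro h; apply n0; linarith)
        (by intro h; apply n2; linarith) (by omega) (by intro h; apply n1; linarith)

theorem ne_mul {v d m : ℤ} (hodd : v % 2 = 1) (hd0 : 0 < d) (hdv : d < v) : 2 * d ≠ v * m := by
  intro h
  rcases lt_trichotomy m 1 with hm | hm | hm
  · have : v * m ≤ 0 := mul_nonpos_of_nonneg_of_nonpos (by omega) (by omega)
    omega
  · subst hm; omega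
  · have : v * 2 ≤ v * m := mul_le_mul_of_nonneg_left (by omega) (by omega)
    omega

theorem ne_mul' {v d m : ℤ} (hodd : v % 2 = 1) (hv : 0 < v) (hdv : d < v) (hm : 1 ≤ m) :
    2 * d ≠ v * m := by
  intro h
  rcases eq_or_lt_of_le hm with hm | hm
  · rw [← hm] at h; omega
  · have : v * 2 ≤ v * m := mul_le_mul_of_nonneg_left (by omega) (by omega)
    omega

/-- the basic facts about the parameters -/
theorem par_facts {s u v : ℕ} (h : Par s u v) : 16 ≤ 2 ^ s ∧ 2 ^ s % 16 = 0 ∧ v % 2 = 1 ∧
    3 * 2 ^ s ≤ v + 1 ∧ v + 1 = u * 2 ^ s := by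
  have h1 : (16 : ℕ) ≤ 2 ^ s := by
    calc (16 : ℕ) = 2 ^ 4 := by norm_num
      _ ≤ 2 ^ s := Nat.pow_le_pow_right (by norm_num) h.hs
  have h2 : 2 ^ s % 16 = 0 := by
    obtain ⟨k, hk⟩ := Nat.exists_eq_add_of_le h.hs
    rw [hk, pow_add]; norm_num
  have h3 : u * 2 ^ s % 2 = 0 := by
    have : 2 ^ s % 2 = 0 := by omega
    rw [Nat.mul_mod, this]; simp
  have h4 := h.hv
  have h5 : 3 * 2 ^ s ≤ u * 2 ^ s := Nat.mul_le_mul_right _ h.hu
  exact ⟨h1, h2, by omega, by omega, h4⟩

/-- row `N - 1`, any three consecutive columns (as a rule for one column) -/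
theorem rowN {s u v : ℕ} (H : Str s u v) {t c : ℕ} (ht : t + 1 = 2 ^ s) (hc : c + 2 ≤ 2 * 2 ^ s)
    (h : (c < t ∧ c % 4 ≠ 3) ∨ (t ≤ c ∧ c % 4 ≠ 2)) : cel v t c = true := by
  obtain ⟨h16, hmod, -, -, -⟩ := par_facts H.par
  have hs := H.par.hs
  rcases h with ⟨h1, h2⟩ | ⟨h1, h2⟩
  · exact H.pow1 s t c (by omega) le_rfl ht h1 h2
  · exact H.pow2 s t c (by omega) le_rfl ht h1 (by omega) h2

/-! ## Part A: columns `c ≤ 2 N - 2` -/

theorem partA {s u v : ℕ} (H : Str s u v) (t c : ℕ) (ht : t < v) (hK : 2 * v + 3 ≤ 2 * t + v * c)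
    (hc : c + 2 ≤ 2 * 2 ^ s) : Two v (2 * (t : ℤ) + v * (c : ℤ)) := by
  obtain ⟨h16, hmod, hodd, hv3, hvN⟩ := par_facts H.par
  have hs := H.par.hs
  have hu := H.par.hu
  have hvpos : 0 < v := by omega
  have hoddZ : (v : ℤ) % 2 = 1 := by omega
  rcases Nat.lt_or_ge c 3 with hc3 | hc3
  · -- columns 0, 1, 2
    interval_cases c
    · omega
    · -- c = 1
      have h1 : cel v ((t - 1 : ℕ) : ℤ) 0 = true := H.col0 _ (by omega)
      have h2 : cel v ((t - 3 : ℕ) : ℤ) 0 = true := H.col0 _ (by omega)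
      have h3 : cel v ((1 : ℕ) : ℤ) 1 = true := H.col1 1 (by omega) (by norm_num)
      have h4 : cel v ((3 : ℕ) : ℤ) 1 = true := H.col1 3 (by omega) (by norm_num)
      exact two_of_P (a := 2 * ((t - 1 : ℕ) : ℤ)) (b := 2 * ((t - 3 : ℕ) : ℤ))
        (P.of _ _ _ _ h1 h3 (by ring) (by push_cast; omega))
        (P.of _ _ _ _ h2 h4 (by ring) (by push_cast; omega))
        (by push_cast; omega) (by push_cast; omega) (by omega) (by push_cast; omega)
    · -- c = 2
      rcases Nat.lt_or_ge (t + 2) v with ht2 | ht2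
      · have h1 : cel v ((v : ℕ) : ℤ) 0 = true := H.col0 _ (by omega)
        have h2 : cel v ((v - 1 : ℕ) : ℤ) 0 = true := H.col0 _ (by omega)
        have h3 : cel v ((t : ℕ) : ℤ) 0 = true := H.col0 _ (by omega)
        have h4 : cel v ((t + 1 : ℕ) : ℤ) 0 = true := H.col0 _ (by omega)
        exact two_of_P (a := 2 * ((v : ℕ) : ℤ)) (b := 2 * ((v - 1 : ℕ) : ℤ))
          (P.of _ _ _ _ h1 h3 (by ring) (by push_cast; omega))
          (P.of _ _ _ _ h2 h4 (by ring) (by push_cast; omega))
          (by push_cast; omega) (by push_cast; omega) (by omega) (by push_cast; omega)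
      · rcases Nat.lt_or_ge (t + 1) v with ht3 | ht3
        · have h1 : cel v ((t - 3 : ℕ) : ℤ) 0 = true := H.col0 _ (by omega)
          have h2 : cel v ((t - 5 : ℕ) : ℤ) 0 = true := H.col0 _ (by omega)
          have h3 : cel v ((3 : ℕ) : ℤ) 2 = true := H.col2 3 (by omega) (by omega) (by norm_num)
          have h4 : cel v ((5 : ℕ) : ℤ) 2 = true := H.col2 5 (by omega) (by omega) (by norm_num)
          exact two_of_P (a := 2 * ((t - 3 : ℕ) : ℤ)) (b := 2 * ((t - 5 : ℕ) : ℤ))
            (P.of _ _ _ _ h1 h3 (by ring) (by push_cast; omega))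
            (P.of _ _ _ _ h2 h4 (by ring) (by push_cast; omega))
            (by push_cast; omega) (by push_cast; omega) (by omega) (by push_cast; omega)
        · have h1 : cel v ((1 : ℕ) : ℤ) 1 = true := H.col1 1 (by omega) (by norm_num)
          have h2 : cel v ((3 : ℕ) : ℤ) 1 = true := H.col1 3 (by omega) (by norm_num)
          have h3 : cel v ((t - 1 : ℕ) : ℤ) 1 = true := H.col1 _ (by omega) (by omega)
          have h4 : cel v ((t - 3 : ℕ) : ℤ) 1 = true := H.col1 _ (by omega) (by omega)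
          exact two_of_P (a := 2 + (v : ℤ)) (b := 6 + (v : ℤ))
            (P.of _ _ _ _ h1 h3 (by push_cast; ring) (by push_cast; omega))
            (P.of _ _ _ _ h2 h4 (by push_cast; ring) (by push_cast; omega))
            (by push_cast; omega) (by push_cast; omega) (by omega) (by push_cast; omega)
  · -- columns at least 3
    have hcv : (v : ℤ) * 3 ≤ v * c := mul_le_mul_of_nonneg_left (by omega) (by omega)
    by_cases hodd3 : t % 2 = 1 ∧ 3 ≤ t
    · -- odd rows: columns 0, 1, 2 against row 0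
      obtain ⟨hto, ht3⟩ := hodd3
      refine two_of_three (x := 2 * (t : ℤ)) hvpos c 1 (fun h => ?_) (fun h => ?_) (fun h => ?_) ?_
      · have h1 : cel v ((t : ℕ) : ℤ) 0 = true := H.col0 _ (by omega)
        have h2 : cel v 0 ((c : ℕ) : ℤ) = true := H.row0 _ (by omega) h
        exact P.of _ _ _ _ h1 h2 (by ring) (by ring)
      · have h1 : cel v ((t : ℕ) : ℤ) 1 = true := H.col1 _ (by omega) hto
        have h2 : cel v 0 ((c - 1 : ℕ) : ℤ) = true := H.row0 _ (by omega) (by omega)
        exact P.of _ _ _ _ h1 h2 (by ring) (by rw [Nat.cast_sub (by omega)]; push_cast; ring)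
      · have h1 : cel v ((t : ℕ) : ℤ) 2 = true := H.col2 _ ht3 (by omega) hto
        have h2 : cel v 0 ((c - 2 : ℕ) : ℤ) = true := H.row0 _ (by omega) (by omega)
        exact P.of _ _ _ _ h1 h2 (by ring) (by rw [Nat.cast_sub (by omega)]; push_cast; ring)
      · intro k hk0 hk4 h
        exact ne_mul (v := v) (d := t) (m := c - k) hoddZ (by omega) (by omega) (by linarith)
    · by_cases hc1 : c % 4 = 1
      · -- c = 1 mod 4, c at least 5
        have hc5 : 5 ≤ c := by omega
        have hcv5 : (v : ℤ) * 5 ≤ v * c := mul_le_mul_of_nonneg_left (by omega) (by omega)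
        have hpar : ((v : ℤ) * c) % 2 = 1 := by
          rw [Int.mul_emod, hoddZ]; omega
        by_cases ht1 : t = 1
        · subst ht1
          have h1 : cel v ((1 : ℕ) : ℤ) 1 = true := H.col1 1 (by omega) (by norm_num)
          have h2 : cel v 0 ((c - 1 : ℕ) : ℤ) = true := H.row0 _ (by omega) (by omega)
          have h3 : cel v ((2 : ℕ) : ℤ) ((3 : ℕ) : ℤ) = true :=
            H.pre 2 2 3 le_rfl (by omega) (by norm_num) (by norm_num) (by norm_num) (by norm_num)
          have h4 : cel v ((v - 1 : ℕ) : ℤ) ((c - 5 : ℕ) : ℤ) = true :=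
            H.four u (v - 1) (c - 5) (by omega) le_rfl (by omega) (by omega) (by omega)
          exact two_of_P (a := 2 + (v : ℤ)) (b := 4 + 3 * (v : ℤ))
            (P.of _ _ _ _ h1 h2 (by push_cast; ring)
              (by rw [Nat.cast_sub (by omega)]; push_cast; ring))
            (P.of _ _ _ _ h3 h4 (by push_cast; ring)
              (by rw [Nat.cast_sub (by omega), Nat.cast_sub (by omega)]; push_cast; ring))
            (by push_cast; omega) (by push_cast; omega) (by omega) (by push_cast; omega)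
        · have hte : t % 2 = 0 := by omega
          -- the dyadic block of `c`
          obtain ⟨j, hj2, hjs, hm1, hm2⟩ : ∃ j, 2 ≤ j ∧ j ≤ s ∧ 2 ^ j ≤ c ∧ c < 2 * 2 ^ j := by
            refine ⟨Nat.log 2 c, ?_, ?_, Nat.pow_log_le_self 2 (by omega), ?_⟩
            · exact (Nat.le_log_iff_pow_le (by norm_num) (by omega)).2 (by omega)
            · have : Nat.log 2 c < s + 1 := (Nat.log_lt_iff_lt_pow (by norm_num) (by omega)).2
                (by rw [pow_succ]; omega)
              omega
            · have := Nat.lt_pow_succ_log_self (b := 2) (by norm_num) c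
              rw [pow_succ] at this
              omega
          have hm4 : 2 ^ j % 4 = 0 := by
            obtain ⟨k, hk⟩ := Nat.exists_eq_add_of_le hj2
            rw [hk, pow_add]; norm_num
          have hmN : 2 ^ j ≤ 2 ^ s := Nat.pow_le_pow_right (by norm_num) hjs
          have hm3 : 4 ≤ 2 ^ j := by
            calc (4 : ℕ) = 2 ^ 2 := by norm_num
              _ ≤ 2 ^ j := Nat.pow_le_pow_right (by norm_num) hj2
          rcases Nat.lt_or_ge t (2 ^ j) with htm | htm
          · have h1 : cel v ((t + v + 1 - 2 ^ j : ℕ) : ℤ) 0 = true := H.col0 _ (by omega)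
            have h2 : cel v ((2 ^ j - 1 : ℕ) : ℤ) ((c - 2 : ℕ) : ℤ) = true :=
              H.pow2 j _ _ hj2 hjs (by omega) (by omega) (by omega) (by omega)
            have h3 : cel v ((t + v + 2 - 2 ^ j : ℕ) : ℤ) 0 = true := H.col0 _ (by omega)
            have h4 : cel v ((2 ^ j - 2 : ℕ) : ℤ) ((c - 2 : ℕ) : ℤ) = true :=
              H.pre j _ _ hj2 hjs (by omega) (by omega) (by omega) (by omega)
            exact two_of_P (a := 2 * ((t + v + 1 - 2 ^ j : ℕ) : ℤ))
              (b := 2 * ((t + v + 2 - 2 ^ j : ℕ) : ℤ))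
              (P.of _ _ _ _ h1 h2 (by ring)
                (by rw [Nat.cast_sub (by omega), Nat.cast_sub (by omega),
                      Nat.cast_sub (by omega)]; push_cast; ring))
              (P.of _ _ _ _ h3 h4 (by ring)
                (by rw [Nat.cast_sub (by omega), Nat.cast_sub (by omega),
                      Nat.cast_sub (by omega)]; push_cast; ring))
              (by omega) (by omega) (by omega) (by omega)
          · have h1 : cel v ((t + 1 - 2 ^ j : ℕ) : ℤ) 0 = true := H.col0 _ (by omega)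
            have h2 : cel v ((2 ^ j - 1 : ℕ) : ℤ) ((c : ℕ) : ℤ) = true :=
              H.pow2 j _ _ hj2 hjs (by omega) (by omega) (by omega) (by omega)
            have h3 : cel v ((t + 1 - 2 ^ j : ℕ) : ℤ) 1 = true :=
              H.col1 _ (by omega) (by omega)
            have h4 : cel v ((2 ^ j - 1 : ℕ) : ℤ) ((c - 1 : ℕ) : ℤ) = true :=
              H.pow2 j _ _ hj2 hjs (by omega) (by omega) (by omega) (by omega)
            have hx : ((t + 1 - 2 ^ j : ℕ) : ℤ) = t + 1 - 2 ^ j := by
              rw [Nat.cast_sub (by omega)]; push_cast; ring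
            have hmZ : (4 : ℤ) ≤ 2 ^ j := by exact_mod_cast hm3
            refine two_of_P (a := 2 * ((t + 1 - 2 ^ j : ℕ) : ℤ))
              (b := 2 * ((t + 1 - 2 ^ j : ℕ) : ℤ) + v)
              (P.of _ _ _ _ h1 h2 (by ring)
                (by rw [Nat.cast_sub (by omega), Nat.cast_sub (by omega)]; push_cast; ring))
              (P.of _ _ _ _ h3 h4 (by ring)
                (by rw [Nat.cast_sub (by omega), Nat.cast_sub (by omega),
                      Nat.cast_sub (by omega)]; push_cast; ring))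
              (by omega) (by omega) (by omega) ?_
            intro h
            refine ne_mul' (v := v) (d := t + 2 - 2 * 2 ^ j) (m := c - 1) hoddZ (by omega)
              (by omega) (by omega) ?_
            rw [hx] at h
            linarith
      · rcases Nat.lt_or_ge v (t + 2 ^ s) with htN | htN
        · -- row `N - 1`
          have hte : t % 2 = 0 := by omega
          have ht2N : 2 * 2 ^ s ≤ t := by omega
          have hx : ((t + 1 - 2 ^ s : ℕ) : ℤ) = t + 1 - 2 ^ s := by
            rw [Nat.cast_sub (by omega)]; push_cast; ring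
          have hN : ((2 ^ s - 1 : ℕ) : ℤ) = 2 ^ s - 1 := by
            rw [Nat.cast_sub (by omega)]; push_cast; ring
          have hNZ : (16 : ℤ) ≤ 2 ^ s := by exact_mod_cast h16
          have ht2Z : (2 : ℤ) * 2 ^ s ≤ t := by exact_mod_cast ht2N
          have key : ∀ r : ℕ, (∀ i : ℕ, i ≤ 2 → (c - i) % 4 ≠ r →
              cel v ((2 ^ s - 1 : ℕ) : ℤ) ((c - i : ℕ) : ℤ) = true) →
              Two v (2 * (t : ℤ) + v * (c : ℤ)) := by
            intro r hr
            refine two_of_three (x := 2 * ((t + 1 - 2 ^ s : ℕ) : ℤ)) hvpos c r (fun h => ?_)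
              (fun h => ?_) (fun h => ?_) ?_
            · have h1 : cel v ((t + 1 - 2 ^ s : ℕ) : ℤ) 0 = true := H.col0 _ (by omega)
              have h2 := hr 0 (by norm_num) (by omega)
              rw [Nat.sub_zero] at h2
              exact P.of _ _ _ _ h1 h2 (by ring)
                (by rw [hx, hN]; ring)
            · have h1 : cel v ((t + 1 - 2 ^ s : ℕ) : ℤ) 1 = true :=
                H.col1 _ (by omega) (by omega)
              have h2 := hr 1 (by norm_num) (by omega)
              exact P.of _ _ _ _ h1 h2 (by ring)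
                (by rw [hx, hN, Nat.cast_sub (by omega)]; push_cast; ring)
            · have h1 : cel v ((t + 1 - 2 ^ s : ℕ) : ℤ) 2 = true :=
                H.col2 _ (by omega) (by omega) (by omega)
              have h2 := hr 2 (by norm_num) (by omega)
              exact P.of _ _ _ _ h1 h2 (by ring)
                (by rw [hx, hN, Nat.cast_sub (by omega)]; push_cast; ring)
            · intro k hk0 hk4 h
              refine ne_mul (v := v) (d := t + 2 - 2 * 2 ^ s) (m := c - k) hoddZ (by omega)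
                (by omega) ?_
              rw [hx] at h
              linarith
          rcases Nat.lt_or_ge (c + 1) (2 ^ s) with hcN | hcN
          · refine key 3 fun i hi h => rowN H (by omega) (by omega) (Or.inl ⟨by omega, h⟩)
          · refine key 2 fun i hi h => ?_
            rcases Nat.lt_or_ge (c - i) (2 ^ s - 1) with hci | hci
            · exact rowN H (by omega) (by omega) (Or.inl ⟨hci, by omega⟩)
            · exact rowN H (by omega) (by omega) (Or.inr ⟨hci, h⟩)
        · have hr : (v - 2 ^ s) + 1 = (u - 1) * 2 ^ s := by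
            rw [Nat.sub_mul, one_mul, ← hvN]; omega
          have h1 : cel v ((t : ℕ) : ℤ) 0 = true := H.col0 _ (by omega)
          have h2 : cel v 0 ((c : ℕ) : ℤ) = true := H.row0 _ (by omega) hc1
          have h3 : cel v ((t + 2 ^ s : ℕ) : ℤ) 0 = true := H.col0 _ (by omega)
          have h4 : cel v ((v - 2 ^ s : ℕ) : ℤ) ((c - 2 : ℕ) : ℤ) = true :=
            H.full (u - 1) _ _ (by omega) (by omega) hr (by omega) (by omega)
          exact two_of_P (a := 2 * (t : ℤ)) (b := 2 * ((t + 2 ^ s : ℕ) : ℤ))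
            (P.of _ _ _ _ h1 h2 (by ring) (by ring))
            (P.of _ _ _ _ h3 h4 (by ring)
              (by rw [Nat.cast_sub (by omega), Nat.cast_sub (by omega)]; push_cast; ring))
            (by omega) (by omega) (by omega) (by omega)

/-! ## Part B: columns `2 N + 7 ≤ c ≤ 4 N - 3` -/

theorem co_lt (o : ℕ) : co o < 20 := by unfold co; split <;> omega

theorem co_par (o : ℕ) : co o % 2 = o % 2 := by unfold co; split <;> omega

theorem co_two {o : ℕ} (h : 2 ≤ o) : 2 ≤ co o := by unfold co; split <;> omega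

theorem chkA0 : ∀ q : Bool, ∀ o < 20, o % 2 = 0 → 2 ≤ o → ∀ i < 3,
    ((tab q 0 >>> (10 * o)) % 1024).testBit (3 + i) = true := by decide +kernel

theorem chkA1 : ∀ q : Bool, ∀ i < 3,
    ((tab q 1 >>> (10 * 0)) % 1024).testBit (3 + i) = true := by decide +kernel

theorem chkB : ∀ q : Bool, ∀ o < 20, o % 2 = 1 → ∀ i < 3,
    ((tab q 1 >>> (10 * o)) % 1024).testBit i = true := by decide +kernel

theorem chkC : ∀ q : Bool, ∀ o < 20, o % 2 = 0 → ∀ i < 3,
    ((tab q 2 >>> (10 * o)) % 1024).testBit (4 + i) = true := by decide +kernel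

theorem strip' {s u v : ℕ} (H : Str s u v) {b o i t : ℕ} {c : ℤ} (ho : o < 2 ^ s)
    (ht : b * 2 ^ s + o = t) (htv : t < v) (hi : i < 10)
    (hm : (msk (decide (u = 3)) b o).testBit i = true) (hc : 2 * 2 ^ s - 1 + (i : ℤ) = c) :
    cel v t c = true := by
  subst hc
  rw [← ht]
  exact H.strip b o i ho (by omega) hi hm

/-- triple (a) -/
theorem tripA {s u v : ℕ} (H : Str s u v) {t : ℕ} (h2 : t % 2 = 0) (h3 : 2 ≤ t)
    (h4 : t ≤ 2 ^ s) (i : ℕ) (hi : i ≤ 2) :
    cel v t ((2 * 2 ^ s + 2 + i : ℕ) : ℤ) = true := by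
  obtain ⟨h16, hmod, hodd, hv3, hvN⟩ := par_facts H.par
  rcases Nat.lt_or_ge t (2 ^ s) with h | h
  · refine strip' H (b := 0) (o := t) (i := 3 + i) h (by omega) (by omega) (by omega) ?_
      (by push_cast; ring)
    exact chkA0 _ _ (co_lt t) (by rw [co_par]; exact h2) (co_two h3) i (by omega)
  · refine strip' H (b := 1) (o := 0) (i := 3 + i) (by omega) (by omega) (by omega) (by omega) ?_
      (by push_cast; ring)
    exact chkA1 _ i (by omega)

/-- triple (b) -/
theorem tripB {s u v : ℕ} (H : Str s u v) {a : ℕ} (h2 : a % 2 = 1) (h4 : a < 2 ^ s) (i : ℕ)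
    (hi : i ≤ 2) : cel v ((2 ^ s + a : ℕ) : ℤ) ((2 * 2 ^ s - 1 + i : ℕ) : ℤ) = true := by
  obtain ⟨h16, hmod, hodd, hv3, hvN⟩ := par_facts H.par
  refine strip' H (b := 1) (o := a) (i := i) h4 (by omega) (by omega) (by omega) ?_ ?_
  · exact chkB _ _ (co_lt a) (by rw [co_par]; exact h2) i (by omega)
  · rw [Nat.cast_add, Nat.cast_sub (by omega)]; push_cast; ring

/-- triple (c) -/
theorem tripC {s u v : ℕ} (H : Str s u v) {a : ℕ} (h2 : a % 2 = 0) (h4 : a < 2 ^ s) (i : ℕ)
    (hi : i ≤ 2) : cel v ((2 * 2 ^ s + a : ℕ) : ℤ) ((2 * 2 ^ s + 3 + i : ℕ) : ℤ) = true := by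
  obtain ⟨h16, hmod, hodd, hv3, hvN⟩ := par_facts H.par
  refine strip' H (b := 2) (o := a) (i := 4 + i) h4 (by omega) (by omega) (by omega) ?_
    (by push_cast; ring)
  exact chkC _ _ (co_lt a) (by rw [co_par]; exact h2) i (by omega)

/-- three consecutive cells of row `t1` against a row `T` -/
theorem triple {v : ℕ} (hodd : (v : ℤ) % 2 = 1) (hv : 0 < v) {K : ℤ} {t1 T b cc r : ℕ}
    (hK : K = 2 * ((t1 : ℤ) + T) + v * ((b : ℤ) + cc)) (hTv : T < v + t1) (hb : cc < b)
    (hcc : 2 ≤ cc) (h1 : ∀ i : ℕ, i ≤ 2 → cel v t1 ((b + i : ℕ) : ℤ) = true)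
    (h2 : ∀ i : ℕ, i ≤ 2 → (cc - i) % 4 ≠ r → cel v T ((cc - i : ℕ) : ℤ) = true) : Two v K := by
  refine two_of_three (x := 2 * (t1 : ℤ) + v * b) hv cc r (fun h => ?_) (fun h => ?_)
    (fun h => ?_) ?_
  · refine P.of _ _ _ _ (h1 0 (by norm_num)) (h2 0 (by norm_num) (by simpa using h)) ?_ ?_
    · push_cast; ring
    · rw [hK, Nat.sub_zero]; ring
  · refine P.of _ _ _ _ (h1 1 (by norm_num)) (h2 1 (by norm_num) (by omega)) ?_ ?_
    · push_cast; ring
    · rw [hK, Nat.cast_sub (by omega)]; push_cast; ring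
  · refine P.of _ _ _ _ (h1 2 (by norm_num)) (h2 2 (by norm_num) (by omega)) ?_ ?_
    · push_cast; ring
    · rw [hK, Nat.cast_sub (by omega)]; push_cast; ring
  · intro k hk0 hk4 h
    refine ne_mul' (v := v) (d := T - t1) (m := b + k - cc) hodd (by omega) (by omega)
      (by omega) ?_
    rw [hK] at h
    linarith

theorem partB {s u v : ℕ} (H : Str s u v) (t c : ℕ) (ht : t < v) (hc1 : 2 * 2 ^ s + 7 ≤ c)
    (hc2 : c + 3 ≤ 4 * 2 ^ s) : Two v (2 * (t : ℤ) + v * (c : ℤ)) := by
  obtain ⟨h16, hmod, hodd, hv3, hvN⟩ := par_facts H.par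
  have hu := H.par.hu
  have hvpos : 0 < v := by omega
  have hoddZ : (v : ℤ) % 2 = 1 := by omega
  have hr : (v - 2 ^ s) + 1 = (u - 1) * 2 ^ s := by
    rw [Nat.sub_mul, one_mul, ← hvN]; omega
  -- row `N - 1` as a row `T`
  have hrowN : ∀ (K : ℤ) (t1 T b cc : ℕ), T + 1 = 2 ^ s →
      K = 2 * ((t1 : ℤ) + T) + v * ((b : ℤ) + cc) → cc < b → 2 ≤ cc → cc + 2 ≤ 2 * 2 ^ s →
      (∀ i : ℕ, i ≤ 2 → cel v t1 ((b + i : ℕ) : ℤ) = true) → Two v K := by
    intro K t1 T b cc hT hK hb h2 h3 h1
    rcases Nat.lt_or_ge (cc + 1) (2 ^ s) with hcN | hcN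
    · exact triple (r := 3) hoddZ hvpos hK (by omega) hb h2 h1
        (fun i hi h => rowN H hT (by omega) (Or.inl ⟨by omega, h⟩))
    · refine triple (r := 2) hoddZ hvpos hK (by omega) hb h2 h1 (fun i hi h => ?_)
      rcases Nat.lt_or_ge (cc - i) T with hci | hci
      · exact rowN H hT (by omega) (Or.inl ⟨hci, by omega⟩)
      · exact rowN H hT (by omega) (Or.inr ⟨hci, h⟩)
  obtain ⟨k, a, hta, haN⟩ : ∃ k a : ℕ, k * 2 ^ s + a = t ∧ a < 2 ^ s :=
    ⟨t / 2 ^ s, t % 2 ^ s, by rw [mul_comm]; exact Nat.div_add_mod _ _,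
      Nat.mod_lt _ (by omega)⟩
  have hku : k < u := by
    by_contra hcon
    have : u * 2 ^ s ≤ k * 2 ^ s := Nat.mul_le_mul_right _ (by omega)
    omega
  rcases Nat.lt_or_ge k 2 with hk2 | hk2
  · interval_cases k
    · -- block 0
      rcases Nat.even_or_odd' a with ⟨x, hx | hx⟩
      · rcases Nat.eq_zero_or_pos a with ha0 | ha0
        · exact triple (t1 := 2 ^ s) (T := v - 2 ^ s) (b := 2 * 2 ^ s + 2) (cc := c - 2 * 2 ^ s - 4)
            (r := 3) hoddZ hvpos
            (by rw [Nat.cast_sub (by omega), Nat.cast_sub (by omega), Nat.cast_sub (by omega),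
                  ← hta, ha0]; push_cast; ring) (by omega) (by omega) (by omega)
            (tripA H (by omega) (by omega) le_rfl)
            (fun i hi h => H.full (u - 1) _ _ (by omega) (by omega) hr (by omega) h)
        · exact triple (t1 := t) (T := 0) (b := 2 * 2 ^ s + 2) (cc := c - 2 * 2 ^ s - 2)
            (r := 1) hoddZ hvpos
            (by rw [Nat.cast_sub (by omega), Nat.cast_sub (by omega)]; push_cast; ring)
            (by omega) (by omega) (by omega)
            (tripA H (by omega) (by omega) (by omega))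
            (fun i hi h => H.row0 _ (by omega) h)
      · exact triple (t1 := 2 ^ s + a) (T := v - 2 ^ s) (b := 2 * 2 ^ s - 1)
          (cc := c - 2 * 2 ^ s - 1) (r := 3) hoddZ hvpos
          (by rw [Nat.cast_sub (by omega), Nat.cast_sub (by omega), Nat.cast_sub (by omega),
                Nat.cast_sub (by omega), ← hta]; push_cast; ring) (by omega) (by omega) (by omega)
          (tripB H (by omega) (by omega))
          (fun i hi h => H.full (u - 1) _ _ (by omega) (by omega) hr (by omega) h)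
    · -- block 1
      rcases Nat.even_or_odd' a with ⟨x, hx | hx⟩
      · exact triple (t1 := 2 * 2 ^ s + a) (T := v - 2 ^ s) (b := 2 * 2 ^ s + 3)
          (cc := c - 2 * 2 ^ s - 5) (r := 3) hoddZ hvpos
          (by rw [Nat.cast_sub (by omega), Nat.cast_sub (by omega), Nat.cast_sub (by omega),
                ← hta]; push_cast; ring) (by omega) (by omega) (by omega)
          (tripC H (by omega) (by omega))
          (fun i hi h => H.full (u - 1) _ _ (by omega) (by omega) hr (by omega) h)
      · exact hrowN _ (a + 1) (2 ^ s - 1) (2 * 2 ^ s + 2) (c - 2 * 2 ^ s - 2) (by omega)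
          (by rw [Nat.cast_sub (by omega), Nat.cast_sub (by omega), Nat.cast_sub (by omega),
                ← hta]; push_cast; ring) (by omega) (by omega) (by omega)
          (tripA H (by omega) (by omega) (by omega))
  · rcases Nat.even_or_odd' a with ⟨x, hx | hx⟩
    · rcases Nat.lt_or_ge 2 k with hk3 | hk3
      · have hTk : (k - 1) * 2 ^ s - 1 + 1 = (k - 1) * 2 ^ s := by
          have : 1 * 2 ^ s ≤ (k - 1) * 2 ^ s := Nat.mul_le_mul_right _ (by omega)
          omega
        have hk1 : (k - 1) * 2 ^ s + 2 ^ s = k * 2 ^ s := by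
          rw [← Nat.succ_mul]; congr 1; omega
        refine triple (t1 := 2 ^ s + (a + 1)) (T := (k - 1) * 2 ^ s - 1) (b := 2 * 2 ^ s - 1)
          (cc := c - (2 * 2 ^ s - 1)) (r := 3) hoddZ hvpos ?_ (by omega) (by omega) (by omega)
          (tripB H (by omega) (by omega))
          (fun i hi h => H.full (k - 1) _ _ (by omega) (by omega) hTk (by omega) h)
        have e1 : 2 ^ s + (a + 1) + ((k - 1) * 2 ^ s - 1) = t := by omega
        have e2 : 2 * 2 ^ s - 1 + (c - (2 * 2 ^ s - 1)) = c := by omega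
        rw [← Nat.cast_add, ← Nat.cast_add, e1, e2]
      · have hk' : k = 2 := by omega
        subst hk'
        refine hrowN _ (2 ^ s + (a + 1)) (2 ^ s - 1) (2 * 2 ^ s - 1) (c - (2 * 2 ^ s - 1))
          (by omega) ?_ (by omega) (by omega) (by omega) (tripB H (by omega) (by omega))
        have e1 : 2 ^ s + (a + 1) + (2 ^ s - 1) = t := by omega
        have e2 : 2 * 2 ^ s - 1 + (c - (2 * 2 ^ s - 1)) = c := by omega
        rw [← Nat.cast_add, ← Nat.cast_add, e1, e2]
    · have hTk : k * 2 ^ s - 1 + 1 = k * 2 ^ s := by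
        have : 1 * 2 ^ s ≤ k * 2 ^ s := Nat.mul_le_mul_right _ (by omega)
        omega
      refine triple (t1 := a + 1) (T := k * 2 ^ s - 1) (b := 2 * 2 ^ s + 2)
        (cc := c - (2 * 2 ^ s + 2)) (r := 3) hoddZ hvpos ?_ (by omega) (by omega) (by omega)
        (tripA H (by omega) (by omega) (by omega))
        (fun i hi h => H.full k _ _ hk2 (by omega) hTk (by omega) h)
      have e1 : a + 1 + (k * 2 ^ s - 1) = t := by omega
      have e2 : 2 * 2 ^ s + 2 + (c - (2 * 2 ^ s + 2)) = c := by omega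
      rw [← Nat.cast_add, ← Nat.cast_add, e1, e2]

end EB

/-- **M2**: the even positions in the bulk columns have two representations -/
theorem early_bulk {s u v : ℕ} (H : Str s u v) (t c : ℕ) (ht : t < v)
    (hK : 2 * v + 3 ≤ 2 * t + v * c)
    (hc : c + 2 ≤ 2 * 2 ^ s ∨ (2 * 2 ^ s + 7 ≤ c ∧ c + 3 ≤ 4 * 2 ^ s)) :
    Two v (2 * (t : ℤ) + v * (c : ℤ)) := by
  rcases hc with hc | ⟨hc1, hc2⟩
  · exact EB.partA H t c ht hK hc
  · exact EB.partB H t c ht hc1 hc2

end Pool.Agent.H65.Um
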