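import Pool.Agent.H65.Um.ChkZ

/-!
# The exceptional sums `2 (2 t) + v (4 N + 16)`, `t ≤ N + 3` odd
-/

set_option autoImplicit false

namespace Pool.Agent.H65.Um

open Pool.Agent.H65.Ul

theorem bit9_chk : ∀ q : Bool, ∀ cl < 20, cl % 2 = 1 → (q = false ∨ 7 ≤ cl) →
    (((tab q 0) >>> (10 * cl)) % 1024).testBit 9 = true := by decide +kernel

theorem bit78_chk : ∀ q : Bool, ∀ cl < 20, cl % 4 = 1 → 5 ≤ cl →
    (((tab q 0) >>> (10 * cl)) % 1024).testBit 7 = true ∧
    (((tab q 0) >>> (10 * cl)) % 1024).testBit 8 = true := by decide +kernel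

theorem bit7_chk : ∀ cl < 20, cl % 4 = 2 →
    (((tab false 0) >>> (10 * cl)) % 1024).testBit 7 = true := by decide +kernel

variable {s u v : ℕ}

/-- A strip cell as a position, `x = i - 1`. -/
theorem strip_pos (H : Str s u v) {r b o i : ℕ} {x : ℤ} (hr : r = b * 2 ^ s + o) (ho : o < 2 ^ s)
    (hv : r < v) (hi : i < 10) (hx : x = i - 1)
    (h : (msk (decide (u = 3)) b o).testBit i = true) :
    XZ v (2 * (r : ℤ) + v * (2 * 2 ^ s + x)) = true := by
  have h1 := H.strip b o i ho (by omega) hi h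
  rw [← hr] at h1
  have e : (2 : ℤ) * 2 ^ s + x = 2 * 2 ^ s - 1 + i := by rw [hx]; ring
  rw [e]; exact h1

theorem Par.four_dvd (H : Par s u v) : ∃ m, 2 ^ s = 16 * m ∧ 0 < m := by
  refine ⟨2 ^ (s - 4), ?_, by positivity⟩
  have h16 : (16 : ℕ) = 2 ^ 4 := by norm_num
  rw [h16, ← pow_add]
  congr 1
  have := H.hs
  omega

theorem Par.big (H : Par s u v) : 3 * 2 ^ s ≤ v + 1 := by
  rw [H.hv]; exact Nat.mul_le_mul_right _ H.hu

/-- Column 8 in the odd rows of block 0. -/
theorem col8 (H : Str s u v) {o : ℕ} (ho : o < 2 ^ s) (h1 : o % 2 = 1) (h2 : u ≠ 3 ∨ 7 ≤ o) :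
    XZ v (2 * (o : ℤ) + v * (2 * 2 ^ s + 8)) = true := by
  have hb := H.par.big
  have h16 := H.par.sixteen
  refine strip_pos H (b := 0) (o := o) (i := 9) (by ring) ho (by omega) (by norm_num)
    (by norm_num) ?_
  have hc := bit9_chk (decide (u = 3)) (co o) (co_lt o) (by unfold co; split_ifs <;> omega) (by
    rcases h2 with h2 | h2
    · exact Or.inl (decide_eq_false h2)
    · right; unfold co; split_ifs <;> omega)
  exact hc

theorem col67 (H : Str s u v) {o : ℕ} (ho : o < 2 ^ s) (h1 : o % 4 = 1) (h2 : 5 ≤ o) :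
    XZ v (2 * (o : ℤ) + v * (2 * 2 ^ s + 6)) = true ∧
    XZ v (2 * (o : ℤ) + v * (2 * 2 ^ s + 7)) = true := by
  have hb := H.par.big
  have h16 := H.par.sixteen
  have hc := bit78_chk (decide (u = 3)) (co o) (co_lt o) (by unfold co; split_ifs <;> omega)
    (by unfold co; split_ifs <;> omega)
  exact ⟨strip_pos H (b := 0) (o := o) (i := 7) (by ring) ho (by omega) (by norm_num)
    (by norm_num) hc.1, strip_pos H (b := 0) (o := o) (i := 8) (by ring) ho (by omega)
    (by norm_num) (by norm_num) hc.2⟩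

theorem col6 (H : Str s u v) (hu : u ≠ 3) {o : ℕ} (ho : o < 2 ^ s) (h1 : o % 4 = 2) :
    XZ v (2 * (o : ℤ) + v * (2 * 2 ^ s + 6)) = true := by
  have hb := H.par.big
  have h16 := H.par.sixteen
  refine strip_pos H (b := 0) (o := o) (i := 7) (by ring) ho (by omega) (by norm_num)
    (by norm_num) ?_
  have hc := bit7_chk (co o) (co_lt o) (by unfold co; split_ifs <;> omega)
  have e : decide (u = 3) = false := decide_eq_false hu
  rw [e]; exact hc

theorem co_small {o : ℕ} (h : o < 20) : co o = o := by unfold co; rw [if_pos h]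

/-- Block 1, small offsets. -/
theorem blk1 (H : Str s u v) {o i : ℕ} {x : ℤ} (ho : o < 16) (hi : i < 10) (hx : x = i - 1)
    (h : (((tab (decide (u = 3)) 1) >>> (10 * o)) % 1024).testBit i = true) :
    XZ v (2 * ((2 ^ s + o : ℕ) : ℤ) + v * (2 * 2 ^ s + x)) = true := by
  have hb := H.par.big
  have h16 := H.par.sixteen
  refine strip_pos H (b := 1) (o := o) (i := i) (by ring) (by omega) (by omega) hi hx ?_
  unfold msk
  rw [co_small (by omega)]
  exact h

/-- The rows `v - 3` and `v - 4`. -/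
theorem rowv3 (H : Str s u v) : XZ v (2 * ((v - 3 : ℕ) : ℤ) + v * (2 * 2 ^ s + 8)) = true := by
  have hb := H.par.big
  have h16 := H.par.sixteen
  have hv := H.par.hv
  obtain ⟨m, hm, hm0⟩ := H.par.four_dvd
  have hu := H.par.hu
  have ho := H.par.odd
  obtain ⟨w, hw⟩ : ∃ w, u = w + 1 := ⟨u - 1, by omega⟩
  have e1 : u * 2 ^ s = w * 2 ^ s + 2 ^ s := by rw [hw]; ring
  refine strip_pos H (b := w) (o := 2 ^ s - 4) (i := 9) (by omega) (by omega) (by omega)
    (by norm_num) (by norm_num) ?_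
  unfold msk
  have hcb : cb w = 2 ∨ cb w = 4 := by unfold cb; split_ifs <;> omega
  have hco : co (2 ^ s - 4) = 12 ∨ co (2 ^ s - 4) = 16 := by
    unfold co; split_ifs <;> omega
  have hq : ∀ q, (((tab q 2) >>> (10 * 12)) % 1024).testBit 9 = true ∧
    (((tab q 2) >>> (10 * 16)) % 1024).testBit 9 = true ∧
    (((tab q 4) >>> (10 * 12)) % 1024).testBit 9 = true ∧
    (((tab q 4) >>> (10 * 16)) % 1024).testBit 9 = true := by decide +kernel
  have := hq (decide (u = 3))
  rcases hcb with hcb | hcb <;> rcases hco with hco | hco <;> rw [hcb, hco]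
  · exact this.1
  · exact this.2.1
  · exact this.2.2.1
  · exact this.2.2.2

theorem rowv3' (H : Str s u v) (h3 : u = 3) :
    XZ v (2 * ((v - 3 : ℕ) : ℤ) + v * (2 * 2 ^ s + 7)) = true := by
  have hb := H.par.big
  have h16 := H.par.sixteen
  have hv := H.par.hv
  obtain ⟨m, hm, hm0⟩ := H.par.four_dvd
  rw [h3] at hv
  refine strip_pos H (b := 2) (o := 2 ^ s - 4) (i := 8) (by omega) (by omega) (by omega)
    (by norm_num) (by norm_num) ?_
  unfold msk
  have hco : co (2 ^ s - 4) = 12 ∨ co (2 ^ s - 4) = 16 := by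
    unfold co; split_ifs <;> omega
  have hq : ∀ q, (((tab q (cb 2)) >>> (10 * 12)) % 1024).testBit 8 = true ∧
    (((tab q (cb 2)) >>> (10 * 16)) % 1024).testBit 8 = true := by decide +kernel
  have := hq (decide (u = 3))
  rcases hco with hco | hco <;> rw [hco]
  · exact this.1
  · exact this.2

theorem rowv4 (H : Str s u v) (h3 : u ≠ 3) :
    XZ v (2 * ((v - 4 : ℕ) : ℤ) + v * (2 * 2 ^ s + 8)) = true := by
  have hb := H.par.big
  have h16 := H.par.sixteen
  have hv := H.par.hv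
  obtain ⟨m, hm, hm0⟩ := H.par.four_dvd
  have hu := H.par.hu
  have ho := H.par.odd
  obtain ⟨w, hw⟩ : ∃ w, u = w + 1 := ⟨u - 1, by omega⟩
  have e1 : u * 2 ^ s = w * 2 ^ s + 2 ^ s := by rw [hw]; ring
  refine strip_pos H (b := w) (o := 2 ^ s - 5) (i := 9) (by omega) (by omega) (by omega)
    (by norm_num) (by norm_num) ?_
  unfold msk
  have hcb : cb w = 4 := by unfold cb; split_ifs <;> omega
  have hco : co (2 ^ s - 5) = 11 ∨ co (2 ^ s - 5) = 19 := by
    unfold co; split_ifs <;> omega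
  have hq : ∀ q, (((tab q 4) >>> (10 * 11)) % 1024).testBit 9 = true ∧
    (((tab q 4) >>> (10 * 19)) % 1024).testBit 9 = true := by decide +kernel
  have := hq (decide (u = 3))
  rcases hco with hco | hco <;> rw [hcb, hco]
  · exact this.1
  · exact this.2

/-- Two pairs from rows: `(r1, x1) + (r2, x2)` in frame `fr`. -/
theorem fam_two (H : Str s u v) {t r1 r2 q1 q2 : ℕ} {x1 x2 y1 y2 : ℤ} {f g : ℤ}
    (hr1 : r1 < v) (_hr2 : r2 < v) (hq1 : q1 < v) (_hq2 : q2 < v)
    (h1 : XZ v (2 * (r1 : ℤ) + v * (2 * 2 ^ s + x1)) = true)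
    (h2 : XZ v (2 * (r2 : ℤ) + v * (2 * 2 ^ s + x2)) = true)
    (h3 : XZ v (2 * (q1 : ℤ) + v * (2 * 2 ^ s + y1)) = true)
    (h4 : XZ v (2 * (q2 : ℤ) + v * (2 * 2 ^ s + y2)) = true)
    (e1 : (r1 : ℤ) + r2 = 2 * t + f * v) (e2 : x1 + x2 = 16 - 2 * f)
    (e3 : (q1 : ℤ) + q2 = 2 * t + g * v) (e4 : y1 + y2 = 16 - 2 * g)
    (d1 : x1 + 2 ≤ x2 ∨ (x1 = x2 ∧ r1 < r2)) (d2 : y1 + 2 ≤ y2 ∨ (y1 = y2 ∧ q1 < q2))
    (hne : x1 ≠ y1 ∨ r1 ≠ q1) : Two v (2 * (2 * (t : ℤ)) + v * (4 * 2 ^ s + 16)) := by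
  have k1 : 2 * (2 * (t : ℤ)) + v * (4 * 2 ^ s + 16) - (2 * (r1 : ℤ) + v * (2 * 2 ^ s + x1)) =
      2 * (r2 : ℤ) + v * (2 * 2 ^ s + x2) := by
    have : x2 = 16 - 2 * f - x1 := by linarith
    rw [this]
    linear_combination (-2 : ℤ) * e1
  have k2 : 2 * (2 * (t : ℤ)) + v * (4 * 2 ^ s + 16) - (2 * (q1 : ℤ) + v * (2 * 2 ^ s + y1)) =
      2 * (q2 : ℤ) + v * (2 * 2 ^ s + y2) := by
    have : y2 = 16 - 2 * g - y1 := by linarith
    rw [this]
    linear_combination (-2 : ℤ) * e3
  refine two_lo (2 * (r1 : ℤ) + v * (2 * 2 ^ s + x1)) (2 * (q1 : ℤ) + v * (2 * 2 ^ s + y1))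
    h1 (by rw [k1]; exact h2) h3 (by rw [k2]; exact h4) ?_ ?_ ?_
  · rcases d1 with d1 | ⟨d1, d1'⟩
    · have : (v : ℤ) * 2 ≤ v * (x2 - x1) := mul_le_mul_of_nonneg_left (by omega) (by omega)
      have e : (v : ℤ) * (x2 - x1) = v * (2 * 2 ^ s + x2) - v * (2 * 2 ^ s + x1) := by ring
      omega
    · rw [d1] at k1 ⊢; omega
  · rcases d2 with d2 | ⟨d2, d2'⟩
    · have : (v : ℤ) * 2 ≤ v * (y2 - y1) := mul_le_mul_of_nonneg_left (by omega) (by omega)
      have e : (v : ℤ) * (y2 - y1) = v * (2 * 2 ^ s + y2) - v * (2 * 2 ^ s + y1) := by ring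
      omega
    · rw [d2] at k2 ⊢; omega
  · intro h
    have := pos_inj H.par.vodd hr1 hq1 h
    rcases hne with hne | hne
    · apply hne; linarith [this.2]
    · exact hne this.1

theorem fam (H : Str s u v) (t : ℕ) (h1 : t % 2 = 1) (h2 : t ≤ 2 ^ s + 3) :
    Two v (2 * (2 * (t : ℤ)) + v * (4 * 2 ^ s + 16)) := by
  have hb := H.par.big
  have h16 := H.par.sixteen
  obtain ⟨m, hm, hm0⟩ := H.par.four_dvd
  have hv3 := rowv3 H
  by_cases hA : 2 * t ≤ 2 ^ s - 2
  · -- case A
    have c6 : XZ v (2 * ((2 * t + 3 : ℕ) : ℤ) + v * (2 * 2 ^ s + 6)) = true := by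
      by_cases h5 : 2 * t + 3 < 2 ^ s
      · exact (col67 H h5 (by omega) (by omega)).1
      · have e : 2 * t + 3 = 2 ^ s + 1 := by omega
        rw [e]
        exact blk1 H (o := 1) (i := 7) (by norm_num) (by norm_num) (by norm_num)
          (by cases decide (u = 3) <;> decide)
    by_cases h3 : u = 3
    · have c7 : XZ v (2 * ((2 * t + 3 : ℕ) : ℤ) + v * (2 * 2 ^ s + 7)) = true := by
        by_cases h5 : 2 * t + 3 < 2 ^ s
        · exact (col67 H h5 (by omega) (by omega)).2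
        · have e : 2 * t + 3 = 2 ^ s + 1 := by omega
          rw [e]
          exact blk1 H (o := 1) (i := 8) (by norm_num) (by norm_num) (by norm_num)
            (by cases decide (u = 3) <;> decide)
      exact fam_two H (r1 := 2 * t + 3) (r2 := v - 3) (q1 := 2 * t + 3) (q2 := v - 3)
        (f := 1) (g := 1) (by omega) (by omega) (by omega) (by omega) c6 hv3 c7 (rowv3' H h3)
        (by omega) (by norm_num) (by omega) (by norm_num) (Or.inl (by norm_num))
        (Or.inr ⟨rfl, by omega⟩) (Or.inl (by norm_num))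
    · have c6' : XZ v (2 * ((2 * t + 4 : ℕ) : ℤ) + v * (2 * 2 ^ s + 6)) = true := by
        by_cases h5 : 2 * t + 4 < 2 ^ s
        · exact col6 H h3 h5 (by omega)
        · have e : 2 * t + 4 = 2 ^ s + 2 := by omega
          rw [e]
          exact blk1 H (o := 2) (i := 7) (by norm_num) (by norm_num) (by norm_num)
            (by cases decide (u = 3) <;> decide)
      exact fam_two H (r1 := 2 * t + 3) (r2 := v - 3) (q1 := 2 * t + 4) (q2 := v - 4)
        (f := 1) (g := 1) (by omega) (by omega) (by omega) (by omega) c6 hv3 c6' (rowv4 H h3)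
        (by omega) (by norm_num) (by omega) (by norm_num) (Or.inl (by norm_num))
        (Or.inl (by norm_num)) (Or.inr (by omega))
  · -- case B
    have b8 : ∀ o : ℕ, o < 16 → (((tab (decide (u = 3)) 1) >>> (10 * o)) % 1024).testBit 9 = true →
        XZ v (2 * ((2 ^ s + o : ℕ) : ℤ) + v * (2 * 2 ^ s + 8)) = true :=
      fun o ho h => blk1 H (i := 9) ho (by norm_num) (by norm_num) h
    have n1 := b8 1 (by norm_num) (by cases decide (u = 3) <;> decide)
    have n3 := b8 3 (by norm_num) (by cases decide (u = 3) <;> decide)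
    have n9 := b8 9 (by norm_num) (by cases decide (u = 3) <;> decide)
    have n11 := b8 11 (by norm_num) (by cases decide (u = 3) <;> decide)
    -- odd rows up to N + 3
    have odd8 : ∀ o : ℕ, o % 2 = 1 → o ≤ 2 ^ s + 3 → (u ≠ 3 ∨ 7 ≤ o) →
        XZ v (2 * (o : ℤ) + v * (2 * 2 ^ s + 8)) = true := by
      intro o ho1 ho2 ho3
      by_cases h5 : o < 2 ^ s
      · exact col8 H h5 ho1 ho3
      · have : o = 2 ^ s + 1 ∨ o = 2 ^ s + 3 := by omega
        rcases this with rfl | rfl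
        · exact n1
        · exact n3
    by_cases hB : t + 1 ≤ 2 ^ s
    · -- t ≤ N - 1
      by_cases hE : t = 9 ∧ u = 3
      · obtain ⟨rfl, h3⟩ := hE
        have hN : 2 ^ s = 16 := by omega
        have c21 : XZ v (2 * ((21 : ℕ) : ℤ) + v * (2 * 2 ^ s + 6)) = true := by
          have e : (21 : ℕ) = 2 ^ s + 5 := by omega
          rw [e]
          exact blk1 H (o := 5) (i := 7) (by norm_num) (by norm_num) (by norm_num)
            (by cases decide (u = 3) <;> decide)
        exact fam_two H (r1 := 9 - 2) (r2 := 9 + 2) (q1 := 21) (q2 := v - 3)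
          (f := 0) (g := 1) (by omega) (by omega) (by omega) (by omega)
          (odd8 7 (by norm_num) (by omega) (Or.inr (by norm_num)))
          (odd8 11 (by norm_num) (by omega) (Or.inr (by norm_num))) c21 hv3
          (by norm_num) (by norm_num) (by omega) (by norm_num)
          (Or.inr ⟨rfl, by norm_num⟩) (Or.inl (by norm_num)) (Or.inl (by norm_num))
      · exact fam_two H (r1 := t - 2) (r2 := t + 2) (q1 := t - 4) (q2 := t + 4)
          (f := 0) (g := 0) (by omega) (by omega) (by omega) (by omega)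
          (odd8 _ (by omega) (by omega) (by omega)) (odd8 _ (by omega) (by omega) (by omega))
          (odd8 _ (by omega) (by omega) (by omega)) (odd8 _ (by omega) (by omega) (by omega))
          (by omega) (by norm_num) (by omega) (by norm_num)
          (Or.inr ⟨rfl, by omega⟩) (Or.inr ⟨rfl, by omega⟩) (Or.inr (by omega))
    · have ht : t = 2 ^ s + 1 ∨ t = 2 ^ s + 3 := by omega
      rcases ht with rfl | rfl
      · exact fam_two H (r1 := 2 ^ s - 1) (r2 := 2 ^ s + 3) (q1 := 2 ^ s - 7) (q2 := 2 ^ s + 9)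
          (f := 0) (g := 0) (by omega) (by omega) (by omega) (by omega)
          (odd8 _ (by omega) (by omega) (by omega)) n3
          (odd8 _ (by omega) (by omega) (by omega)) n9
          (by push_cast [Nat.cast_sub (show 1 ≤ 2 ^ s by omega)]; ring) (by norm_num)
          (by push_cast [Nat.cast_sub (show 7 ≤ 2 ^ s by omega)]; ring) (by norm_num)
          (Or.inr ⟨rfl, by omega⟩) (Or.inr ⟨rfl, by omega⟩) (Or.inr (by omega))
      · exact fam_two H (r1 := 2 ^ s - 3) (r2 := 2 ^ s + 9) (q1 := 2 ^ s - 5) (q2 := 2 ^ s + 11)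
          (f := 0) (g := 0) (by omega) (by omega) (by omega) (by omega)
          (odd8 _ (by omega) (by omega) (by omega)) n9
          (odd8 _ (by omega) (by omega) (by omega)) n11
          (by push_cast [Nat.cast_sub (show 3 ≤ 2 ^ s by omega)]; ring) (by norm_num)
          (by push_cast [Nat.cast_sub (show 5 ≤ 2 ^ s by omega)]; ring) (by norm_num)
          (Or.inr ⟨rfl, by omega⟩) (Or.inr ⟨rfl, by omega⟩) (Or.inr (by omega))

end Pool.Agent.H65.Um
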