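import Pool.Agent.H65.Um.Defs
import Pool.Agent.H65.Ul.Late

/-!
# `U(4, v)`, late part: the plane seen from `K`, covers and density
-/

set_option autoImplicit false

namespace Pool.Agent.H65.Um.LT

open Pool.Agent.H65.Ul

/-- The cell in row `t` and column `c`, seen from `K`. -/
def zc (v : ℕ) (K : ℤ) (t c : ℤ) : Bool := XZ v (K - (2 * t + v * c))

theorem zc_rec (v : ℕ) {K t c : ℤ} (h : 2 * t + v * c ≠ K) :
    zc v K t c = E (zc v K (t + 1) c) (zc v K (t + 1) (c + 1)) (zc v K (t + 1) (c + 2)) := by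
  unfold zc
  rw [XZ_rec v (j := K - (2 * t + v * c)) (by omega)]
  congr 2 <;> ring

theorem zc_shift (v : ℕ) (K t c : ℤ) : zc v K (t + v) c = zc v K t (c + 2) := by
  unfold zc
  congr 1; ring

/-- Basic data of the late part. -/
structure Ctx (s u v K : ℕ) : Prop where
  str : Str s u v
  hK : (4 * 2 ^ s + 16) * v ≤ K
  hodd : K % 2 = 1 → (4 * 2 ^ s + 17) * v ≤ K
  hX : ∀ t : ℕ, t % 2 = 1 → t ≤ 2 ^ s + 3 → K ≠ 2 * (2 * t) + v * (4 * 2 ^ s + 16)
  hT : ¬ Two v K

/-- The numbers. -/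
theorem Ctx.num {s u v K : ℕ} (C : Ctx s u v K) : 16 ≤ 2 ^ s ∧ 2 ^ s % 16 = 0 ∧
    3 * 2 ^ s ≤ v + 1 ∧ v % 2 = 1 := by
  obtain ⟨hs, hu, ho, hv⟩ := C.str.par
  have h1 : 2 ^ 4 ≤ 2 ^ s := Nat.pow_le_pow_right (by norm_num) hs
  have h2 : 2 ^ 4 ∣ 2 ^ s := pow_dvd_pow 2 hs
  have h3 : 2 ^ s % 16 = 0 := Nat.mod_eq_zero_of_dvd (by simpa using h2)
  refine ⟨by simpa using h1, h3, ?_, ?_⟩
  · rw [hv]; exact Nat.mul_le_mul_right _ hu
  · have h4 : (v + 1) % 2 = 0 := by
      rw [hv, Nat.mul_mod]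
      have : 2 ^ s % 2 = 0 := by omega
      rw [this]; simp
    omega

theorem Ctx.posK {s u v K : ℕ} (C : Ctx s u v K) : (4 * (2 : ℤ) ^ s + 16) * v ≤ K := by
  have := C.hK
  exact_mod_cast this

/-- Two coincidences below the middle are equal. -/
theorem Ctx.uniq {s u v K : ℕ} (C : Ctx s u v K) {t c t' c' : ℤ}
    (f1 : cel v t c = true) (z1 : zc v K t c = true) (f2 : cel v t' c' = true)
    (z2 : zc v K t' c' = true) (h1 : 2 * (2 * t + v * c) ≠ K) (h2 : 2 * (2 * t' + v * c') ≠ K)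
    (h3 : (2 * t + v * c) + (2 * t' + v * c') ≠ K) : 2 * t + v * c = 2 * t' + v * c' := by
  by_contra h
  exact C.hT ⟨_, _, f1, z1, f2, z2, h1, h2, h, by omega⟩

theorem Ctx.uniq_low {s u v K : ℕ} (C : Ctx s u v K) {t c t' c' : ℤ}
    (f1 : cel v t c = true) (z1 : zc v K t c = true) (f2 : cel v t' c' = true)
    (z2 : zc v K t' c' = true) (h1 : 2 * (2 * t + v * c) < K) (h2 : 2 * (2 * t' + v * c') < K) :
    2 * t + v * c = 2 * t' + v * c' :=
  C.uniq f1 z1 f2 z2 h1.ne h2.ne (by omega)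

/-- Positions of different cells in near rows. -/
theorem pos_ne {v : ℕ} {t c t' c' : ℤ} (h : t ≠ t' ∨ c ≠ c') (h1 : 2 * (t - t') < v)
    (h2 : 2 * (t' - t) < v) : 2 * t + v * c ≠ 2 * t' + v * c' := by
  intro he
  rcases lt_trichotomy c c' with hc | hc | hc
  · have : (v : ℤ) * 1 ≤ v * (c' - c) := mul_le_mul_of_nonneg_left (by omega) (by omega)
    have h3 : (v : ℤ) * (c' - c) = v * c' - v * c := by ring
    omega
  · rw [hc] at he
    omega
  · have : (v : ℤ) * 1 ≤ v * (c - c') := mul_le_mul_of_nonneg_left (by omega) (by omega)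
    have h3 : (v : ℤ) * (c - c') = v * c - v * c' := by ring
    omega

/-- The other cells are not coincidences. -/
theorem Ctx.other {s u v K : ℕ} (C : Ctx s u v K) {t c t' c' : ℤ}
    (f1 : cel v t c = true) (z1 : zc v K t c = true) (f2 : cel v t' c' = true)
    (h1 : 2 * (2 * t + v * c) < K) (h2 : 2 * (2 * t' + v * c') < K)
    (h : t ≠ t' ∨ c ≠ c') (h3 : 2 * (t - t') < v) (h4 : 2 * (t' - t) < v) :
    zc v K t' c' = false := by
  by_contra hz
  exact pos_ne h h3 h4 (C.uniq_low f1 z1 f2 (by simpa using hz) h1 h2)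

theorem low_of {v : ℕ} {N K : ℤ} (hK : (4 * N + 16) * v ≤ K) {t c m : ℤ} (hc : c ≤ m)
    (ht : 4 * t + 2 * (v * m) < (4 * N + 16) * v) : 2 * (2 * t + v * c) < K := by
  have : (v : ℤ) * c ≤ v * m := mul_le_mul_of_nonneg_left hc (by omega)
  omega

/-- Rows below `v`, columns at most `2 N + 6`. -/
theorem Ctx.low6 {s u v K : ℕ} (C : Ctx s u v K) {t c : ℤ} (ht : t < v)
    (hc : c ≤ 2 * 2 ^ s + 6) : 2 * (2 * t + v * c) < K := by
  refine low_of (N := (2 : ℤ) ^ s) C.posK hc ?_
  have : (4 * (2 : ℤ) ^ s + 16) * v = 2 * (v * (2 * 2 ^ s + 6)) + 4 * v := by ring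
  omega

/-- Rows at most `N + 3`, columns at most `2 N + 7`. -/
theorem Ctx.low7 {s u v K : ℕ} (C : Ctx s u v K) {t c : ℤ} (ht : t ≤ 2 ^ s + 3)
    (hc : c ≤ 2 * 2 ^ s + 7) : 2 * (2 * t + v * c) < K := by
  refine low_of (N := (2 : ℤ) ^ s) C.posK hc ?_
  have h1 : (4 * (2 : ℤ) ^ s + 16) * v = 2 * (v * (2 * 2 ^ s + 7)) + 2 * v := by ring
  obtain ⟨h2, _, h3, _⟩ := C.num
  have h4 : (3 * (2 : ℤ) ^ s) ≤ v + 1 := by exact_mod_cast h3
  have h5 : (16 : ℤ) ≤ 2 ^ s := by exact_mod_cast h2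
  omega

/-- All cells in question are before `K`. -/
theorem Ctx.ltK {s u v K : ℕ} (C : Ctx s u v K) {t c : ℤ} (ht : t < v)
    (hc : c ≤ 2 * 2 ^ s + 12) : 2 * t + v * c < K := by
  have h0 := C.posK
  have : (v : ℤ) * c ≤ v * (2 * 2 ^ s + 12) := mul_le_mul_of_nonneg_left hc (by omega)
  have h1 : (4 * (2 : ℤ) ^ s + 16) * v = v * (2 * 2 ^ s + 12) + (v * (2 * 2 ^ s) + 4 * v) := by ring
  have h2 : (0 : ℤ) ≤ v * (2 * 2 ^ s) := by positivity
  obtain ⟨_, _, h3, _⟩ := C.num
  omega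

/-- Cover lemma. -/
theorem Ctx.cover {s u v K : ℕ} (C : Ctx s u v K) {t c : ℤ} (f0 : cel v t c = true)
    (f1 : cel v (t + 1) c = true) (f2 : cel v (t + 1) (c + 1) = true)
    (f3 : cel v (t + 1) (c + 2) = true) (h : 2 * (2 * (t + 1) + v * (c + 2)) < K) :
    zc v K t c = false ∧ zc v K (t + 1) c = false ∧ zc v K (t + 1) (c + 1) = false ∧
      zc v K (t + 1) (c + 2) = false := by
  obtain ⟨hN, _, hv, _⟩ := C.num
  have hv5 : (5 : ℤ) < v := by omega
  have e1 : (v : ℤ) * (c + 1) = v * c + v := by ring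
  have e2 : (v : ℤ) * (c + 2) = v * c + 2 * v := by ring
  have hK0 : (0 : ℤ) ≤ K := by omega
  have hrec := zc_rec v (K := (K : ℤ)) (t := t) (c := c) (by omega)
  have l0 : 2 * (2 * t + v * c) < (K : ℤ) := by omega
  have l1 : 2 * (2 * (t + 1) + v * c) < (K : ℤ) := by omega
  have l2 : 2 * (2 * (t + 1) + v * (c + 1)) < (K : ℤ) := by omega
  have p01 : zc v K t c = true → zc v K (t + 1) c = false := fun z =>
    C.other f0 z f1 l0 l1 (by omega) (by omega) (by omega)
  have p02 : zc v K t c = true → zc v K (t + 1) (c + 1) = false := fun z =>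
    C.other f0 z f2 l0 l2 (by omega) (by omega) (by omega)
  have p03 : zc v K t c = true → zc v K (t + 1) (c + 2) = false := fun z =>
    C.other f0 z f3 l0 h (by omega) (by omega) (by omega)
  have p12 : zc v K (t + 1) c = true → zc v K (t + 1) (c + 1) = false := fun z =>
    C.other f1 z f2 l1 l2 (by omega) (by omega) (by omega)
  have p13 : zc v K (t + 1) c = true → zc v K (t + 1) (c + 2) = false := fun z =>
    C.other f1 z f3 l1 h (by omega) (by omega) (by omega)
  have p23 : zc v K (t + 1) (c + 1) = true → zc v K (t + 1) (c + 2) = false := fun z =>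
    C.other f2 z f3 l2 h (by omega) (by omega) (by omega)
  revert hrec p01 p02 p03 p12 p13 p23
  generalize zc v K t c = a
  generalize zc v K (t + 1) c = b
  generalize zc v K (t + 1) (c + 1) = d
  generalize zc v K (t + 1) (c + 2) = e
  revert a b d e
  decide

theorem E_two {a b c : Bool} (h : E a b c = false) :
    (a = false → b = false → c = false) ∧ (a = false → c = false → b = false) ∧
    (b = false → c = false → a = false) := by
  revert h; revert a b c; decide

/-- Density: a row which follows a zero row is zero as soon as it has two near zeros. -/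
theorem dense {g : ℕ → Bool} {n i j : ℕ} (h : ∀ i, i < n → E (g i) (g (i + 1)) (g (i + 2)) = false)
    (hi : g i = false) (hj : g j = false) (hij : i < j) (hji : j ≤ i + 2) (hn : j < n + 2)
    (hn0 : 0 < n) : ∀ m, m < n + 2 → g m = false := by
  -- a zero triple
  obtain ⟨b, hb, h0, h1, h2⟩ : ∃ b, b < n ∧ g b = false ∧ g (b + 1) = false ∧ g (b + 2) = false := by
    rcases Nat.lt_or_ge (i + 1) j with h1 | h1
    · have e : j = i + 2 := by omega
      subst e
      exact ⟨i, by omega, hi, (E_two (h i (by omega))).2.1 hi hj, hj⟩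
    · have e : j = i + 1 := by omega
      subst e
      rcases Nat.lt_or_ge i n with h2 | h2
      · exact ⟨i, h2, hi, hj, (E_two (h i h2)).1 hi hj⟩
      · obtain ⟨k, rfl⟩ : ∃ k, i = k + 1 := ⟨i - 1, by omega⟩
        exact ⟨k, by omega, (E_two (h k (by omega))).2.2 hi hj, hi, hj⟩
  have up : ∀ k, b + k + 1 < n + 2 → g (b + k) = false ∧ g (b + k + 1) = false := by
    intro k
    induction k with
    | zero => intro _; exact ⟨h0, h1⟩
    | succ k ih =>
      intro hk
      obtain ⟨a1, a2⟩ := ih (by omega)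
      exact ⟨a2, (E_two (h (b + k) (by omega))).1 a1 a2⟩
  have down : ∀ k, k ≤ b → g (b - k) = false ∧ g (b - k + 1) = false := by
    intro k
    induction k with
    | zero => intro _; exact ⟨h0, h1⟩
    | succ k ih =>
      intro hk
      obtain ⟨a1, a2⟩ := ih (by omega)
      have e : b - k = b - (k + 1) + 1 := by omega
      rw [e] at a1 a2
      exact ⟨(E_two (h (b - (k + 1)) (by omega))).2.2 a1 a2, a1⟩
  intro m hm
  rcases Nat.lt_or_ge m b with h3 | h3
  · have := (down (b - m) (by omega)).1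
    have e : b - (b - m) = m := by omega
    rwa [e] at this
  · rcases Nat.eq_or_lt_of_le (Nat.zero_le (m - b)) with h4 | h4
    · have e : m = b := by omega
      rw [e]; exact h0
    · have := (up (m - b - 1) (by omega)).2
      have e : b + (m - b - 1) + 1 = m := by omega
      rwa [e] at this

/-- Column number of the strip. -/
theorem Ctx.stripf {s u v K : ℕ} (C : Ctx s u v K) {b o i : ℕ} (ho : o < 2 ^ s)
    (hb : b * 2 ^ s + o < v) (hi : i < 10)
    (hm : (msk (decide (u = 3)) b o).testBit i = true) {t c : ℤ} (ht : t = b * 2 ^ s + o)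
    (hc : c = 2 * 2 ^ s - 1 + i) : cel v t c = true := by
  have := C.str.strip b o i ho hb hi hm
  rw [ht, hc]
  push_cast at this
  exact this

end Pool.Agent.H65.Um.LT
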