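import Pool.Agent.H65.Um.LateA

/-!
# `U(4, v)`, late part: the nucleus
-/

set_option autoImplicit false

namespace Pool.Agent.H65.Um.LT

open Pool.Agent.H65.Ul

/-- One step of the unit propagation in the patch of 4 rows and 10 columns. -/
def upd (k m : ℕ) : ℕ :=
  if k.testBit (m + 10) && k.testBit (m + 11) && k.testBit (m + 12) then k ||| 2 ^ m
  else if k.testBit m && k.testBit (m + 11) && k.testBit (m + 12) then k ||| 2 ^ (m + 10)
  else if k.testBit m && k.testBit (m + 10) && k.testBit (m + 12) then k ||| 2 ^ (m + 11)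
  else if k.testBit m && k.testBit (m + 10) && k.testBit (m + 11) then k ||| 2 ^ (m + 12)
  else k

/-- The base positions. -/
def bases : List ℕ := [20, 21, 22, 23, 24, 25, 26, 27, 10, 11, 12, 13, 14, 15, 16, 17,
  0, 1, 2, 3, 4, 5, 6, 7]

/-- The closure. -/
def clos : ℕ → ℕ → ℕ
  | 0, k => k
  | n + 1, k => clos n (bases.foldl upd k)

/-- The known zeros. -/
def Kn (g : ℕ → Bool) (k : ℕ) : Prop := ∀ m, k.testBit m = true → g m = false

theorem Kn_or {g : ℕ → Bool} {k m : ℕ} (h : Kn g k) (hm : g m = false) : Kn g (k ||| 2 ^ m) := by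
  intro j hj
  rw [Nat.testBit_or, Nat.testBit_two_pow] at hj
  rcases Bool.or_eq_true_iff.mp hj with h1 | h1
  · exact h j h1
  · have : m = j := by simpa using h1
    rw [← this]; exact hm

theorem E4 {a b c d : Bool} (h : a = E b c d) :
    (b = false → c = false → d = false → a = false) ∧
    (a = false → c = false → d = false → b = false) ∧
    (a = false → b = false → d = false → c = false) ∧
    (a = false → b = false → c = false → d = false) := by
  subst h
  cases b <;> cases c <;> cases d <;> simp [E]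

theorem Kn_upd {g : ℕ → Bool} {k m : ℕ} (h : Kn g k)
    (hm : g m = E (g (m + 10)) (g (m + 11)) (g (m + 12))) : Kn g (upd k m) := by
  obtain ⟨q1, q2, q3, q4⟩ := E4 hm
  unfold upd
  split_ifs with h1 h2 h3 h4
  · simp only [Bool.and_eq_true] at h1
    exact Kn_or h (q1 (h _ h1.1.1) (h _ h1.1.2) (h _ h1.2))
  · simp only [Bool.and_eq_true] at h2
    exact Kn_or h (q2 (h _ h2.1.1) (h _ h2.1.2) (h _ h2.2))
  · simp only [Bool.and_eq_true] at h3
    exact Kn_or h (q3 (h _ h3.1.1) (h _ h3.1.2) (h _ h3.2))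
  · simp only [Bool.and_eq_true] at h4
    exact Kn_or h (q4 (h _ h4.1.1) (h _ h4.1.2) (h _ h4.2))
  · exact h

theorem Kn_fold {g : ℕ → Bool} (hg : ∀ m ∈ bases, g m = E (g (m + 10)) (g (m + 11)) (g (m + 12))) :
    ∀ (l : List ℕ), (∀ m ∈ l, m ∈ bases) → ∀ k, Kn g k → Kn g (l.foldl upd k) := by
  intro l
  induction l with
  | nil => intro _ k h; exact h
  | cons m l ih =>
    intro hl k h
    rw [List.foldl_cons]
    exact ih (fun m' hm' => hl m' (List.mem_cons_of_mem _ hm')) _
      (Kn_upd h (hg m (hl m List.mem_cons_self)))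

theorem Kn_clos {g : ℕ → Bool} (hg : ∀ m ∈ bases, g m = E (g (m + 10)) (g (m + 11)) (g (m + 12))) :
    ∀ n k, Kn g k → Kn g (clos n k) := by
  intro n
  induction n with
  | zero => intro k h; exact h
  | succ n ih => intro k h; exact ih _ (Kn_fold hg bases (fun _ h => h) k h)

/-- The known cells of the patch. -/
def FF : ℕ := 935398882617

/-- The cells of the patch outside a set of cells. -/
def rem (k p : ℕ) : ℕ := k ^^^ (k &&& p)

theorem rem_testBit (k p m : ℕ) : (rem k p).testBit m = (k.testBit m && !p.testBit m) := by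
  unfold rem
  rw [Nat.testBit_xor, Nat.testBit_and]
  cases k.testBit m <;> cases p.testBit m <;> rfl

theorem nuc_check : ∀ p < 40, ∀ i < 9, (clos 6 (rem FF (2 ^ p))).testBit (20 + i) = true := by
  decide +kernel

theorem nuc_check2 : ∀ i < 9, (clos 6 (rem FF (2 ^ 19 + 2 ^ 39))).testBit (20 + i) = true := by
  decide +kernel

theorem FF_row : ∀ q : Bool, ∀ m < 40, FF.testBit m = true →
    (msk q 1 (m / 10)).testBit (m % 10) = true := by
  decide +kernel

theorem FF_lt : ∀ m, FF.testBit m = true → m < 40 := by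
  intro m hm
  by_contra h
  rw [Nat.testBit_lt_two_pow (x := FF) (i := m)] at hm
  · exact Bool.noConfusion hm
  · calc FF < 2 ^ 40 := by decide
      _ ≤ 2 ^ m := Nat.pow_le_pow_right (by norm_num) (by omega)

theorem two_bits : ∀ m < 40, (2 ^ 19 + 2 ^ 39 : ℕ).testBit m = true → m = 19 ∨ m = 39 := by
  decide +kernel

theorem col8 : ∀ m < 40, FF.testBit m = true → m % 10 = 9 → m = 19 ∨ m = 39 := by
  decide +kernel

theorem bases_ok : ∀ m ∈ bases, m < 30 ∧ m % 10 < 8 := by decide

/-- The nucleus: row `N + 2` is zero on the strip. -/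
theorem Ctx.nucleus {s u v K : ℕ} (C : Ctx s u v K) (i : ℕ) (hi : i < 9) :
    zc v K (2 ^ s + 2) (2 * 2 ^ s - 1 + i) = false := by
  obtain ⟨hN, hN16, hv, hvo⟩ := C.num
  have hNz : (16 : ℤ) ≤ 2 ^ s := by exact_mod_cast hN
  have hvz : 3 * (2 : ℤ) ^ s ≤ v + 1 := by exact_mod_cast hv
  set g : ℕ → Bool := fun m => zc v K (2 ^ s + (m / 10 : ℕ)) (2 * 2 ^ s - 1 + (m % 10 : ℕ)) with hg
  have hrec : ∀ m ∈ bases, g m = E (g (m + 10)) (g (m + 11)) (g (m + 12)) := by
    intro m hm
    obtain ⟨h1, h2⟩ := bases_ok m hm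
    have h3 := zc_rec v (K := (K : ℤ)) (t := 2 ^ s + (m / 10 : ℕ)) (c := 2 * 2 ^ s - 1 + (m % 10 : ℕ))
      (C.ltK (by omega) (by omega)).ne
    simp only [hg]
    have a1 : (m + 10) / 10 = m / 10 + 1 := by omega
    have a2 : (m + 10) % 10 = m % 10 := by omega
    have a3 : (m + 11) / 10 = m / 10 + 1 := by omega
    have a4 : (m + 11) % 10 = m % 10 + 1 := by omega
    have a5 : (m + 12) / 10 = m / 10 + 1 := by omega
    have a6 : (m + 12) % 10 = m % 10 + 2 := by omega
    rw [a1, a2, a3, a4, a5, a6, h3]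
    push_cast
    congr 2 <;> ring
  -- the cells of the patch are known cells
  have hf : ∀ m < 40, FF.testBit m = true →
      cel v (2 ^ s + (m / 10 : ℕ)) (2 * 2 ^ s - 1 + (m % 10 : ℕ)) = true := by
    intro m hm hF
    exact C.stripf (b := 1) (o := m / 10) (i := m % 10) (by omega) (by omega) (by omega)
      (FF_row _ m hm hF) (by push_cast; ring) rfl
  have fin : ∀ k, Kn g k → k.testBit (20 + i) = true →
      zc v K (2 ^ s + 2) (2 * 2 ^ s - 1 + i) = false := by
    intro k hk hki
    have := hk _ hki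
    simp only [hg] at this
    have a1 : (20 + i) / 10 = 2 := by omega
    have a2 : (20 + i) % 10 = i := by omega
    rw [a1, a2] at this
    exact_mod_cast this
  by_cases hex : ∃ p < 40, FF.testBit p = true ∧ p % 10 < 9 ∧ g p = true
  · obtain ⟨p, hp, hFp, hp9, hgp⟩ := hex
    refine fin _ (Kn_clos hrec 6 _ ?_) (nuc_check p hp i hi)
    intro m hm
    rw [rem_testBit, Nat.testBit_two_pow] at hm
    simp only [Bool.and_eq_true, Bool.not_eq_true', decide_eq_false_iff_not] at hm
    have hm40 := FF_lt m hm.1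
    by_contra hz
    have hz' : g m = true := by simpa using hz
    have hlow : 2 * (2 * ((2 : ℤ) ^ s + (p / 10 : ℕ)) + v * (2 * 2 ^ s - 1 + (p % 10 : ℕ))) < K :=
      C.low7 (by omega) (by omega)
    have hne : 2 * ((2 : ℤ) ^ s + (p / 10 : ℕ)) + v * (2 * 2 ^ s - 1 + (p % 10 : ℕ)) ≠
        2 * ((2 : ℤ) ^ s + (m / 10 : ℕ)) + v * (2 * 2 ^ s - 1 + (m % 10 : ℕ)) := by
      apply pos_ne
      · omega
      · omega
      · omega
    apply hne
    apply C.uniq (hf p hp hFp) hgp (hf m hm40 hm.1) hz' hlow.ne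
    · by_cases h9 : m % 10 = 9
      · rcases col8 m hm40 hm.1 h9 with h | h
        · intro he
          apply C.hX (2 ^ s + 1) (by omega) (by omega)
          rw [h] at he
          norm_num at he
          have : (K : ℤ) = ((2 * (2 * (2 ^ s + 1)) + v * (4 * 2 ^ s + 16) : ℕ) : ℤ) := by
            push_cast
            linarith
          exact_mod_cast this
        · intro he
          apply C.hX (2 ^ s + 3) (by omega) (by omega)
          rw [h] at he
          norm_num at he
          have : (K : ℤ) = ((2 * (2 * (2 ^ s + 3)) + v * (4 * 2 ^ s + 16) : ℕ) : ℤ) := by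
            push_cast
            linarith
          exact_mod_cast this
      · exact (C.low7 (by omega) (by omega)).ne
    · -- the sum is not `K`
      intro he
      have e1 : (v : ℤ) * (2 * 2 ^ s - 1 + (p % 10 : ℕ)) + v * (2 * 2 ^ s - 1 + (m % 10 : ℕ)) =
          v * (4 * 2 ^ s - 2 + ((p % 10 + m % 10 : ℕ) : ℤ)) := by push_cast; ring
      have hposK := C.posK
      rcases Nat.lt_or_ge (p % 10 + m % 10) 17 with h17 | h17
      · have e2 : (v : ℤ) * (4 * 2 ^ s - 2 + ((p % 10 + m % 10 : ℕ) : ℤ)) ≤ v * (4 * 2 ^ s - 2 + 16) :=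
          mul_le_mul_of_nonneg_left (by omega) (by omega)
        have e3 : (4 * (2 : ℤ) ^ s + 16) * v = v * (4 * 2 ^ s - 2 + 16) + 2 * v := by ring
        omega
      · have e2 : p % 10 + m % 10 = 17 := by omega
        rw [e2] at e1
        have hKodd : K % 2 = 1 := by
          have e4 : (v : ℤ) * (4 * 2 ^ s - 2 + ((17 : ℕ) : ℤ)) = 2 * (v * (2 * 2 ^ s + 7)) + v := by
            push_cast; ring
          omega
        have h5 := C.hodd hKodd
        have h6 : (4 * (2 : ℤ) ^ s + 17) * v ≤ K := by exact_mod_cast h5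
        have e5 : (4 * (2 : ℤ) ^ s + 17) * v = v * (4 * 2 ^ s - 2 + ((17 : ℕ) : ℤ)) + 2 * v := by
          push_cast; ring
        omega
  · push Not at hex
    refine fin _ (Kn_clos hrec 6 _ ?_) (nuc_check2 i hi)
    intro m hm
    rw [rem_testBit] at hm
    simp only [Bool.and_eq_true, Bool.not_eq_true'] at hm
    have hm40 := FF_lt m hm.1
    by_contra hz
    have hz' : g m = true := by simpa using hz
    by_cases h9 : m % 10 < 9
    · exact hex m hm40 hm.1 h9 hz'
    · rcases col8 m hm40 hm.1 (by omega) with h | h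
      · rw [h] at hm
        exact absurd hm.2 (by decide +kernel)
      · rw [h] at hm
        exact absurd hm.2 (by decide +kernel)

end Pool.Agent.H65.Um.LT
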