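import Pool.Agent.H65.Um.LateB

/-!
# `U(4, v)`, late part: from the nucleus to row `2 N`
-/

set_option autoImplicit false

namespace Pool.Agent.H65.Um.LT

open Pool.Agent.H65.Ul

/-- Three neighbours: two of them are zero. -/
theorem Ctx.three {s u v K : ℕ} (C : Ctx s u v K) {t c : ℤ} (f0 : cel v t c = true)
    (f1 : cel v t (c + 1) = true) (f2 : cel v t (c + 2) = true) (ht : t < v)
    (hc : c + 2 ≤ 2 * 2 ^ s + 6) :
    (zc v K t c = false ∧ zc v K t (c + 1) = false) ∨
    (zc v K t c = false ∧ zc v K t (c + 2) = false) ∨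
    (zc v K t (c + 1) = false ∧ zc v K t (c + 2) = false) := by
  obtain ⟨hN, _, hv, _⟩ := C.num
  have hv5 : (5 : ℤ) < v := by omega
  have l0 := C.low6 (t := t) (c := c) ht (by omega)
  have l1 := C.low6 (t := t) (c := c + 1) ht (by omega)
  have l2 := C.low6 (t := t) (c := c + 2) ht (by omega)
  have p01 : zc v K t c = true → zc v K t (c + 1) = false := fun z =>
    C.other f0 z f1 l0 l1 (by omega) (by omega) (by omega)
  have p02 : zc v K t c = true → zc v K t (c + 2) = false := fun z =>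
    C.other f0 z f2 l0 l2 (by omega) (by omega) (by omega)
  have p12 : zc v K t (c + 1) = true → zc v K t (c + 2) = false := fun z =>
    C.other f1 z f2 l1 l2 (by omega) (by omega) (by omega)
  revert p01 p02 p12
  generalize zc v K t c = a
  generalize zc v K t (c + 1) = b
  generalize zc v K t (c + 2) = d
  revert a b d
  decide

/-- Two neighbours, with the help of the next row. -/
theorem Ctx.pair {s u v K : ℕ} (C : Ctx s u v K) {t c : ℤ} (f0 : cel v t c = true)
    (f1 : cel v t (c + 1) = true) (g0 : cel v (t + 1) c = true)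
    (g3 : cel v (t + 1) (c + 3) = true) (ht : t + 1 < v) (hc : c + 1 ≤ 2 * 2 ^ s + 5)
    (hne : 2 * (2 * (t + 1) + v * (c + 3)) ≠ K) :
    zc v K t c = false ∧ zc v K t (c + 1) = false := by
  obtain ⟨hN, _, hv, _⟩ := C.num
  have hv5 : (5 : ℤ) < v := by omega
  have l0 := C.low6 (t := t) (c := c) (by omega) (by omega)
  have l1 := C.low6 (t := t) (c := c + 1) (by omega) (by omega)
  have m0 := C.low6 (t := t + 1) (c := c) (by omega) (by omega)
  have hK := C.posK
  have e1 : (v : ℤ) * (c + 1) = v * c + v := by ring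
  have e3 : (v : ℤ) * (c + 3) = v * c + 3 * v := by ring
  have e4 : (v : ℤ) * c ≤ v * (2 * 2 ^ s + 4) := mul_le_mul_of_nonneg_left (by omega) (by omega)
  have e5 : (4 * (2 : ℤ) ^ s + 16) * v = 2 * (v * (2 * 2 ^ s + 4)) + 8 * v := by ring
  have r0 := zc_rec v (K := (K : ℤ)) (t := t) (c := c) (by omega)
  have r1 := zc_rec v (K := (K : ℤ)) (t := t) (c := c + 1) (by omega)
  have a2 : c + 1 + 1 = c + 2 := by ring
  have a3 : c + 1 + 2 = c + 3 := by ring
  rw [a2, a3] at r1
  have p01 : zc v K t c = true → zc v K t (c + 1) = false := fun z =>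
    C.other f0 z f1 l0 l1 (by omega) (by omega) (by omega)
  have q0 : zc v K t c = true → zc v K (t + 1) c = false := fun z =>
    C.other f0 z g0 l0 m0 (by omega) (by omega) (by omega)
  have q1 : zc v K t (c + 1) = true → zc v K (t + 1) c = false := fun z =>
    C.other f1 z g0 l1 m0 (by omega) (by omega) (by omega)
  have q2 : zc v K t c = true → zc v K (t + 1) (c + 3) = false := by
    intro z
    by_contra hz
    have := C.uniq f0 z g3 (by simpa using hz) l0.ne hne (by omega)
    omega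
  have q3 : zc v K t (c + 1) = true → zc v K (t + 1) (c + 3) = false := by
    intro z
    by_contra hz
    have := C.uniq f1 z g3 (by simpa using hz) l1.ne hne (by omega)
    omega
  revert r0 r1 p01 q0 q1 q2 q3
  generalize zc v K t c = a
  generalize zc v K t (c + 1) = b
  generalize zc v K (t + 1) c = d
  generalize zc v K (t + 1) (c + 1) = e
  generalize zc v K (t + 1) (c + 2) = f
  generalize zc v K (t + 1) (c + 3) = g
  revert a b d e f g
  decide

/-- Direct pairs around a middle cell in column `2 N + 7`. -/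
theorem Ctx.direct {s u v K : ℕ} (C : Ctx s u v K) {t d e : ℤ}
    (hK2 : (K : ℤ) = 2 * (2 * t + v * (2 * 2 ^ s + 7))) (hd : 0 < d) (he : d < e)
    (f1 : cel v (t - d) (2 * 2 ^ s + 7) = true) (f2 : cel v (t + d) (2 * 2 ^ s + 7) = true)
    (f3 : cel v (t - e) (2 * 2 ^ s + 7) = true) (f4 : cel v (t + e) (2 * 2 ^ s + 7) = true) :
    False := by
  apply C.hT
  have h1 : (K : ℤ) - (2 * (t - d) + v * (2 * 2 ^ s + 7)) =
      2 * (t + d) + v * (2 * 2 ^ s + 7) := by rw [hK2]; ring
  have h2 : (K : ℤ) - (2 * (t - e) + v * (2 * 2 ^ s + 7)) =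
      2 * (t + e) + v * (2 * 2 ^ s + 7) := by rw [hK2]; ring
  refine two_lo (2 * (t - d) + v * (2 * 2 ^ s + 7)) (2 * (t - e) + v * (2 * 2 ^ s + 7)) f1
    (by rw [h1]; exact f2) f3 (by rw [h2]; exact f4) (by omega) (by omega) (by omega)

theorem m_odd : ∀ q : Bool, ∀ w < 20, w % 2 = 1 → ∀ i < 3,
    ((tab q 1 >>> (10 * w)) % 1024).testBit i = true := by decide +kernel

theorem m_zero : ∀ q : Bool, ∀ w < 20, w % 4 = 0 → 8 ≤ w → ∀ i < 7, 4 ≤ i →
    ((tab q 1 >>> (10 * w)) % 1024).testBit i = true := by decide +kernel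

theorem m_two : ∀ q : Bool, ∀ w < 20, w % 4 = 2 → 6 ≤ w → ∀ i < 7, 5 ≤ i →
    ((tab q 1 >>> (10 * w)) % 1024).testBit i = true := by decide +kernel

theorem m_three : ∀ q : Bool, ∀ w < 20, w % 4 = 3 → 11 ≤ w →
    ((tab q 1 >>> (10 * w)) % 1024).testBit 5 = true ∧
    ((tab q 1 >>> (10 * w)) % 1024).testBit 8 = true := by decide +kernel

theorem m_six : ∀ q : Bool, ((tab q 1 >>> (10 * 6)) % 1024).testBit 7 = true := by decide +kernel

theorem m_four : ∀ q : Bool, ((tab q 1 >>> (10 * 4)) % 1024).testBit 4 = true ∧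
    ((tab q 1 >>> (10 * 4)) % 1024).testBit 5 = true ∧
    ((tab q 1 >>> (10 * 5)) % 1024).testBit 4 = true ∧
    ((tab q 1 >>> (10 * 5)) % 1024).testBit 7 = true := by decide +kernel

theorem m2_zero : ∀ q : Bool, ∀ i < 7, 4 ≤ i →
    ((tab q 2 >>> (10 * 0)) % 1024).testBit i = true := by decide +kernel

theorem m2_three : ∀ q : Bool, ∀ w < 20, w % 4 = 3 →
    ((tab q 2 >>> (10 * w)) % 1024).testBit 8 = true := by decide +kernel

theorem m_small : ∀ q : Bool, ((tab q 1 >>> (10 * 3)) % 1024).testBit 8 = true ∧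
    ((tab q 1 >>> (10 * 6)) % 1024).testBit 8 = true ∧
    ((tab q 2 >>> (10 * 0)) % 1024).testBit 8 = true := by decide +kernel

/-- Known cells in block 1. -/
theorem Ctx.blk1 {s u v K : ℕ} (C : Ctx s u v K) {o i : ℕ} (ho : o < 2 ^ s) (hi : i < 10)
    (hm : ((tab (decide (u = 3)) 1 >>> (10 * co o)) % 1024).testBit i = true) {t c : ℤ}
    (ht : t = 2 ^ s + o) (hc : c = 2 * 2 ^ s - 1 + i) : cel v t c = true := by
  obtain ⟨hN, _, hv, _⟩ := C.num
  exact C.stripf (b := 1) (o := o) (i := i) ho (by omega) hi hm (by rw [ht]; push_cast; ring) hc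

/-- Known cells in block 2. -/
theorem Ctx.blk2 {s u v K : ℕ} (C : Ctx s u v K) {o i : ℕ} (ho : o + 1 < 2 ^ s) (hi : i < 10)
    (hm : ((tab (decide (u = 3)) 2 >>> (10 * co o)) % 1024).testBit i = true) {t c : ℤ}
    (ht : t = 2 * 2 ^ s + o) (hc : c = 2 * 2 ^ s - 1 + i) : cel v t c = true := by
  obtain ⟨hN, _, hv, _⟩ := C.num
  exact C.stripf (b := 2) (o := o) (i := i) (by omega) (by omega) hi hm
    (by rw [ht]; push_cast; ring) hc

theorem co_lt (o : ℕ) : co o < 20 := by unfold co; split_ifs <;> omega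

theorem co_mod (o : ℕ) : co o % 4 = o % 4 := by
  unfold co; split_ifs <;> omega

theorem co_ge {o k : ℕ} (h : k ≤ o) (hk : k ≤ 16) : k ≤ co o := by unfold co; split_ifs <;> omega

/-- Column `2 N + 7`, rows `N + o` with `o = 3 mod 4`. -/
theorem Ctx.col7 {s u v K : ℕ} (C : Ctx s u v K) {o : ℕ} (ho : 11 ≤ o) (h3 : o % 4 = 3)
    (h2 : o + 1 < 2 * 2 ^ s) {t : ℤ} (ht : t = 2 ^ s + o) : cel v t (2 * 2 ^ s + 7) = true := by
  obtain ⟨hN, h16, hv, _⟩ := C.num
  rcases Nat.lt_or_ge o (2 ^ s) with h | h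
  · exact C.blk1 (o := o) (i := 8) h (by norm_num)
      (m_three _ (co o) (co_lt o) (by rw [co_mod]; exact h3) (co_ge ho (by norm_num))).2 ht
      (by push_cast; ring)
  · exact C.blk2 (o := o - 2 ^ s) (i := 8) (by omega) (by norm_num)
      (m2_three _ _ (co_lt _) (by rw [co_mod]; omega))
      (by rw [ht]; push_cast [Nat.cast_sub h]; ring) (by push_cast; ring)

/-- The exceptional sums in the flow. -/
theorem Ctx.excl {s u v K : ℕ} (C : Ctx s u v K) {o : ℕ} (ho : 11 ≤ o) (h3 : o % 4 = 3)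
    (hoN : o < 2 ^ s) {t : ℤ} (ht : t = 2 ^ s + o) :
    2 * (2 * t + v * (2 * 2 ^ s + 7)) ≠ (K : ℤ) := by
  intro hK2
  obtain ⟨hN, h16, hv, hvo⟩ := C.num
  have hposK := C.posK
  have e5 : (4 * (2 : ℤ) ^ s + 16) * v = 2 * (v * (2 * 2 ^ s + 7)) + 2 * v := by ring
  have hNz : ((2 ^ s : ℕ) : ℤ) = 2 ^ s := by push_cast; ring
  have h4 : (v : ℤ) ≤ 2 * t := by omega
  -- `v = 3 N - 1` here
  have hu : 2 ^ s ≤ 2 * o + 1 := by omega
  rcases Nat.lt_or_ge 16 (2 ^ s) with hbig | hsmall
  · have ho19 : 19 ≤ o := by omega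
    exact C.direct (t := t) (d := 4) (e := 8) hK2.symm (by norm_num) (by norm_num)
      (C.col7 (o := o - 4) (by omega) (by omega) (by omega) (by rw [ht]; omega))
      (C.col7 (o := o + 4) (by omega) (by omega) (by omega) (by rw [ht]; push_cast; ring))
      (C.col7 (o := o - 8) (by omega) (by omega) (by omega) (by rw [ht]; omega))
      (C.col7 (o := o + 8) (by omega) (by omega) (by omega) (by rw [ht]; push_cast; ring))
  · have hN16 : 2 ^ s = 16 := by omega
    have hco : ∀ k, k < 20 → co k = k := by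
      intro k hk; unfold co; rw [if_pos hk]
    rcases (by omega : o = 11 ∨ o = 15) with h | h
    · subst h
      refine C.direct (t := t) (d := 5) (e := 8) hK2.symm (by norm_num) (by norm_num) ?_ ?_ ?_ ?_
      · exact C.blk1 (o := 6) (i := 8) (by omega) (by norm_num)
          (by rw [hco 6 (by norm_num)]; exact (m_small _).2.1) (by rw [ht]; push_cast; ring)
          (by push_cast; ring)
      · exact C.blk2 (o := 0) (i := 8) (by omega) (by norm_num)
          (by rw [hco 0 (by norm_num)]; exact (m_small _).2.2) (by rw [ht]; omega)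
          (by push_cast; ring)
      · exact C.blk1 (o := 3) (i := 8) (by omega) (by norm_num)
          (by rw [hco 3 (by norm_num)]; exact (m_small _).1) (by rw [ht]; push_cast; ring)
          (by push_cast; ring)
      · exact C.col7 (o := 19) (by omega) (by omega) (by omega) (by rw [ht]; push_cast; ring)
    · subst h
      refine C.direct (t := t) (d := 4) (e := 12) hK2.symm (by norm_num) (by norm_num) ?_ ?_ ?_ ?_
      · exact C.col7 (o := 11) (by omega) (by omega) (by omega) (by rw [ht]; push_cast; ring)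
      · exact C.col7 (o := 19) (by omega) (by omega) (by omega) (by rw [ht]; push_cast; ring)
      · exact C.blk1 (o := 3) (i := 8) (by omega) (by norm_num)
          (by rw [hco 3 (by norm_num)]; exact (m_small _).1) (by rw [ht]; push_cast; ring)
          (by push_cast; ring)
      · exact C.col7 (o := 27) (by omega) (by omega) (by omega) (by rw [ht]; push_cast; ring)

/-- One step of the flow. -/
theorem Ctx.step {s u v K : ℕ} (C : Ctx s u v K) {o : ℕ} (ho : 3 ≤ o) (hoN : o ≤ 2 ^ s)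
    (h : ∀ i : ℕ, i < 9 → zc v K (2 ^ s + o - 1) (2 * 2 ^ s - 1 + i) = false) :
    ∀ i : ℕ, i < 9 → zc v K (2 ^ s + o) (2 * 2 ^ s - 1 + i) = false := by
  obtain ⟨hN, h16, hv, hvo⟩ := C.num
  have hNz : ((2 ^ s : ℕ) : ℤ) = 2 ^ s := by push_cast; ring
  set g : ℕ → Bool := fun i => zc v K (2 ^ s + o) (2 * 2 ^ s - 1 + i) with hg
  have hrec : ∀ i, i < 9 → E (g i) (g (i + 1)) (g (i + 2)) = false := by
    intro i hi
    have h1 := zc_rec v (K := (K : ℤ)) (t := 2 ^ s + o - 1) (c := 2 * 2 ^ s - 1 + i)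
      (C.ltK (by omega) (by omega)).ne
    rw [h i hi] at h1
    simp only [hg]
    rw [eq_comm, h1]
    push_cast
    congr 2 <;> ring
  have key : ∀ i j : ℕ, g i = false → g j = false → i < j → j ≤ i + 2 → j < 9 →
      ∀ i : ℕ, i < 9 → zc v K (2 ^ s + o) (2 * 2 ^ s - 1 + i) = false := by
    intro i j hi hj hij hji hj9 m hm
    exact dense hrec hi hj hij hji (by omega) (by norm_num) m (by omega)
  -- from three known cells
  have three : ∀ i : ℕ, i < 6 → (∀ k : ℕ, i ≤ k → k ≤ i + 2 →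
      cel v (2 ^ s + o) (2 * 2 ^ s - 1 + k) = true) →
      ∀ i : ℕ, i < 9 → zc v K (2 ^ s + o) (2 * 2 ^ s - 1 + i) = false := by
    intro i hi hf
    have e1 : (2 * (2 : ℤ) ^ s - 1 + i) + 1 = 2 * 2 ^ s - 1 + ((i + 1 : ℕ) : ℤ) := by
      push_cast; ring
    have e2 : (2 * (2 : ℤ) ^ s - 1 + i) + 2 = 2 * 2 ^ s - 1 + ((i + 2 : ℕ) : ℤ) := by
      push_cast; ring
    have := C.three (t := 2 ^ s + o) (c := 2 * 2 ^ s - 1 + i) (hf i (by omega) (by omega))
      (by rw [e1]; exact hf _ (by omega) (by omega)) (by rw [e2]; exact hf _ (by omega) (by omega))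
      (by omega) (by omega)
    rw [e1, e2] at this
    rcases this with ⟨a, b⟩ | ⟨a, b⟩ | ⟨a, b⟩
    · exact key i (i + 1) a b (by omega) (by omega) (by omega)
    · exact key i (i + 2) a b (by omega) (by omega) (by omega)
    · exact key (i + 1) (i + 2) a b (by omega) (by omega) (by omega)
  -- from a pair and the next row
  have pr : ∀ i : ℕ, i < 6 → cel v (2 ^ s + o) (2 * 2 ^ s - 1 + i) = true →
      cel v (2 ^ s + o) (2 * 2 ^ s - 1 + (i + 1 : ℕ)) = true →
      cel v (2 ^ s + (o + 1 : ℕ)) (2 * 2 ^ s - 1 + i) = true →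
      cel v (2 ^ s + (o + 1 : ℕ)) (2 * 2 ^ s - 1 + (i + 3 : ℕ)) = true →
      2 * (2 * ((2 : ℤ) ^ s + (o + 1 : ℕ)) + v * (2 * 2 ^ s - 1 + (i + 3 : ℕ))) ≠ K →
      ∀ i : ℕ, i < 9 → zc v K (2 ^ s + o) (2 * 2 ^ s - 1 + i) = false := by
    intro i hi a1 a2 a3 a4 a5
    have e1 : (2 * (2 : ℤ) ^ s - 1 + i) + 1 = 2 * 2 ^ s - 1 + ((i + 1 : ℕ) : ℤ) := by
      push_cast; ring
    have e3 : (2 * (2 : ℤ) ^ s - 1 + i) + 3 = 2 * 2 ^ s - 1 + ((i + 3 : ℕ) : ℤ) := by
      push_cast; ring
    have e4 : (2 : ℤ) ^ s + o + 1 = 2 ^ s + ((o + 1 : ℕ) : ℤ) := by push_cast; ring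
    have := C.pair (t := 2 ^ s + o) (c := 2 * 2 ^ s - 1 + i) a1 (by rw [e1]; exact a2)
      (by rw [e4]; exact a3) (by rw [e4, e3]; exact a4) (by omega) (by omega)
      (by rw [e4, e3]; exact a5)
    rw [e1] at this
    exact key i (i + 1) this.1 this.2 (by omega) (by omega) (by omega)
  rcases Nat.eq_or_lt_of_le hoN with hoe | hlt
  · -- row `2 N`
    apply three 4 (by norm_num)
    intro k hk1 hk2
    exact C.blk2 (o := 0) (i := k) (by omega) (by omega)
      (by
        have : co 0 = 0 := rfl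
        rw [this]; exact m2_zero _ k (by omega) hk1)
      (by rw [hoe]; push_cast; ring) rfl
  have hlt1 := co_lt o
  have hmod := co_mod o
  rcases Nat.mod_two_eq_zero_or_one o with h2 | h2
  swap
  · -- odd offset
    apply three 0 (by norm_num)
    intro k hk1 hk2
    exact C.blk1 (o := o) (i := k) hlt (by omega)
      (m_odd _ (co o) hlt1 (by omega) k (by omega)) rfl rfl
  rcases (by omega : o % 4 = 0 ∨ o % 4 = 2) with h4 | h4
  · by_cases h5 : o = 4
    · subst h5
      have c4 : co 4 = 4 := rfl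
      have c5 : co 5 = 5 := rfl
      have m4 := m_four (decide (u = 3))
      apply pr 4 (by norm_num)
      · exact C.blk1 (o := 4) (i := 4) hlt (by norm_num) (by rw [c4]; exact m4.1) rfl rfl
      · exact C.blk1 (o := 4) (i := 5) hlt (by norm_num) (by rw [c4]; exact m4.2.1) rfl rfl
      · exact C.blk1 (o := 5) (i := 4) (by omega) (by norm_num) (by rw [c5]; exact m4.2.2.1)
          rfl rfl
      · exact C.blk1 (o := 5) (i := 7) (by omega) (by norm_num) (by rw [c5]; exact m4.2.2.2)
          rfl rfl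
      · exact (C.low6 (by omega) (by omega)).ne
    · apply three 4 (by norm_num)
      intro k hk1 hk2
      exact C.blk1 (o := o) (i := k) hlt (by omega)
        (m_zero _ (co o) hlt1 (by omega) (co_ge (by omega) (by norm_num)) k (by omega) hk1) rfl rfl
  · by_cases h5 : o = 6
    · subst h5
      have c6 : co 6 = 6 := rfl
      apply three 5 (by norm_num)
      intro k hk1 hk2
      rcases Nat.lt_or_ge k 7 with h7 | h7
      · exact C.blk1 (o := 6) (i := k) hlt (by omega)
          (by rw [c6]; exact m_two _ 6 (by norm_num) (by norm_num) (by norm_num) k h7 hk1) rfl rfl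
      · have hk7 : k = 7 := by omega
        subst hk7
        exact C.blk1 (o := 6) (i := 7) hlt (by omega) (by rw [c6]; exact m_six _) rfl rfl
    · have h10 : 10 ≤ o := by omega
      have hl1 := co_lt (o + 1)
      have hm1 := co_mod (o + 1)
      have hg1 : 11 ≤ co (o + 1) := co_ge (by omega) (by norm_num)
      have m3 := m_three (decide (u = 3)) (co (o + 1)) hl1 (by omega) hg1
      apply pr 5 (by norm_num)
      · exact C.blk1 (o := o) (i := 5) hlt (by norm_num)
          (m_two _ _ hlt1 (by omega) (co_ge (by omega) (by norm_num)) 5 (by norm_num) le_rfl) rfl rfl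
      · exact C.blk1 (o := o) (i := 6) hlt (by norm_num)
          (m_two _ _ hlt1 (by omega) (co_ge (by omega) (by norm_num)) 6 (by norm_num)
            (by norm_num)) rfl rfl
      · exact C.blk1 (o := o + 1) (i := 5) (by omega) (by norm_num) m3.1 rfl rfl
      · exact C.blk1 (o := o + 1) (i := 8) (by omega) (by norm_num) m3.2 rfl rfl
      · have := C.excl (o := o + 1) (by omega) (by omega) (by omega) (t := 2 ^ s + (o + 1 : ℕ)) rfl
        have e : 2 * (2 : ℤ) ^ s - 1 + ((5 + 3 : ℕ) : ℤ) = 2 * 2 ^ s + 7 := by push_cast; ring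
        rw [e]; exact this

/-- The strip of the rows `N + 2, ..., 2 N`. -/
theorem Ctx.uflow {s u v K : ℕ} (C : Ctx s u v K) : ∀ o : ℕ, 2 ≤ o → o ≤ 2 ^ s →
    ∀ i : ℕ, i < 9 → zc v K (2 ^ s + o) (2 * 2 ^ s - 1 + i) = false := by
  intro o ho
  induction o, ho using Nat.le_induction with
  | base =>
    intro _ i hi
    exact_mod_cast C.nucleus i hi
  | succ o ho ih =>
    intro ho2
    apply C.step (by omega) ho2
    intro i hi
    have := ih (by omega) i hi
    have e : (2 : ℤ) ^ s + ((o + 1 : ℕ) : ℤ) - 1 = 2 ^ s + o := by push_cast; ring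
    rw [e]; exact this

end Pool.Agent.H65.Um.LT
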