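import Pool.Agent.H65.Um.LateC

/-!
# `U(4, v)`, late part: columns, lines and the covered cells
-/

set_option autoImplicit false

namespace Pool.Agent.H65.Um.LT

open Pool.Agent.H65.Ul

theorem E_ff (x : Bool) : E false false x = x := by cases x <;> rfl

theorem E_xff (x : Bool) : E x false false = x := by cases x <;> rfl

/-- Cover at the end of block 1: rows `2 N - 2`, `2 N - 1`. -/
theorem Ctx.cov_end {s u v K : ℕ} (C : Ctx s u v K) {q : ℕ} (hq : 4 * q + 4 ≤ 2 * 2 ^ s) {c : ℕ}
    (hc : 4 * q ≤ c) (hc2 : c ≤ 4 * q + 2) : zc v K ((2 * 2 ^ s - 1 : ℕ) : ℤ) (c : ℤ) = false := by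
  obtain ⟨hN, h16, hv, hvo⟩ := C.num
  have hu := C.str.par.hu
  set t : ℕ := 2 * 2 ^ s - 2 with ht
  have et : (t : ℤ) + 1 = ((2 * 2 ^ s - 1 : ℕ) : ℤ) := by omega
  have f0 := C.str.four 2 t (4 * q) le_rfl (by omega) (by omega) (by omega) (by omega)
  have f1 := C.str.full 2 (2 * 2 ^ s - 1) (4 * q) le_rfl (by omega) (by omega) (by omega) (by omega)
  have f2 := C.str.full 2 (2 * 2 ^ s - 1) (4 * q + 1) le_rfl (by omega) (by omega) (by omega)
    (by omega)
  have f3 := C.str.full 2 (2 * 2 ^ s - 1) (4 * q + 2) le_rfl (by omega) (by omega) (by omega)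
    (by omega)
  have e1 : ((4 * q : ℕ) : ℤ) + 1 = ((4 * q + 1 : ℕ) : ℤ) := by push_cast; ring
  have e2 : ((4 * q : ℕ) : ℤ) + 2 = ((4 * q + 2 : ℕ) : ℤ) := by push_cast; ring
  have := C.cover (t := t) (c := ((4 * q : ℕ) : ℤ)) f0 (by rw [et]; exact f1)
    (by rw [et, e1]; exact f2) (by rw [et, e2]; exact f3)
    (C.low6 (by omega) (by
      have hNz : ((2 ^ s : ℕ) : ℤ) = 2 ^ s := by push_cast; ring
      omega))
  rw [et, e1, e2] at this
  obtain ⟨_, a, b, d⟩ := this
  rcases (by omega : c = 4 * q ∨ c = 4 * q + 1 ∨ c = 4 * q + 2) with h | h | h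
  · rw [h]; exact a
  · rw [h]; exact b
  · rw [h]; exact d

/-- Cover at the rows `2 ^ j - 2`, `2 ^ j - 1`. -/
theorem Ctx.cov_pow {s u v K : ℕ} (C : Ctx s u v K) {j c : ℕ} (hj : 2 ≤ j) (hjs : j ≤ s)
    (h1 : 2 ^ j ≤ c + 1) (h2 : c + 5 ≤ 2 * 2 ^ j) (h3 : c % 4 = 3) :
    zc v K ((2 ^ j - 1 : ℕ) : ℤ) (c : ℤ) = false := by
  obtain ⟨hN, h16, hv, hvo⟩ := C.num
  have hjN : 2 ^ j ≤ 2 ^ s := Nat.pow_le_pow_right (by norm_num) hjs
  have hj4 : 2 ^ 2 ≤ 2 ^ j := Nat.pow_le_pow_right (by norm_num) hj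
  set t : ℕ := 2 ^ j - 2 with ht
  have et : (t : ℤ) + 1 = ((2 ^ j - 1 : ℕ) : ℤ) := by omega
  have f0 := C.str.pre j t c hj hjs (by omega) (by omega) (by omega) h3
  have f1 := C.str.pow2 j (2 ^ j - 1) c hj hjs (by omega) (by omega) (by omega) (by omega)
  have f2 := C.str.pow2 j (2 ^ j - 1) (c + 1) hj hjs (by omega) (by omega) (by omega) (by omega)
  have f3 := C.str.pow2 j (2 ^ j - 1) (c + 2) hj hjs (by omega) (by omega) (by omega) (by omega)
  have e1 : (c : ℤ) + 1 = ((c + 1 : ℕ) : ℤ) := by push_cast; ring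
  have e2 : (c : ℤ) + 2 = ((c + 2 : ℕ) : ℤ) := by push_cast; ring
  have := C.cover (t := t) (c := (c : ℤ)) f0 (by rw [et]; exact f1)
    (by rw [et, e1]; exact f2) (by rw [et, e2]; exact f3)
    (C.low6 (by omega) (by
      have hNz : ((2 ^ s : ℕ) : ℤ) = 2 ^ s := by push_cast; ring
      omega))
  rw [et] at this
  exact this.2.1

/-- The columns. -/
theorem Ctx.colz {s u v K : ℕ} (C : Ctx s u v K) : ∀ d c : ℕ, c + d = 2 * 2 ^ s → ∀ t : ℕ,
    (c + 3) / 2 ≤ t → t ≤ 2 * 2 ^ s → zc v K (t : ℤ) (c : ℤ) = false := by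
  obtain ⟨hN, h16, hv, hvo⟩ := C.num
  have hNz : ((2 ^ s : ℕ) : ℤ) = 2 ^ s := by push_cast; ring
  intro d
  induction d using Nat.strong_induction_on with
  | _ d ih =>
    intro c hcd t ht1 ht2
    by_cases hd : d < 2
    · -- the last two columns
      rcases Nat.lt_or_ge t (2 ^ s + 2) with h | h
      · -- row `N + 1`, covered
        have htN : t = 2 ^ s + 1 := by omega
        have hco : ∀ k, k < 20 → co k = k := by
          intro k hk; unfold co; rw [if_pos hk]
        have b0 : (msk (decide (u = 3)) 1 0).testBit 0 = true :=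
          FF_row _ 0 (by norm_num) (by decide +kernel)
        have b10 : (msk (decide (u = 3)) 1 1).testBit 0 = true :=
          FF_row _ 10 (by norm_num) (by decide +kernel)
        have b11 : (msk (decide (u = 3)) 1 1).testBit 1 = true :=
          FF_row _ 11 (by norm_num) (by decide +kernel)
        have b12 : (msk (decide (u = 3)) 1 1).testBit 2 = true :=
          FF_row _ 12 (by norm_num) (by decide +kernel)
        have f0 : cel v ((2 : ℤ) ^ s) (2 * 2 ^ s - 1) = true :=
          C.stripf (b := 1) (o := 0) (i := 0) (by omega) (by omega) (by norm_num) b0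
            (by push_cast; ring) (by push_cast; ring)
        have f1 : cel v ((2 : ℤ) ^ s + 1) (2 * 2 ^ s - 1) = true :=
          C.stripf (b := 1) (o := 1) (i := 0) (by omega) (by omega) (by norm_num) b10
            (by push_cast; ring) (by push_cast; ring)
        have f2 : cel v ((2 : ℤ) ^ s + 1) (2 * 2 ^ s - 1 + 1) = true :=
          C.stripf (b := 1) (o := 1) (i := 1) (by omega) (by omega) (by norm_num) b11
            (by push_cast; ring) (by push_cast; ring)
        have f3 : cel v ((2 : ℤ) ^ s + 1) (2 * 2 ^ s - 1 + 2) = true :=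
          C.stripf (b := 1) (o := 1) (i := 2) (by omega) (by omega) (by norm_num) b12
            (by push_cast; ring) (by push_cast; ring)
        obtain ⟨_, a, b, _⟩ := C.cover f0 f1 f2 f3 (C.low6 (by omega) (by omega))
        have e : (t : ℤ) = 2 ^ s + 1 := by rw [htN]; push_cast; ring
        rcases (by omega : d = 0 ∨ d = 1) with h0 | h0
        · have e2 : (c : ℤ) = 2 * 2 ^ s - 1 + 1 := by omega
          rw [e, e2]; exact b
        · have e2 : (c : ℤ) = 2 * 2 ^ s - 1 := by omega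
          rw [e, e2]; exact a
      · have := C.uflow (t - 2 ^ s) (by omega) (by omega) (1 - d) (by omega)
        have e : (2 : ℤ) ^ s + ((t - 2 ^ s : ℕ) : ℤ) = t := by omega
        have e2 : (2 * (2 : ℤ) ^ s - 1 + ((1 - d : ℕ) : ℤ)) = c := by omega
        rw [e, e2] at this
        exact this
    · -- the column is constant
      have e1 : (c : ℤ) + 1 = ((c + 1 : ℕ) : ℤ) := by push_cast; ring
      have e2 : (c : ℤ) + 2 = ((c + 2 : ℕ) : ℤ) := by push_cast; ring
      have const : ∀ k t' : ℕ, t' + k = 2 * 2 ^ s → (c + 3) / 2 ≤ t' →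
          zc v K (t' : ℤ) (c : ℤ) = zc v K ((2 * 2 ^ s : ℕ) : ℤ) (c : ℤ) := by
        intro k
        induction k with
        | zero => intro t' h1 _; rw [show t' = 2 * 2 ^ s by omega]
        | succ k ihk =>
          intro t' h1 h2
          have h3 := zc_rec v (K := (K : ℤ)) (t := t') (c := c) (C.ltK (by omega) (by omega)).ne
          have e3 : (t' : ℤ) + 1 = ((t' + 1 : ℕ) : ℤ) := by push_cast; ring
          rw [e1, e2, e3, ih (d - 1) (by omega) (c + 1) (by omega) (t' + 1) (by omega) (by omega),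
            ih (d - 2) (by omega) (c + 2) (by omega) (t' + 1) (by omega) (by omega),
            E_xff] at h3
          rw [h3]
          exact ihk (t' + 1) (by omega) (by omega)
      rw [const (2 * 2 ^ s - t) t (by omega) ht1]
      by_cases h3 : c % 4 = 3
      · -- a power of two
        have hpos : c + 1 ≠ 0 := by omega
        set j := Nat.log 2 (c + 1) with hj
        have h4 : 2 ^ j ≤ c + 1 := Nat.pow_log_le_self 2 hpos
        have h5 : c + 1 < 2 ^ (j + 1) := Nat.lt_pow_succ_log_self (by norm_num) (c + 1)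
        have hj2 : 2 ≤ j := by
          by_contra hlt
          have : 2 ^ (j + 1) ≤ 2 ^ 2 := Nat.pow_le_pow_right (by norm_num) (by omega)
          omega
        have hjs : j ≤ s := by
          by_contra hlt
          have : 2 ^ (s + 1) ≤ 2 ^ j := Nat.pow_le_pow_right (by norm_num) (by omega)
          rw [pow_succ] at this
          omega
        have hj4 : 2 ^ j % 4 = 0 := by
          have : 2 ^ 2 ∣ 2 ^ j := pow_dvd_pow 2 hj2
          omega
        have hjN : 2 ^ j ≤ 2 ^ s := Nat.pow_le_pow_right (by norm_num) hjs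
        rw [pow_succ] at h5
        have := C.cov_pow hj2 hjs h4 (by omega) h3
        rw [← const (2 * 2 ^ s - (2 ^ j - 1)) (2 ^ j - 1) (by omega) (by omega)]
        exact this
      · have := C.cov_end (q := c / 4) (c := c) (by omega) (by omega) (by omega)
        rw [← const 1 (2 * 2 ^ s - 1) (by omega) (by omega)]
        exact this

/-- Lines. -/
theorem Ctx.line {s u v K : ℕ} (C : Ctx s u v K) {t : ℤ} {b : ℕ} (ht : t < v)
    (hb : b ≤ 2 * 2 ^ s + 7) (h : ∀ c : ℕ, c ≤ b → zc v K t (c : ℤ) = false) : ∀ k : ℕ,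
    (∀ c : ℕ, c + 2 * k ≤ b → zc v K (t - k) (c : ℤ) = false) ∧
    (∀ c : ℕ, c + 2 * k = b + 1 → zc v K (t - k) (c : ℤ) = zc v K t ((b + 1 : ℕ) : ℤ)) := by
  have hNz : ((2 ^ s : ℕ) : ℤ) = 2 ^ s := by push_cast; ring
  intro k
  induction k with
  | zero =>
    constructor
    · intro c hc
      have := h c (by omega)
      simpa using this
    · intro c hc
      have e : c = b + 1 := by omega
      rw [e]; simp
  | succ k ih =>
    have rc : ∀ c : ℕ, c ≤ b → zc v K (t - ((k + 1 : ℕ) : ℤ)) (c : ℤ) = E (zc v K (t - k) (c : ℤ))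
        (zc v K (t - k) ((c + 1 : ℕ) : ℤ)) (zc v K (t - k) ((c + 2 : ℕ) : ℤ)) := by
      intro c hc
      have h1 := zc_rec v (K := (K : ℤ)) (t := t - ((k + 1 : ℕ) : ℤ)) (c := c)
        (C.ltK (by omega) (by omega)).ne
      rw [h1]
      have e : t - ((k + 1 : ℕ) : ℤ) + 1 = t - k := by push_cast; ring
      rw [e]
      push_cast
      rfl
    constructor
    · intro c hc
      rw [rc c (by omega), ih.1 c (by omega), ih.1 (c + 1) (by omega), ih.1 (c + 2) (by omega)]
      rfl
    · intro c hc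
      rw [rc c (by omega), ih.1 c (by omega), ih.1 (c + 1) (by omega), ih.2 (c + 2) (by omega),
        E_ff]

/-- The first columns are covered. -/
theorem Ctx.covT {s u v K : ℕ} (C : Ctx s u v K) {t : ℕ} (h2 : 2 ≤ t) (he : t % 2 = 0)
    (hv1 : t + 1 ≤ v) : zc v K (t : ℤ) 0 = false ∧ zc v K ((t : ℤ) + 1) 0 = false ∧
      zc v K ((t : ℤ) + 1) 1 = false := by
  obtain ⟨hN, h16, hv, hvo⟩ := C.num
  have et : (t : ℤ) + 1 = ((t + 1 : ℕ) : ℤ) := by push_cast; ring
  have f0 := C.str.col0 t (by omega)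
  have f1 := C.str.col0 (t + 1) (by omega)
  have f2 := C.str.col1 (t + 1) (by omega) (by omega)
  have f3 := C.str.col2 (t + 1) (by omega) (by omega) (by omega)
  have hK := C.posK
  have e5 : (4 * (2 : ℤ) ^ s + 16) * v = 4 * (2 ^ s * v) + 16 * v := by ring
  have e6 : (0 : ℤ) ≤ 2 ^ s * v := by positivity
  have := C.cover (t := t) (c := 0) f0 (by rw [et]; exact f1) (by rw [et]; simpa using f2)
    (by rw [et]; simpa using f3) (by omega)
  obtain ⟨a, b, d, _⟩ := this
  exact ⟨a, b, by simpa using d⟩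

theorem Ctx.covT0 {s u v K : ℕ} (C : Ctx s u v K) {t : ℕ} (h2 : 2 ≤ t) (hv1 : t + 1 ≤ v) :
    zc v K (t : ℤ) 0 = false := by
  rcases Nat.mod_two_eq_zero_or_one t with h | h
  · exact (C.covT h2 h hv1).1
  · have := (C.covT (t := t - 1) (by omega) (by omega) (by omega)).2.1
    have e : ((t - 1 : ℕ) : ℤ) + 1 = t := by omega
    rwa [e] at this

theorem Ctx.covT1 {s u v K : ℕ} (C : Ctx s u v K) {t : ℕ} (h2 : 3 ≤ t) (ho : t % 2 = 1)
    (hv1 : t ≤ v) : zc v K (t : ℤ) 1 = false := by
  have := (C.covT (t := t - 1) (by omega) (by omega) (by omega)).2.2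
  have e : ((t - 1 : ℕ) : ℤ) + 1 = t := by omega
  rwa [e] at this

end Pool.Agent.H65.Um.LT
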