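import Pool.Agent.H65.Um.LateD

/-!
# `U(4, v)`, late part: the flow downwards
-/

set_option autoImplicit false

namespace Pool.Agent.H65.Um.LT

open Pool.Agent.H65.Ul

/-- Bit `i` of the row of class `w` in the block of class `B`. -/
def bt (q : Bool) (B w i : ℕ) : Bool := ((tab q B >>> (10 * w)) % 1024).testBit i

theorem bt_msk (q : Bool) (b o i : ℕ) : (msk q b o).testBit i = bt q (cb b) (co o) i := rfl

/-- The condition for the even rows of the blocks `2, 3, ...`. -/
def cnd (q : Bool) (B w B1 w1 B3 w3 : ℕ) : Bool :=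
  bt q B1 w1 4 || (bt q B w 7 && (bt q B1 w1 5 || bt q B3 w3 1))

theorem chk1 : ∀ q : Bool, ∀ B < 6, 2 ≤ B → ∀ w < 20, 4 ≤ w → w % 2 = 0 →
    (cnd q B w B (w - 1) B (w - 3) || (B == 3 && w == 4)) = true := by decide +kernel

theorem chk2 : ∀ q : Bool, ∀ B < 6, 2 ≤ B → cnd q B 16 B 19 B 17 = true ∧
    cnd q B 18 B 17 B 19 = true := by decide +kernel

theorem chk3 : ∀ q : Bool, ∀ B < 6, 2 ≤ B → (bt q B 1 4 || (bt q B 2 7 && bt q B 1 5)) = true := by
  decide +kernel

theorem chk4 : ∀ q : Bool, (cnd q 3 0 2 15 2 13 = true ∧ cnd q 3 0 2 19 2 17 = true) ∧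
    (cnd q 4 0 3 15 3 13 = true ∧ cnd q 4 0 3 19 3 17 = true) ∧
    (cnd q 5 0 4 15 4 13 = true ∧ cnd q 5 0 4 19 4 17 = true) ∧
    (cnd q 4 0 5 15 5 13 = true ∧ cnd q 4 0 5 19 5 17 = true) := by decide +kernel

theorem chk5 : ∀ q : Bool, ∀ B < 6, 2 ≤ B → ∀ w < 20, w % 2 = 0 → bt q B w 6 = true := by
  decide +kernel

theorem chk6 : ∀ q : Bool, bt q 3 3 6 = true ∧ bt q 3 3 7 = true ∧ bt q 3 2 6 = true ∧
    bt q 3 1 1 = true ∧ bt q 3 1 4 = true := by decide +kernel

theorem chk7 : ∀ q : Bool, (∀ w < 20, w % 2 = 1 → bt q 0 w 8 = true) ∧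
    (∀ w < 20, w % 2 = 1 → 7 ≤ w → bt q 0 w 9 = true) ∧
    (∀ w < 20, w % 2 = 0 → 2 ≤ w → bt q 0 w 3 = true) ∧
    bt q 1 1 8 = true ∧ bt q 1 1 9 = true := by decide +kernel

theorem chk8 : (∀ w < 20, w % 2 = 1 → bt false 0 w 9 = true) ∧ bt false 0 2 7 = true ∧
    bt false 0 0 7 = true := by decide +kernel

theorem chk9 : bt true 0 2 6 = true ∧ bt true 0 0 6 = true ∧ bt true 0 2 3 = true ∧
    bt true 0 3 8 = true ∧ bt true 0 4 8 = true ∧ bt true 0 4 9 = true ∧
    (∀ w < 20, 11 ≤ w → w % 4 = 3 → bt true 0 w 8 = true) ∧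
    (∀ w < 20, w % 4 = 0 → bt true 2 w 8 = true) := by decide +kernel

theorem cb_range {b : ℕ} (h : 2 ≤ b) : cb b < 6 ∧ 2 ≤ cb b := by
  unfold cb; split_ifs <;> omega

theorem co_two (o : ℕ) : co o % 2 = o % 2 := by
  have := co_mod o; omega

/-- Known cells through the classes. -/
theorem Ctx.bf {s u v K : ℕ} (C : Ctx s u v K) {b o i : ℕ} (ho : o < 2 ^ s)
    (hb : b * 2 ^ s + o < v) (hi : i < 10)
    (hm : bt (decide (u = 3)) (cb b) (co o) i = true) {t c : ℤ} (ht : t = ((b * 2 ^ s + o : ℕ) : ℤ))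
    (hc : c = 2 * 2 ^ s + (i - 1)) : cel v t c = true :=
  C.stripf (b := b) (o := o) (i := i) ho hb hi hm (by rw [ht]; push_cast; ring) (by rw [hc]; ring)

/-- The even rows in the blocks `2, 3, ...`. -/
theorem Ctx.row_ok {s u v K : ℕ} (C : Ctx s u v K) {r : ℕ} (hr : r % 2 = 0)
    (h1 : 2 * 2 ^ s + 2 ≤ r) (h2 : r < v) :
    cel v r (2 * 2 ^ s + 5) = true ∧
    (cel v ((r : ℤ) - 1) (2 * 2 ^ s + 3) = true ∨
    (cel v r (2 * 2 ^ s + 6) = true ∧ (cel v ((r : ℤ) - 1) (2 * 2 ^ s + 4) = true ∨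
      cel v ((r : ℤ) - 3) (2 * 2 ^ s) = true)) ∨
    (cel v ((r : ℤ) - 1) (2 * 2 ^ s + 5) = true ∧ cel v ((r : ℤ) - 1) (2 * 2 ^ s + 6) = true ∧
      cel v ((r : ℤ) - 2) (2 * 2 ^ s + 5) = true ∧ cel v ((r : ℤ) - 3) (2 * 2 ^ s) = true ∧
      cel v ((r : ℤ) - 3) (2 * 2 ^ s + 3) = true)) := by
  obtain ⟨hN, h16, hv, hvo⟩ := C.num
  set b := r / 2 ^ s with hb
  set o := r % 2 ^ s with ho
  have hro : b * 2 ^ s + o = r := by rw [hb, ho]; exact Nat.div_add_mod' r (2 ^ s)
  have hoN : o < 2 ^ s := Nat.mod_lt _ (by omega)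
  have hb2 : 2 ≤ b := by
    rw [hb, Nat.le_div_iff_mul_le (by omega)]; omega
  have hoe : o % 2 = 0 := by
    rw [ho, Nat.mod_mod_of_dvd r (Dvd.intro_left _ (show 2 ^ (s - 1) * 2 = 2 ^ s by
      rw [← pow_succ]; congr 1; have := C.str.par.hs; omega))]
    exact hr
  obtain ⟨hB6, hB2⟩ := cb_range hb2
  set q := decide (u = 3) with hq
  have hcl := co_lt o
  have hc2 := co_two o
  refine ⟨C.bf (b := b) (o := o) (i := 6) hoN (by omega) (by norm_num)
    (chk5 q _ hB6 hB2 _ hcl (by omega)) (by rw [hro]) (by push_cast; ring), ?_⟩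
  -- from the condition to the cells
  have main : ∀ b1 o1 b3 o3 : ℕ, b1 * 2 ^ s + o1 + 1 = r → o1 < 2 ^ s → b3 * 2 ^ s + o3 + 3 = r →
      o3 < 2 ^ s → cnd q (cb b) (co o) (cb b1) (co o1) (cb b3) (co o3) = true →
      (cel v ((r : ℤ) - 1) (2 * 2 ^ s + 3) = true ∨
      (cel v r (2 * 2 ^ s + 6) = true ∧ (cel v ((r : ℤ) - 1) (2 * 2 ^ s + 4) = true ∨
        cel v ((r : ℤ) - 3) (2 * 2 ^ s) = true))) := by
    intro b1 o1 b3 o3 a1 a2 a3 a4 hc
    have hc' : bt q (cb b1) (co o1) 4 = true ∨ (bt q (cb b) (co o) 7 = true ∧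
        (bt q (cb b1) (co o1) 5 = true ∨ bt q (cb b3) (co o3) 1 = true)) := by
      simpa [cnd] using hc
    rcases hc' with h | ⟨h, h' | h'⟩
    · left
      exact C.bf (b := b1) (o := o1) (i := 4) a2 (by omega) (by norm_num) h (by omega)
        (by push_cast; ring)
    · right
      exact ⟨C.bf (b := b) (o := o) (i := 7) hoN (by omega) (by norm_num) h (by omega)
        (by push_cast; ring), Or.inl (C.bf (b := b1) (o := o1) (i := 5) a2 (by omega) (by norm_num)
        h' (by omega) (by push_cast; ring))⟩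
    · right
      exact ⟨C.bf (b := b) (o := o) (i := 7) hoN (by omega) (by norm_num) h (by omega)
        (by push_cast; ring), Or.inr (C.bf (b := b3) (o := o3) (i := 1) a4 (by omega) (by norm_num)
        h' (by omega) (by push_cast; ring))⟩
  rcases (by omega : o = 0 ∨ o = 2 ∨ (4 ≤ o ∧ o < 20) ∨ 20 ≤ o) with h | h | ⟨h, h'⟩ | h
  · -- first row of a block
    have hb3 : 3 ≤ b := by
      by_contra hlt
      have : b = 2 := by omega
      rw [this, h] at hro; omega
    have hbm : (b - 1) * 2 ^ s + 2 ^ s = b * 2 ^ s := by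
      rw [← Nat.succ_mul]; congr 1; omega
    have m := main (b - 1) (2 ^ s - 1) (b - 1) (2 ^ s - 3) (by omega) (by omega) (by omega)
      (by omega)
    have hw : (co (2 ^ s - 1) = 15 ∧ co (2 ^ s - 3) = 13) ∨
        (co (2 ^ s - 1) = 19 ∧ co (2 ^ s - 3) = 17) := by
      rcases (by omega : 2 ^ s = 16 ∨ 32 ≤ 2 ^ s) with h5 | h5
      · left; rw [h5]; exact ⟨rfl, rfl⟩
      · right
        unfold co
        rw [if_neg (by omega), if_neg (by omega)]
        omega
    have hcc : (cb (b - 1) = 2 ∧ cb b = 3) ∨ (cb (b - 1) = 3 ∧ cb b = 4) ∨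
        (cb (b - 1) = 4 ∧ cb b = 5) ∨ (cb (b - 1) = 5 ∧ cb b = 4) := by
      unfold cb; split_ifs <;> omega
    have c0 : co o = 0 := by rw [h]; rfl
    obtain ⟨k1, k2, k3, k4⟩ := chk4 q
    have hcn : cnd q (cb b) (co o) (cb (b - 1)) (co (2 ^ s - 1)) (cb (b - 1)) (co (2 ^ s - 3)) =
        true := by
      rw [c0]
      rcases hw with ⟨w1, w2⟩ | ⟨w1, w2⟩ <;> rcases hcc with ⟨x1, x2⟩ | ⟨x1, x2⟩ | ⟨x1, x2⟩ | ⟨x1, x2⟩ <;>
        rw [w1, w2, x1, x2]
      · exact k1.1
      · exact k2.1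
      · exact k3.1
      · exact k4.1
      · exact k1.2
      · exact k2.2
      · exact k3.2
      · exact k4.2
    rcases m hcn with h6 | h6
    · exact Or.inl h6
    · exact Or.inr (Or.inl h6)
  · have k : bt q (cb b) 1 4 = true ∨ (bt q (cb b) 2 7 = true ∧ bt q (cb b) 1 5 = true) := by
      simpa using chk3 q _ hB6 hB2
    rcases k with k | ⟨k, k'⟩
    · left
      exact C.bf (b := b) (o := 1) (i := 4) (by omega) (by omega) (by norm_num) k (by omega)
        (by push_cast; ring)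
    · right; left
      exact ⟨C.bf (b := b) (o := 2) (i := 7) (by omega) (by omega) (by norm_num) k (by omega)
        (by push_cast; ring), Or.inl (C.bf (b := b) (o := 1) (i := 5) (by omega) (by omega)
        (by norm_num) k' (by omega) (by push_cast; ring))⟩
  · have hco : ∀ k, k < 20 → co k = k := by
      intro k hk; unfold co; rw [if_pos hk]
    have m := main b (o - 1) b (o - 3) (by omega) (by omega) (by omega) (by omega)
    rw [hco o h', hco (o - 1) (by omega), hco (o - 3) (by omega)] at m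
    have hch : cnd q (cb b) o (cb b) (o - 1) (cb b) (o - 3) = true ∨ (cb b = 3 ∧ o = 4) := by
      simpa using chk1 q _ hB6 hB2 o h' h hoe
    rcases hch with h6 | ⟨h6, h7⟩
    · rcases m h6 with h8 | h8
      · exact Or.inl h8
      · exact Or.inr (Or.inl h8)
    · right; right
      obtain ⟨k1, k2, k3, k4, k5⟩ := chk6 q
      refine ⟨?_, ?_, ?_, ?_, ?_⟩
      · exact C.bf (b := b) (o := 3) (i := 6) (by omega) (by omega) (by norm_num)
          (by rw [h6]; exact k1) (by omega) (by push_cast; ring)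
      · exact C.bf (b := b) (o := 3) (i := 7) (by omega) (by omega) (by norm_num)
          (by rw [h6]; exact k2) (by omega) (by push_cast; ring)
      · exact C.bf (b := b) (o := 2) (i := 6) (by omega) (by omega) (by norm_num)
          (by rw [h6]; exact k3) (by omega) (by push_cast; ring)
      · exact C.bf (b := b) (o := 1) (i := 1) (by omega) (by omega) (by norm_num)
          (by rw [h6]; exact k4) (by omega) (by push_cast; ring)
      · exact C.bf (b := b) (o := 1) (i := 4) (by omega) (by omega) (by norm_num)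
          (by rw [h6]; exact k5) (by omega) (by push_cast; ring)
  · have m := main b (o - 1) b (o - 3) (by omega) (by omega) (by omega) (by omega)
    obtain ⟨k1, k2⟩ := chk2 q _ hB6 hB2
    have hcn : cnd q (cb b) (co o) (cb b) (co (o - 1)) (cb b) (co (o - 3)) = true := by
      have hw : (co o = 16 ∧ co (o - 1) = 19 ∧ co (o - 3) = 17) ∨
          (co o = 18 ∧ co (o - 1) = 17 ∧ co (o - 3) = 19) := by
        unfold co
        split_ifs <;> omega
      rcases hw with ⟨w1, w2, w3⟩ | ⟨w1, w2, w3⟩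
      · rw [w1, w2, w3]; exact k1
      · rw [w1, w2, w3]; exact k2
    rcases m hcn with h8 | h8
    · exact Or.inl h8
    · exact Or.inr (Or.inl h8)

/-- Step with names for the columns. -/
theorem Ctx.rc {s u v K : ℕ} (C : Ctx s u v K) {t t' x x1 x2 : ℤ} (h : t = t' + 1) (ht : t ≤ v)
    (hx : x ≤ 10) (h1 : x1 = x + 1) (h2 : x2 = x + 2) : zc v K t' (2 * 2 ^ s + x) =
    E (zc v K t (2 * 2 ^ s + x)) (zc v K t (2 * 2 ^ s + x1)) (zc v K t (2 * 2 ^ s + x2)) := by
  have := zc_rec v (K := (K : ℤ)) (t := t') (c := 2 * 2 ^ s + x) (C.ltK (by omega) (by omega)).ne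
  rw [this, h, h1, h2]
  congr 2 <;> ring

/-- Rows in the blocks `2, 3, ...`: column `2 N + 5`. -/
theorem Ctx.five {s u v K : ℕ} (C : Ctx s u v K) {r : ℕ} (hr : r % 2 = 0)
    (h1 : 2 * 2 ^ s + 2 ≤ r) (h2 : r < v)
    (h0 : ∀ x : ℤ, -1 ≤ x → x ≤ 4 → zc v K r (2 * 2 ^ s + x) = false) :
    zc v K r (2 * 2 ^ s + 5) = false := by
  obtain ⟨hN, h16, hv, hvo⟩ := C.num
  by_contra hz
  have z5 : zc v K r (2 * 2 ^ s + 5) = true := by simpa using hz
  obtain ⟨f5, hc⟩ := C.row_ok hr h1 h2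
  have low : ∀ (t c : ℤ), t ≤ r → c ≤ 2 * 2 ^ s + 6 → 2 * (2 * t + v * c) < (K : ℤ) := by
    intro t c ht hcc
    exact C.low6 (by omega) hcc
  have oth : ∀ (t c : ℤ), t ≤ r → r ≤ t + 3 → c ≤ 2 * 2 ^ s + 6 → cel v t c = true →
      ((r : ℤ) ≠ t ∨ 2 * 2 ^ s + 5 ≠ c) → zc v K t c = false := by
    intro t c a1 a2 a3 a4 a5
    exact C.other f5 z5 a4 (low _ _ le_rfl (by omega)) (low _ _ a1 a3) a5 (by omega) (by omega)
  have z0 := h0 0 (by norm_num) (by norm_num)
  have z1 := h0 1 (by norm_num) (by norm_num)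
  have z2 := h0 2 (by norm_num) (by norm_num)
  have z3 := h0 3 (by norm_num) (by norm_num)
  have z4 := h0 4 (by norm_num) (by norm_num)
  -- row `r - 1`
  have a3 := C.rc (t := r) (t' := r - 1) (x := 3) (x1 := 4) (x2 := 5) (by ring) (by omega)
    (by norm_num) (by norm_num) (by norm_num)
  have a4 := C.rc (t := r) (t' := r - 1) (x := 4) (x1 := 5) (x2 := 6) (by ring) (by omega)
    (by norm_num) (by norm_num) (by norm_num)
  have a2 := C.rc (t := r) (t' := r - 1) (x := 2) (x1 := 3) (x2 := 4) (by ring) (by omega)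
    (by norm_num) (by norm_num) (by norm_num)
  have a1 := C.rc (t := r) (t' := r - 1) (x := 1) (x1 := 2) (x2 := 3) (by ring) (by omega)
    (by norm_num) (by norm_num) (by norm_num)
  have a0 := C.rc (t := r) (t' := r - 1) (x := 0) (x1 := 1) (x2 := 2) (by ring) (by omega)
    (by norm_num) (by norm_num) (by norm_num)
  rw [z3, z4, z5] at a3
  rw [z4, z5] at a4
  rw [z2, z3, z4] at a2
  rw [z1, z2, z3] at a1
  rw [z0, z1, z2] at a0
  have a3' : zc v K ((r : ℤ) - 1) (2 * 2 ^ s + 3) = true := a3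
  have a2' : zc v K ((r : ℤ) - 1) (2 * 2 ^ s + 2) = false := a2
  have a1' : zc v K ((r : ℤ) - 1) (2 * 2 ^ s + 1) = false := a1
  have a0' : zc v K ((r : ℤ) - 1) (2 * 2 ^ s + 0) = false := a0
  -- row `r - 2`
  have b0 := C.rc (t := r - 1) (t' := r - 2) (x := 0) (x1 := 1) (x2 := 2) (by ring) (by omega)
    (by norm_num) (by norm_num) (by norm_num)
  have b1 := C.rc (t := r - 1) (t' := r - 2) (x := 1) (x1 := 2) (x2 := 3) (by ring) (by omega)
    (by norm_num) (by norm_num) (by norm_num)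
  have b2 := C.rc (t := r - 1) (t' := r - 2) (x := 2) (x1 := 3) (x2 := 4) (by ring) (by omega)
    (by norm_num) (by norm_num) (by norm_num)
  have b3 := C.rc (t := r - 1) (t' := r - 2) (x := 3) (x1 := 4) (x2 := 5) (by ring) (by omega)
    (by norm_num) (by norm_num) (by norm_num)
  have b4 := C.rc (t := r - 1) (t' := r - 2) (x := 4) (x1 := 5) (x2 := 6) (by ring) (by omega)
    (by norm_num) (by norm_num) (by norm_num)
  have c0 := C.rc (t := r - 2) (t' := r - 3) (x := 0) (x1 := 1) (x2 := 2) (by ring) (by omega)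
    (by norm_num) (by norm_num) (by norm_num)
  have c3 := C.rc (t := r - 2) (t' := r - 3) (x := 3) (x1 := 4) (x2 := 5) (by ring) (by omega)
    (by norm_num) (by norm_num) (by norm_num)
  rw [a0', a1', a2'] at b0
  rw [a1', a2', a3'] at b1
  rw [a2', a3'] at b2
  rw [a3'] at b3
  have b0' : zc v K ((r : ℤ) - 2) (2 * 2 ^ s + 0) = false := b0
  have b1' : zc v K ((r : ℤ) - 2) (2 * 2 ^ s + 1) = true := b1
  rw [b0', b1'] at c0
  rcases hc with h | ⟨h6, h | h⟩ | ⟨g1, g2, g3, g4, g5⟩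
  · have := oth _ _ (by omega) (by omega) (by omega) h (by omega)
    rw [a3'] at this
    exact Bool.noConfusion this
  · have q6 := oth _ _ (by omega) (by omega) (by omega) h6 (by omega)
    have := oth _ _ (by omega) (by omega) (by omega) h (by omega)
    rw [q6] at a4
    rw [a4] at this
    exact Bool.noConfusion this
  · have q6 := oth _ _ (by omega) (by omega) (by omega) h6 (by omega)
    have h' := oth _ _ (by omega) (by omega) (by omega) h (by omega)
    rw [q6] at a4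
    have a4' : zc v K ((r : ℤ) - 1) (2 * 2 ^ s + 4) = true := a4
    rw [a4'] at b2
    have b2' : zc v K ((r : ℤ) - 2) (2 * 2 ^ s + 2) = false := b2
    rw [b2'] at c0
    have e : (2 : ℤ) * 2 ^ s + 0 = 2 * 2 ^ s := by ring
    rw [e] at c0
    rw [c0] at h'
    exact Bool.noConfusion h'
  · have q1 := oth _ _ (by omega) (by omega) (by omega) g1 (by omega)
    have q2 := oth _ _ (by omega) (by omega) (by omega) g2 (by omega)
    have q3 := oth _ _ (by omega) (by omega) (by omega) g3 (by omega)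
    have q4 := oth _ _ (by omega) (by omega) (by omega) g4 (by omega)
    have q5 := oth _ _ (by omega) (by omega) (by omega) g5 (by omega)
    have e : (2 : ℤ) * 2 ^ s + 0 = 2 * 2 ^ s := by ring
    rw [e, q4] at c0
    rw [q1, q2] at b4
    rw [q1] at b3
    rw [q5, q3] at c3
    revert b2 b3 b4 c0 c3
    generalize zc v K ((r : ℤ) - 1) (2 * 2 ^ s + 4) = x
    generalize zc v K ((r : ℤ) - 2) (2 * 2 ^ s + 2) = y
    generalize zc v K ((r : ℤ) - 2) (2 * 2 ^ s + 3) = z
    generalize zc v K ((r : ℤ) - 2) (2 * 2 ^ s + 4) = w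
    revert x y z w
    decide

end Pool.Agent.H65.Um.LT
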