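import Pool.Agent.H65.Um.LateE

/-!
# `U(4, v)`, late part: conclusion
-/

set_option autoImplicit false

namespace Pool.Agent.H65.Um.LT

open Pool.Agent.H65.Ul

/-- The exceptional sum for `u = 3`. -/
theorem Ctx.excl2 {s u v K : ℕ} (C : Ctx s u v K) (hu : u = 3) :
    2 * (2 * (4 : ℤ) + v * (2 * 2 ^ s + 8)) ≠ (K : ℤ) := by
  intro hK2
  obtain ⟨hN, h16, hv, hvo⟩ := C.num
  have hv3 : (v : ℤ) + 1 = 3 * 2 ^ s := by
    have := C.str.par.hv
    rw [hu] at this
    exact_mod_cast this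
  have hq : decide (u = 3) = true := by simp [hu]
  have hNz : ((2 ^ s : ℕ) : ℤ) = 2 ^ s := by push_cast; ring
  obtain ⟨_, _, _, _, _, _, k7, k8⟩ := chk9
  have hw1 : 11 ≤ co (2 ^ s - 1) ∧ co (2 ^ s - 1) % 4 = 3 ∧ 11 ≤ co (2 ^ s - 5) ∧
      co (2 ^ s - 5) % 4 = 3 :=
    ⟨co_ge (by omega) (by norm_num), by rw [co_mod]; omega, co_ge (by omega) (by norm_num),
      by rw [co_mod]; omega⟩
  have f1 : cel v ((2 : ℤ) ^ s - 1) (2 * 2 ^ s + 7) = true :=
    C.bf (b := 0) (o := 2 ^ s - 1) (i := 8) (by omega) (by omega) (by norm_num)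
      (by rw [hq]; exact k7 _ (co_lt _) hw1.1 hw1.2.1) (by omega) (by push_cast; ring)
  have f2 : cel v ((2 : ℤ) ^ s - 5) (2 * 2 ^ s + 7) = true :=
    C.bf (b := 0) (o := 2 ^ s - 5) (i := 8) (by omega) (by omega) (by norm_num)
      (by rw [hq]; exact k7 _ (co_lt _) hw1.2.2.1 hw1.2.2.2) (by omega) (by push_cast; ring)
  have f3 : cel v (2 * (2 : ℤ) ^ s + 8) (2 * 2 ^ s + 7) = true :=
    C.bf (b := 2) (o := 8) (i := 8) (by omega) (by omega) (by norm_num)
      (by rw [hq]; exact k8 8 (by norm_num) (by norm_num)) (by push_cast; ring)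
      (by push_cast; ring)
  have f4 : cel v (2 * (2 : ℤ) ^ s + 12) (2 * 2 ^ s + 7) = true :=
    C.bf (b := 2) (o := 12) (i := 8) (by omega) (by omega) (by norm_num)
      (by rw [hq]; exact k8 12 (by norm_num) (by norm_num)) (by push_cast; ring)
      (by push_cast; ring)
  apply C.hT
  have e0 : (v : ℤ) * (2 * 2 ^ s + 8) = v * (2 * 2 ^ s + 7) + v := by ring
  have h1 : (K : ℤ) - (2 * ((2 : ℤ) ^ s - 1) + v * (2 * 2 ^ s + 7)) =
      2 * (2 * (2 : ℤ) ^ s + 8) + v * (2 * 2 ^ s + 7) := by omega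
  have h2 : (K : ℤ) - (2 * ((2 : ℤ) ^ s - 5) + v * (2 * 2 ^ s + 7)) =
      2 * (2 * (2 : ℤ) ^ s + 12) + v * (2 * 2 ^ s + 7) := by omega
  exact two_lo (2 * ((2 : ℤ) ^ s - 1) + v * (2 * 2 ^ s + 7))
    (2 * ((2 : ℤ) ^ s - 5) + v * (2 * 2 ^ s + 7)) f1 (by rw [h1]; exact f3) f2
    (by rw [h2]; exact f4) (by omega) (by omega) (by omega)

/-- Odd rows `1, ..., N + 1`, column `2 N + 7`. -/
theorem Ctx.seven {s u v K : ℕ} (C : Ctx s u v K) {t : ℕ} (ht : t % 2 = 1) (hN1 : t ≤ 2 ^ s + 1)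
    (h0 : ∀ x : ℤ, 0 ≤ x → x ≤ 6 → zc v K t (2 * 2 ^ s + x) = false) :
    zc v K t (2 * 2 ^ s + 7) = false := by
  obtain ⟨hN, h16, hv, hvo⟩ := C.num
  have hNz : ((2 ^ s : ℕ) : ℤ) = 2 ^ s := by push_cast; ring
  have hKp := C.posK
  by_contra hz
  have z7 : zc v K t (2 * 2 ^ s + 7) = true := by simpa using hz
  set q := decide (u = 3) with hq
  obtain ⟨k1, k2, k3, k4, k5⟩ := chk7 q
  have hco := co_two t
  have hcl := co_lt t
  have f7 : cel v t (2 * 2 ^ s + 7) = true := by
    rcases (by omega : t < 2 ^ s ∨ t = 2 ^ s + 1) with h | h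
    · exact C.bf (b := 0) (o := t) (i := 8) h (by omega) (by norm_num) (k1 _ hcl (by omega))
        (by omega) (by push_cast; ring)
    · exact C.bf (b := 1) (o := 1) (i := 8) (by omega) (by omega) (by norm_num) k4 (by omega)
        (by push_cast; ring)
  have low : ∀ (t' c : ℤ), t' ≤ t → c ≤ 2 * 2 ^ s + 7 → 2 * (2 * t' + v * c) < (K : ℤ) :=
    fun t' c a b => C.low7 (by omega) b
  have oth : ∀ (t' c : ℤ), t' ≤ t → t ≤ t' + 3 → c ≤ 2 * 2 ^ s + 7 → cel v t' c = true →
      ((t : ℤ) ≠ t' ∨ 2 * 2 ^ s + 7 ≠ c) → zc v K t' c = false := by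
    intro t' c a1 a2 a3 a4 a5
    exact C.other f7 z7 a4 (low _ _ le_rfl le_rfl) (low _ _ a1 a3) a5 (by omega) (by omega)
  -- column `2 N + 8`
  have oth8 : ∀ (t' : ℤ), 0 ≤ t' → t' ≤ t → cel v t' (2 * 2 ^ s + 8) = true →
      2 * (2 * t' + v * (2 * 2 ^ s + 8)) ≠ (K : ℤ) → zc v K t' (2 * 2 ^ s + 8) = false := by
    intro t' a0 a1 a2 a3
    by_contra hz8
    have e0 : (v : ℤ) * (2 * 2 ^ s + 8) = v * (2 * 2 ^ s + 7) + v := by ring
    have e5 : (4 * (2 : ℤ) ^ s + 16) * v = 2 * (v * (2 * 2 ^ s + 7)) + 2 * v := by ring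
    have := C.uniq f7 z7 a2 (by simpa using hz8) (low _ _ le_rfl le_rfl).ne a3 (by
      intro hs
      have hKo : K % 2 = 1 := by omega
      have h5 := C.hodd hKo
      have h6 : (4 * (2 : ℤ) ^ s + 17) * v ≤ K := by exact_mod_cast h5
      have e6 : (4 * (2 : ℤ) ^ s + 17) * v = 2 * (v * (2 * 2 ^ s + 7)) + 3 * v := by ring
      omega)
    omega
  have hX8 : 2 * (2 * (t : ℤ) + v * (2 * 2 ^ s + 8)) ≠ (K : ℤ) := by
    intro he
    apply C.hX t ht (by omega)
    have : (K : ℤ) = ((2 * (2 * t) + v * (4 * 2 ^ s + 16) : ℕ) : ℤ) := by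
      push_cast
      linarith
    exact_mod_cast this
  have z8 : cel v t (2 * 2 ^ s + 8) = true → zc v K t (2 * 2 ^ s + 8) = false := fun f =>
    oth8 t (by omega) le_rfl f hX8
  have z0 := h0 0 (by norm_num) (by norm_num)
  have z1 := h0 1 (by norm_num) (by norm_num)
  have z2 := h0 2 (by norm_num) (by norm_num)
  have z3 := h0 3 (by norm_num) (by norm_num)
  have z4 := h0 4 (by norm_num) (by norm_num)
  have z5 := h0 5 (by norm_num) (by norm_num)
  have z6 := h0 6 (by norm_num) (by norm_num)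
  have a2 := C.rc (t := t) (t' := t - 1) (x := 2) (x1 := 3) (x2 := 4) (by ring) (by omega)
    (by norm_num) (by norm_num) (by norm_num)
  have a3 := C.rc (t := t) (t' := t - 1) (x := 3) (x1 := 4) (x2 := 5) (by ring) (by omega)
    (by norm_num) (by norm_num) (by norm_num)
  have a4 := C.rc (t := t) (t' := t - 1) (x := 4) (x1 := 5) (x2 := 6) (by ring) (by omega)
    (by norm_num) (by norm_num) (by norm_num)
  have a5 := C.rc (t := t) (t' := t - 1) (x := 5) (x1 := 6) (x2 := 7) (by ring) (by omega)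
    (by norm_num) (by norm_num) (by norm_num)
  have a6 := C.rc (t := t) (t' := t - 1) (x := 6) (x1 := 7) (x2 := 8) (by ring) (by omega)
    (by norm_num) (by norm_num) (by norm_num)
  rw [z2, z3, z4] at a2
  rw [z3, z4, z5] at a3
  rw [z4, z5, z6] at a4
  rw [z5, z6, z7] at a5
  rw [z6, z7] at a6
  have a2' : zc v K ((t : ℤ) - 1) (2 * 2 ^ s + 2) = false := a2
  have a3' : zc v K ((t : ℤ) - 1) (2 * 2 ^ s + 3) = false := a3
  have a4' : zc v K ((t : ℤ) - 1) (2 * 2 ^ s + 4) = false := a4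
  have a5' : zc v K ((t : ℤ) - 1) (2 * 2 ^ s + 5) = true := a5
  have b2 := C.rc (t := t - 1) (t' := t - 2) (x := 2) (x1 := 3) (x2 := 4) (by ring) (by omega)
    (by norm_num) (by norm_num) (by norm_num)
  have b3 := C.rc (t := t - 1) (t' := t - 2) (x := 3) (x1 := 4) (x2 := 5) (by ring) (by omega)
    (by norm_num) (by norm_num) (by norm_num)
  have b4 := C.rc (t := t - 1) (t' := t - 2) (x := 4) (x1 := 5) (x2 := 6) (by ring) (by omega)
    (by norm_num) (by norm_num) (by norm_num)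
  have b5 := C.rc (t := t - 1) (t' := t - 2) (x := 5) (x1 := 6) (x2 := 7) (by ring) (by omega)
    (by norm_num) (by norm_num) (by norm_num)
  have b6 := C.rc (t := t - 1) (t' := t - 2) (x := 6) (x1 := 7) (x2 := 8) (by ring) (by omega)
    (by norm_num) (by norm_num) (by norm_num)
  have c2 := C.rc (t := t - 2) (t' := t - 3) (x := 2) (x1 := 3) (x2 := 4) (by ring) (by omega)
    (by norm_num) (by norm_num) (by norm_num)
  have c5 := C.rc (t := t - 2) (t' := t - 3) (x := 5) (x1 := 6) (x2 := 7) (by ring) (by omega)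
    (by norm_num) (by norm_num) (by norm_num)
  rw [a2', a3', a4'] at b2
  rw [a3', a4', a5'] at b3
  rw [a4', a5'] at b4
  rw [a5'] at b5
  have b2' : zc v K ((t : ℤ) - 2) (2 * 2 ^ s + 2) = false := b2
  have b3' : zc v K ((t : ℤ) - 2) (2 * 2 ^ s + 3) = true := b3
  rw [b2', b3'] at c2
  -- the main case
  have main : 5 ≤ t → cel v t (2 * 2 ^ s + 8) = true → False := by
    intro h5 f8
    have q8 := z8 f8
    rw [q8] at a6
    have a6' : zc v K ((t : ℤ) - 1) (2 * 2 ^ s + 6) = true := a6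
    rw [a6'] at b4
    have b4' : zc v K ((t : ℤ) - 2) (2 * 2 ^ s + 4) = false := b4
    rw [b4'] at c2
    have f2 : cel v ((t : ℤ) - 3) (2 * 2 ^ s + 2) = true :=
      C.bf (b := 0) (o := t - 3) (i := 3) (by omega) (by omega) (by norm_num)
        (k3 _ (co_lt _) (by rw [co_two]; omega) (co_ge (by omega) (by norm_num)))
        (by omega) (by push_cast; ring)
    have := oth _ _ (by omega) (by omega) (by omega) f2 (by omega)
    rw [this] at c2
    exact Bool.noConfusion c2
  by_cases hu : u = 3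
  · have hqt : q = true := by rw [hq]; simp [hu]
    obtain ⟨m1, m2, m3, m4, m5, m6, _, _⟩ := chk9
    rcases (by omega : t = 1 ∨ t = 3 ∨ t = 5 ∨ 7 ≤ t) with h | h | h | h
    · have f : cel v ((t : ℤ) - 1) (2 * 2 ^ s + 5) = true :=
        C.bf (b := 0) (o := 0) (i := 6) (by omega) (by omega) (by norm_num)
          (by rw [← hq, hqt]; exact m2) (by omega) (by push_cast; ring)
      have := oth _ _ (by omega) (by omega) (by omega) f (by omega)
      rw [a5'] at this
      exact Bool.noConfusion this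
    · have f : cel v ((t : ℤ) - 1) (2 * 2 ^ s + 5) = true :=
        C.bf (b := 0) (o := 2) (i := 6) (by omega) (by omega) (by norm_num)
          (by rw [← hq, hqt]; exact m1) (by omega) (by push_cast; ring)
      have := oth _ _ (by omega) (by omega) (by omega) f (by omega)
      rw [a5'] at this
      exact Bool.noConfusion this
    · have g47 : cel v ((t : ℤ) - 1) (2 * 2 ^ s + 7) = true :=
        C.bf (b := 0) (o := 4) (i := 8) (by omega) (by omega) (by norm_num)
          (by rw [← hq, hqt]; exact m5) (by omega) (by push_cast; ring)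
      have g48 : cel v ((t : ℤ) - 1) (2 * 2 ^ s + 8) = true :=
        C.bf (b := 0) (o := 4) (i := 9) (by omega) (by omega) (by norm_num)
          (by rw [← hq, hqt]; exact m6) (by omega) (by push_cast; ring)
      have g37 : cel v ((t : ℤ) - 2) (2 * 2 ^ s + 7) = true :=
        C.bf (b := 0) (o := 3) (i := 8) (by omega) (by omega) (by norm_num)
          (by rw [← hq, hqt]; exact m4) (by omega) (by push_cast; ring)
      have g22 : cel v ((t : ℤ) - 3) (2 * 2 ^ s + 2) = true :=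
        C.bf (b := 0) (o := 2) (i := 3) (by omega) (by omega) (by norm_num)
          (by rw [← hq, hqt]; exact m3) (by omega) (by push_cast; ring)
      have g25 : cel v ((t : ℤ) - 3) (2 * 2 ^ s + 5) = true :=
        C.bf (b := 0) (o := 2) (i := 6) (by omega) (by omega) (by norm_num)
          (by rw [← hq, hqt]; exact m1) (by omega) (by push_cast; ring)
      have q47 := oth _ _ (by omega) (by omega) (by omega) g47 (by omega)
      have q37 := oth _ _ (by omega) (by omega) (by omega) g37 (by omega)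
      have q22 := oth _ _ (by omega) (by omega) (by omega) g22 (by omega)
      have q25 := oth _ _ (by omega) (by omega) (by omega) g25 (by omega)
      have q48 := oth8 _ (by omega) (by omega) g48 (by
        have := C.excl2 hu
        have e : (t : ℤ) - 1 = 4 := by omega
        rw [e]; exact this)
      rw [q47] at b5
      rw [q47, q48] at b6
      rw [q22] at c2
      rw [q25, q37] at c5
      revert b4 b5 b6 c2 c5
      generalize zc v K ((t : ℤ) - 1) (2 * 2 ^ s + 6) = x
      generalize zc v K ((t : ℤ) - 2) (2 * 2 ^ s + 4) = y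
      generalize zc v K ((t : ℤ) - 2) (2 * 2 ^ s + 5) = z
      generalize zc v K ((t : ℤ) - 2) (2 * 2 ^ s + 6) = w
      revert x y z w
      decide
    · apply main (by omega)
      rcases (by omega : t < 2 ^ s ∨ t = 2 ^ s + 1) with h' | h'
      · exact C.bf (b := 0) (o := t) (i := 9) h' (by omega) (by norm_num)
          (k2 _ hcl (by omega) (co_ge h (by norm_num))) (by omega) (by push_cast; ring)
      · exact C.bf (b := 1) (o := 1) (i := 9) (by omega) (by omega) (by norm_num) k5 (by omega)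
          (by push_cast; ring)
  · have hqf : q = false := by rw [hq]; simp [hu]
    obtain ⟨m1, m2, m3⟩ := chk8
    have f8 : cel v t (2 * 2 ^ s + 8) = true := by
      rcases (by omega : t < 2 ^ s ∨ t = 2 ^ s + 1) with h' | h'
      · exact C.bf (b := 0) (o := t) (i := 9) h' (by omega) (by norm_num)
          (by rw [← hq, hqf]; exact m1 _ hcl (by omega)) (by omega) (by push_cast; ring)
      · exact C.bf (b := 1) (o := 1) (i := 9) (by omega) (by omega) (by norm_num) k5 (by omega)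
          (by push_cast; ring)
    have q8 := z8 f8
    rw [q8] at a6
    rcases (by omega : t = 1 ∨ t = 3 ∨ 5 ≤ t) with h | h | h
    · have f : cel v ((t : ℤ) - 1) (2 * 2 ^ s + 6) = true :=
        C.bf (b := 0) (o := 0) (i := 7) (by omega) (by omega) (by norm_num)
          (by rw [← hq, hqf]; exact m3) (by omega) (by push_cast; ring)
      have := oth _ _ (by omega) (by omega) (by omega) f (by omega)
      rw [this] at a6
      exact Bool.noConfusion a6
    · have f : cel v ((t : ℤ) - 1) (2 * 2 ^ s + 6) = true :=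
        C.bf (b := 0) (o := 2) (i := 7) (by omega) (by omega) (by norm_num)
          (by rw [← hq, hqf]; exact m2) (by omega) (by push_cast; ring)
      have := oth _ _ (by omega) (by omega) (by omega) f (by omega)
      rw [this] at a6
      exact Bool.noConfusion a6
    · exact main h f8

/-- The flow downwards. -/
theorem Ctx.down {s u v K : ℕ} (C : Ctx s u v K) : ∀ k : ℕ, k + 2 ^ s ≤ v + 1 →
    ∀ c : ℕ, c ≤ 2 * 2 ^ s + 7 → zc v K ((2 : ℤ) ^ s + 2 - k) (c : ℤ) = false := by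
  obtain ⟨hN, h16, hv, hvo⟩ := C.num
  have hNz : ((2 ^ s : ℕ) : ℤ) = 2 ^ s := by push_cast; ring
  intro k
  induction k with
  | zero =>
    intro _ c hc
    rcases Nat.lt_or_ge c (2 * 2 ^ s) with h | h
    · have := C.colz (2 * 2 ^ s - c) c (by omega) (2 ^ s + 2) (by omega) (by omega)
      have e : ((2 ^ s + 2 : ℕ) : ℤ) = (2 : ℤ) ^ s + 2 - (0 : ℕ) := by push_cast; ring
      rw [e] at this
      exact this
    · have := C.uflow 2 le_rfl (by omega) (c - (2 * 2 ^ s - 1)) (by omega)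
      have e1 : (2 : ℤ) ^ s + ((2 : ℕ) : ℤ) = (2 : ℤ) ^ s + 2 - (0 : ℕ) := by push_cast; ring
      have e2 : (2 * (2 : ℤ) ^ s - 1 + ((c - (2 * 2 ^ s - 1) : ℕ) : ℤ)) = c := by omega
      rw [e1, e2] at this
      exact this
  | succ k ih =>
    intro hk
    have prev := ih (by omega)
    set t : ℤ := (2 : ℤ) ^ s + 2 - ((k + 1 : ℕ) : ℤ) with ht
    have et : (2 : ℤ) ^ s + 2 - (k : ℤ) = t + 1 := by rw [ht]; push_cast; ring
    rw [et] at prev
    have htv : t < v := by omega
    -- columns at most `2 N + 5`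
    have c5 : ∀ c : ℕ, c ≤ 2 * 2 ^ s + 5 → zc v K t (c : ℤ) = false := by
      intro c hc
      rw [zc_rec v (K := (K : ℤ)) (t := t) (c := c) (C.ltK htv (by omega)).ne]
      have e1 : (c : ℤ) + 1 = ((c + 1 : ℕ) : ℤ) := by push_cast; ring
      have e2 : (c : ℤ) + 2 = ((c + 2 : ℕ) : ℤ) := by push_cast; ring
      rw [e1, e2, prev c (by omega), prev (c + 1) (by omega), prev (c + 2) (by omega)]
      rfl
    have eT : t - ((2 ^ s + 2 : ℕ) : ℤ) + v = ((v - 1 - k : ℕ) : ℤ) := by omega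
    have c6 : ∀ c : ℕ, c ≤ 2 * 2 ^ s + 6 → zc v K t (c : ℤ) = false := by
      intro c hc
      rcases Nat.lt_or_ge c (2 * 2 ^ s + 6) with h | h
      · exact c5 c (by omega)
      · have h1 := (C.line htv (b := 2 * 2 ^ s + 5) (by omega) c5 (2 ^ s + 2)).2 2 (by omega)
        have h2 := zc_shift v K (t - ((2 ^ s + 2 : ℕ) : ℤ)) 0
        rw [eT] at h2
        have h3 := C.covT0 (t := v - 1 - k) (by omega) (by omega)
        rw [h3] at h2
        have e : c = 2 * 2 ^ s + 5 + 1 := by omega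
        rw [e, ← h1]
        have e2 : ((2 : ℕ) : ℤ) = 0 + 2 := by norm_num
        rw [e2]
        exact h2.symm
    intro c hc
    rcases Nat.lt_or_ge c (2 * 2 ^ s + 7) with h | h
    · exact c6 c (by omega)
    have hce : c = 2 * 2 ^ s + 7 := by omega
    rcases Nat.mod_two_eq_zero_or_one k with hk2 | hk2
    swap
    · -- `t` even
      have h1 := (C.line htv (b := 2 * 2 ^ s + 6) (by omega) c6 (2 ^ s + 2)).2 3 (by omega)
      have h2 := zc_shift v K (t - ((2 ^ s + 2 : ℕ) : ℤ)) 1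
      rw [eT] at h2
      have h3 := C.covT1 (t := v - 1 - k) (by omega) (by omega) (by omega)
      rw [h3] at h2
      have e : c = 2 * 2 ^ s + 6 + 1 := by omega
      rw [e, ← h1]
      have e2 : ((3 : ℕ) : ℤ) = 1 + 2 := by norm_num
      rw [e2]
      exact h2.symm
    have ec : (c : ℤ) = 2 * 2 ^ s + 7 := by rw [hce]; push_cast; ring
    have c6' : ∀ x : ℤ, 0 ≤ x → x ≤ 6 → zc v K t (2 * 2 ^ s + x) = false := by
      intro x hx1 hx2
      have := c6 (2 * 2 ^ s + x.toNat) (by omega)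
      have e : ((2 * 2 ^ s + x.toNat : ℕ) : ℤ) = 2 * 2 ^ s + x := by push_cast; omega
      rw [e] at this
      exact this
    rcases Nat.lt_or_ge k (2 ^ s + 1) with h' | h'
    · -- `t ≥ 1`
      have e : t = ((2 ^ s + 1 - k : ℕ) : ℤ) := by omega
      rw [ec, e]
      apply C.seven (by omega) (by omega)
      intro x hx1 hx2
      rw [← e]
      exact c6' x hx1 hx2
    · -- `t < 0`
      have e : t + v = ((2 ^ s + 1 + v - k : ℕ) : ℤ) := by omega
      have h5 := C.five (r := 2 ^ s + 1 + v - k) (by omega) (by omega) (by omega) (by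
        intro x hx1 hx2
        rw [← e, zc_shift]
        have := c6' (x + 2) (by omega) (by omega)
        have e3 : 2 * (2 : ℤ) ^ s + x + 2 = 2 * 2 ^ s + (x + 2) := by ring
        rw [e3]; exact this)
      rw [← e, zc_shift] at h5
      have e3 : 2 * (2 : ℤ) ^ s + 5 + 2 = 2 * 2 ^ s + 7 := by ring
      rw [e3] at h5
      rw [ec]; exact h5

/-- The late part. -/
theorem late {s u v : ℕ} (H : Str s u v) (K : ℕ) (hK : (4 * 2 ^ s + 16) * v ≤ K)
    (hodd : K % 2 = 1 → (4 * 2 ^ s + 17) * v ≤ K)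
    (hX : ∀ t : ℕ, t % 2 = 1 → t ≤ 2 ^ s + 3 → K ≠ 2 * (2 * t) + v * (4 * 2 ^ s + 16)) :
    Two v K := by
  by_contra hT
  have C : Ctx s u v K := ⟨H, hK, hodd, hX, hT⟩
  obtain ⟨hN, h16, hv, hvo⟩ := C.num
  have hNz : ((2 ^ s : ℕ) : ℤ) = 2 ^ s := by push_cast; ring
  have hKp := C.posK
  have rz : ∀ (t : ℤ) (c : ℕ), 2 * 2 ^ s + 1 - v ≤ t → t ≤ 2 * 2 ^ s → c ≤ 2 * 2 ^ s →
      zc v K t (c : ℤ) = false := by
    intro t c h1 h2 h3
    rcases le_or_gt ((2 : ℤ) ^ s + 2) t with h | h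
    · have := C.colz (2 * 2 ^ s - c) c (by omega) t.toNat (by omega) (by omega)
      have e : ((t.toNat : ℕ) : ℤ) = t := by omega
      rw [e] at this
      exact this
    · have := C.down ((2 : ℤ) ^ s + 2 - t).toNat (by omega) c (by omega)
      have e : (2 : ℤ) ^ s + 2 - ((((2 : ℤ) ^ s + 2 - t).toNat : ℕ) : ℤ) = t := by omega
      rw [e] at this
      exact this
  have hv0 : (0 : ℤ) < v := by omega
  have e5 : (4 * (2 : ℤ) ^ s + 16) * v = 4 * (2 ^ s * v) + 16 * v := by ring
  have e6 : (0 : ℤ) ≤ 2 ^ s * v := by positivity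
  refine no_gap v (by omega) ((K : ℤ) - (7 * v + 1)) (by omega) ?_
  intro j hj1 hj2
  obtain ⟨e, he, he2⟩ : ∃ e : ℕ, e < 2 ∧ ((K : ℤ) - j - v * e) % 2 = 0 := by
    rcases Int.emod_two_eq_zero_or_one ((K : ℤ) - j) with h | h
    · exact ⟨0, by norm_num, by simpa using h⟩
    · exact ⟨1, by norm_num, by push_cast; omega⟩
  have hve : (v : ℤ) * e = 0 ∨ (v : ℤ) * e = v := by
    rcases (by omega : e = 0 ∨ e = 1) with h | h
    · left; rw [h]; simp
    · right; rw [h]; simp
  set m : ℤ := (K : ℤ) - j - v * e - (4 * 2 ^ s + 2 - 2 * v) with hm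
  have hm0 : 0 ≤ m := by rcases hve with h | h <;> omega
  have hdm := Int.emod_add_mul_ediv m (2 * v)
  have hr0 := Int.emod_nonneg m (show (2 * (v : ℤ)) ≠ 0 by omega)
  have hr1 := Int.emod_lt_of_pos m (show 0 < 2 * (v : ℤ) by omega)
  set ρ := m % (2 * v) with hρ
  set q := m / (2 * v) with hq
  have hq0 : 0 ≤ q := Int.ediv_nonneg hm0 (by omega)
  have hvq : 2 * (v : ℤ) * q = 2 * (v * q) := by ring
  rw [hvq] at hdm
  have hq5 : q < 5 := by
    by_contra hge
    have : (v : ℤ) * 5 ≤ v * q := mul_le_mul_of_nonneg_left (by omega) (by omega)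
    rcases hve with h | h <;> omega
  have hc : ((e + 2 * q.toNat : ℕ) : ℤ) = e + 2 * q := by push_cast; omega
  have hpar : ρ % 2 = 0 := by omega
  have hfin := rz ((4 * 2 ^ s + 2 - 2 * v + ρ) / 2) (e + 2 * q.toNat) (by omega) (by omega)
    (by omega)
  rw [hc] at hfin
  unfold zc at hfin
  have e7 : (K : ℤ) - (2 * ((4 * 2 ^ s + 2 - 2 * v + ρ) / 2) + v * (e + 2 * q)) = j := by
    have h1 : 2 * ((4 * (2 : ℤ) ^ s + 2 - 2 * v + ρ) / 2) = 4 * 2 ^ s + 2 - 2 * v + ρ := by omega
    have h2 : (v : ℤ) * (e + 2 * q) = v * e + 2 * (v * q) := by ring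
    rw [h1, h2]
    omega
  rw [e7] at hfin
  exact hfin

end Pool.Agent.H65.Um.LT
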