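import Pool.Agent.H65.Um.Struct
import Pool.Agent.H65.Um.EarlyBulk
import Pool.Agent.H65.Um.LateF
import Pool.Agent.H65.Um.Asm

/-!
# All pairs for `v ≡ 15 (mod 16)`, `v + 1` not a power of two
-/

set_option autoImplicit false

namespace Pool.Agent.H65.Um

open Pool.Agent.H65.Ul

/-- The parameters `s`, `u` of `v`. -/
theorem par_of (v : ℕ) (h16 : v % 16 = 15) (hp : ∀ k : ℕ, v + 1 ≠ 2 ^ k) :
    ∃ s u : ℕ, Par s u v := by
  obtain ⟨s, u, hu, he⟩ := Nat.exists_eq_two_pow_mul_odd (n := v + 1) (by omega)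
  have hodd : u % 2 = 1 := Nat.odd_iff.mp hu
  refine ⟨s, u, ?_, ?_, hodd, by rw [he]; ring⟩
  · by_contra hs
    have h4 : s = 0 ∨ s = 1 ∨ s = 2 ∨ s = 3 := by omega
    rcases h4 with rfl | rfl | rfl | rfl <;> omega
  · by_contra hu3
    have h1 : u = 1 := by omega
    exact hp s (by rw [he, h1, mul_one])

theorem pairs (v : ℕ) (h16 : v % 16 = 15) (hp : ∀ k : ℕ, v + 1 ≠ 2 ^ k) :
    ∀ K : ℕ, 2 * v + 3 ≤ K → Two v K := by
  obtain ⟨s, u, h⟩ := par_of v h16 hp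
  have H := ST.str_of_par h
  exact pairs_of H (fun t c ht hK hc => early_bulk H t c ht hK hc)
    (fun K h1 h2 h3 => LT.late H K h1 h2 h3)

end Pool.Agent.H65.Um
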