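import Pool.Agent.H65.Um.StructB

/-!
# The structure theorem
-/

set_option autoImplicit false

namespace Pool.Agent.H65.Um.ST

open Pool.Agent.H65.Ul

theorem fin_wrap : (∀ i < 8, (mk true 2 15).testBit i = (mk true 0 0).testBit (i + 2) ∧
    (mk true 2 19).testBit i = (mk true 0 0).testBit (i + 2)) ∧
    (∀ i < 8, (mk false 4 15).testBit i = (mk false 0 0).testBit (i + 2) ∧
    (mk false 4 19).testBit i = (mk false 0 0).testBit (i + 2)) ∧
    (∀ q : Bool, ∀ i < 2, (mk q 0 0).testBit i = true) := by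
  decide +kernel

/-- The last row. -/
theorem last_row {s u v : ℕ} (h : Par s u v) : v = (u - 1) * 2 ^ s + (2 ^ s - 1) := by
  have h0 : 0 < 2 ^ s := by positivity
  have h1 := h.hv
  have h2 := h.hu
  obtain ⟨w, rfl⟩ : ∃ w, u = w + 1 := ⟨u - 1, by omega⟩
  have e : (w + 1) * 2 ^ s = w * 2 ^ s + 2 ^ s := by ring
  rw [Nat.add_sub_cancel]
  omega

theorem closure {s u v : ℕ} (h : Par s u v) (i : ℕ) (hi : i + 2 < 2 * 2 ^ s + 9) :
    (p0 s (decide (u = 3))).testBit (i + 2) =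
      (P (2 * 2 ^ s + 9) (p0 s (decide (u = 3))) v).testBit i := by
  have h16 : 2 ^ 4 ≤ 2 ^ s := Nat.pow_le_pow_right (by norm_num) h.hs
  have hs := h.hs
  have hu := h.hu
  have hodd := h.odd
  have hq4 : 2 ^ s % 4 = 0 := by
    obtain ⟨r, hr⟩ : ∃ r, s = r + 2 := ⟨s - 2, by omega⟩
    rw [hr, pow_add]; omega
  rw [p0_testBit s _ hi]
  change _ = R s (decide (u = 3)) v i
  have hlast := last_row h
  by_cases h1 : i + 2 ≤ 2 * 2 ^ s
  · have e1 : R s (decide (u = 3)) v i = decide (i % 4 ≤ 2) := by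
      rw [hlast, bulk1 s (by omega) _ (u - 1) (by omega) (2 ^ s - 1) (by omega) i h1,
        A_full (by omega) (by omega)]
    rw [e1]
    unfold r0
    by_cases h2 : i + 2 + 2 ≤ 2 * 2 ^ s
    · rw [if_pos h2, Bool.eq_iff_iff]
      simp only [Bool.or_eq_true, decide_eq_true_eq]
      omega
    · rw [if_neg h2, msk_eq]
      have h3 : i % 4 ≤ 2 := by omega
      have e2 : cb 0 = 0 := rfl
      have e3 : co 0 = 0 := rfl
      rw [e2, e3, fin_wrap.2.2 _ _ (by omega : i + 2 + 1 - 2 * 2 ^ s < 2)]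
      symm
      rw [decide_eq_true_eq]
      exact h3
  · obtain ⟨j, rfl⟩ : ∃ j, i = 2 * 2 ^ s - 1 + j := ⟨i - (2 * 2 ^ s - 1), by omega⟩
    rw [strip_all s hs _ v j (by omega)]
    unfold r0
    rw [if_neg (by omega)]
    have q1 : v / 2 ^ s = u - 1 := by
      conv_lhs => rw [hlast]
      rw [mul_comm, Nat.mul_add_div (by positivity), Nat.div_eq_of_lt (by omega), add_zero]
    have q2 : v % 2 ^ s = 2 ^ s - 1 := by
      conv_lhs => rw [hlast]
      rw [Nat.mul_add_mod_self_right, Nat.mod_eq_of_lt (by omega)]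
    have e4 : 2 * 2 ^ s - 1 + j + 2 + 1 - 2 * 2 ^ s = j + 2 := by omega
    rw [q1, q2, e4, msk_eq, msk_eq]
    have e2 : cb 0 = 0 := rfl
    have e3 : co 0 = 0 := rfl
    rw [e2, e3]
    by_cases h3 : u = 3
    · have d : decide (u = 3) = true := by simpa using h3
      have e5 : cb (u - 1) = 2 := by rw [h3]; rfl
      rw [d, e5]
      rcases co_last hs with h4 | h4
      · rw [h4]; exact (fin_wrap.1 j (by omega)).1.symm
      · rw [h4]; exact (fin_wrap.1 j (by omega)).2.symm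
    · have d : decide (u = 3) = false := by simpa using h3
      have e5 : cb (u - 1) = 4 := by
        unfold cb
        rw [if_neg (by omega)]
        omega
      rw [d, e5]
      rcases co_last hs with h4 | h4
      · rw [h4]; exact (fin_wrap.2.1 j (by omega)).1.symm
      · rw [h4]; exact (fin_wrap.2.1 j (by omega)).2.symm

theorem v_odd {s u v : ℕ} (h : Par s u v) : v % 4 = 3 := by
  have hs := h.hs
  have hv := h.hv
  obtain ⟨r, hr⟩ : ∃ r, s = r + 2 := ⟨s - 2, by omega⟩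
  have e : u * 2 ^ s = 4 * (u * 2 ^ r) := by rw [hr, pow_add]; ring
  omega

/-- All rows before the last one. -/
theorem cel_eq {s u v : ℕ} (h : Par s u v) {t c : ℕ} (ht : t < v) (hc : c < 2 * 2 ^ s + 9) :
    cel v t c = R s (decide (u = 3)) t c := by
  have h16 : 2 ^ 4 ≤ 2 ^ s := Nat.pow_le_pow_right (by norm_num) h.hs
  have h4 := v_odd h
  unfold cel
  refine P_spec v (2 * 2 ^ s + 9) (p0 s (decide (u = 3))) (by omega) ?_ ?_ ?_ _ t ht c hc rfl
  · rw [p0_testBit s _ (by omega)]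
    unfold r0
    rw [if_pos (by omega)]
    rfl
  · rw [p0_testBit s _ (by omega)]
    unfold r0
    rw [if_pos (by omega)]
    rfl
  · intro i hi
    exact closure h i hi

/-- All rows. -/
theorem cel_eq' {s u v : ℕ} (h : Par s u v) {t c : ℕ} (ht : t ≤ v) (hc : c < 2 * 2 ^ s + 7) :
    cel v t c = R s (decide (u = 3)) t c := by
  rcases Nat.lt_or_ge t v with h1 | h1
  · exact cel_eq h h1 (by omega)
  · have e : t = v := by omega
    subst e
    have h4 := v_odd h
    have h2 := cel_shift t 0 (c : ℤ)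
    rw [zero_add] at h2
    rw [h2]
    have e1 : ((c : ℤ) + 2) = ((c + 2 : ℕ) : ℤ) := by push_cast; ring
    have e2 : (0 : ℤ) = ((0 : ℕ) : ℤ) := rfl
    rw [e1, e2, cel_eq h (by omega) (by omega), R_zero s _ (by omega), ← p0_testBit s _ (by omega)]
    exact closure h c (by omega)

theorem pow_mul4 {j : ℕ} (hj : 2 ≤ j) : 2 ^ j % 4 = 0 := by
  obtain ⟨r, rfl⟩ : ∃ r, j = r + 2 := ⟨j - 2, by omega⟩
  rw [pow_add]; omega

/-- A row is row `0`, a row of the first block, or a row of another block. -/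
theorem row_cases (s t : ℕ) : t = 0 ∨ (∃ k τ, t = 2 ^ k + τ ∧ τ < 2 ^ k ∧ k < s) ∨
    (∃ b o, t = b * 2 ^ s + o ∧ o < 2 ^ s ∧ 1 ≤ b) := by
  rcases Nat.eq_zero_or_pos t with h | h
  · left; exact h
  · right
    by_cases h1 : t < 2 ^ s
    · left
      obtain ⟨k, τ, rfl, hτ⟩ := exists_log h
      refine ⟨k, τ, rfl, hτ, ?_⟩
      by_contra hc
      have : 2 ^ s ≤ 2 ^ k := Nat.pow_le_pow_right (by norm_num) (by omega)
      omega
    · right
      refine ⟨t / 2 ^ s, t % 2 ^ s, by rw [Nat.div_add_mod'], Nat.mod_lt _ (by positivity), ?_⟩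
      exact (Nat.one_le_div_iff (by positivity)).mpr (by omega)

/-- The structure theorem. -/
theorem str_of_par {s u v : ℕ} (h : Par s u v) : Str s u v := by
  have h16 : 2 ^ 4 ≤ 2 ^ s := Nat.pow_le_pow_right (by norm_num) h.hs
  have hs := h.hs
  have hu := h.hu
  have hv := h.hv
  have hv4 := v_odd h
  have hq4 := pow_mul4 (by omega : 2 ≤ s)
  have hkv : ∀ k, k ≤ u → k * 2 ^ s ≤ v + 1 := by
    intro k hk
    rw [hv]; exact Nat.mul_le_mul_right _ hk
  have hNv : 3 * 2 ^ s ≤ v + 1 := hkv 3 hu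
  have hpow : ∀ j, j ≤ s → 2 ^ j ≤ 2 ^ s := fun j hj => Nat.pow_le_pow_right (by norm_num) hj
  refine ⟨h, ?_, ?_, ?_, ?_, ?_, ?_, ?_, ?_, ?_, ?_⟩
  · -- row0
    intro c hc h1
    have e0 : (0 : ℤ) = ((0 : ℕ) : ℤ) := rfl
    rw [e0, cel_eq h (by omega) (by omega), R_zero s _ (by omega)]
    unfold r0
    by_cases h2 : c + 2 ≤ 2 * 2 ^ s
    · rw [if_pos h2, Bool.or_eq_true, decide_eq_true_eq, decide_eq_true_eq]
      right; exact h1
    · rw [if_neg h2, msk_eq]
      exact fin_wrap.2.2 _ _ (by omega)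
  · -- full
    intro k t c h2 h3 h4 h5 h6
    have h7 := hkv k h3
    rw [cel_eq' h (by omega) (by omega)]
    obtain ⟨w, rfl⟩ : ∃ w, k = w + 1 := ⟨k - 1, by omega⟩
    have e : (w + 1) * 2 ^ s = w * 2 ^ s + 2 ^ s := by ring
    have e1 : t = w * 2 ^ s + (2 ^ s - 1) := by omega
    rw [e1, bulk1 s (by omega) _ w (by omega) _ (by omega) c h5, A_full (by omega) (by omega),
      decide_eq_true_eq]
    omega
  · -- four
    intro k t c h2 h3 h4 h5 h6
    have h7 := hkv k h3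
    rw [cel_eq' h (by omega) (by omega)]
    obtain ⟨w, rfl⟩ : ∃ w, k = w + 1 := ⟨k - 1, by omega⟩
    have e : (w + 1) * 2 ^ s = w * 2 ^ s + 2 ^ s := by ring
    have e1 : t = w * 2 ^ s + (2 ^ s - 2) := by omega
    rw [e1, bulk1 s (by omega) _ w (by omega) _ (by omega) c h5]
    exact A_four (by omega) (by omega) h6
  · -- pow1
    intro j t c h2 h3 h4 h5 h6
    have h7 := hpow j h3
    obtain ⟨k, rfl⟩ : ∃ k, j = k + 1 := ⟨j - 1, by omega⟩
    have e : 2 ^ (k + 1) = 2 * 2 ^ k := by ring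
    have h0 : 0 < 2 ^ k := by positivity
    rw [cel_eq' h (by omega) (by omega)]
    have e1 : t = 2 ^ k + (2 ^ k - 1) := by omega
    rw [e1, bulk0 s _ k _ (by omega) c (by omega), G_full (by omega)]
    left; omega
  · -- pow2
    intro j t c h2 h3 h4 h5 h6 h7
    have h8 := hpow j h3
    obtain ⟨k, rfl⟩ : ∃ k, j = k + 1 := ⟨j - 1, by omega⟩
    have e : 2 ^ (k + 1) = 2 * 2 ^ k := by ring
    have h0 : 0 < 2 ^ k := by positivity
    rw [cel_eq' h (by omega) (by omega)]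
    have e1 : t = 2 ^ k + (2 ^ k - 1) := by omega
    rw [e1, bulk0 s _ k _ (by omega) c (by omega), G_full (by omega)]
    right; omega
  · -- pre
    intro j t c h2 h3 h4 h5 h6 h7
    have h8 := hpow j h3
    have h9 := pow_mul4 h2
    obtain ⟨k, rfl⟩ : ∃ k, j = k + 1 := ⟨j - 1, by omega⟩
    have e : 2 ^ (k + 1) = 2 * 2 ^ k := by ring
    have h0 : 0 < 2 ^ k := by positivity
    rw [cel_eq' h (by omega) (by omega)]
    have e1 : t = 2 ^ k + (2 ^ k - 2) := by omega
    rw [e1, bulk0 s _ k _ (by omega) c (by omega)]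
    unfold G
    rw [Bool.or_eq_true]
    right
    rw [Bool.and_eq_true, decide_eq_true_eq]
    refine ⟨by omega, A_four (by omega) (by omega) (by omega)⟩
  · -- col0
    intro t ht
    have e0 : (0 : ℤ) = ((0 : ℕ) : ℤ) := rfl
    rw [e0, cel_eq' h ht (by omega)]
    rcases row_cases s t with rfl | ⟨k, τ, rfl, hτ, hk⟩ | ⟨b, o, rfl, ho, hb⟩
    · rw [R_zero s _ (by omega)]
      unfold r0
      rw [if_pos (by omega)]
      rfl
    · rw [bulk0 s _ k τ hτ _ (by omega)]
      unfold G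
      rw [A_col0]; rfl
    · rw [bulk1 s (by omega) _ b hb o ho _ (by omega), A_col0]
  · -- col1
    intro t ht hodd
    have e0 : (1 : ℤ) = ((1 : ℕ) : ℤ) := rfl
    rw [e0, cel_eq' h ht (by omega)]
    rcases row_cases s t with rfl | ⟨k, τ, rfl, hτ, hk⟩ | ⟨b, o, rfl, ho, hb⟩
    · omega
    · rw [bulk0 s _ k τ hτ _ (by omega)]
      rcases Nat.eq_zero_or_pos k with rfl | hk0
      · have e : τ = 0 := by rw [pow_zero] at hτ; omega
        subst e
        rw [G_zero, pow_zero]; right; rfl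
      · obtain ⟨r, rfl⟩ : ∃ r, k = r + 1 := ⟨k - 1, by omega⟩
        have e : 2 ^ (r + 1) = 2 * 2 ^ r := by ring
        unfold G
        rw [A_col1 τ (by omega)]; rfl
    · obtain ⟨r, rfl⟩ : ∃ r, s = r + 1 := ⟨s - 1, by omega⟩
      have e : b * 2 ^ (r + 1) = 2 * (b * 2 ^ r) := by ring
      rw [bulk1 (r + 1) (by omega) _ b hb o ho _ (by omega), A_col1 o (by omega)]
  · -- col2
    intro t h3 ht hodd
    have e0 : (2 : ℤ) = ((2 : ℕ) : ℤ) := rfl
    rw [e0, cel_eq' h ht (by omega)]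
    rcases row_cases s t with rfl | ⟨k, τ, rfl, hτ, hk⟩ | ⟨b, o, rfl, ho, hb⟩
    · omega
    · rw [bulk0 s _ k τ hτ _ (by omega)]
      rcases Nat.eq_zero_or_pos k with rfl | hk0
      · exfalso
        rw [pow_zero] at hτ h3; omega
      · obtain ⟨r, rfl⟩ : ∃ r, k = r + 1 := ⟨k - 1, by omega⟩
        have e : 2 ^ (r + 1) = 2 * 2 ^ r := by ring
        unfold G
        rw [A_col2 τ (by omega)]; rfl
    · obtain ⟨r, rfl⟩ : ∃ r, s = r + 1 := ⟨s - 1, by omega⟩
      have e : b * 2 ^ (r + 1) = 2 * (b * 2 ^ r) := by ring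
      rw [bulk1 (r + 1) (by omega) _ b hb o ho _ (by omega), A_col2 o (by omega)]
  · -- strip
    intro b o i ho hb hi h1
    have e1 : (2 * 2 ^ s - 1 + (i : ℤ)) = ((2 * 2 ^ s - 1 + i : ℕ) : ℤ) := by
      have : 1 ≤ 2 * 2 ^ s := by omega
      push_cast [this]; ring
    rw [e1, cel_eq h hb (by omega), strip_all s hs _ _ i hi]
    have q1 : (b * 2 ^ s + o) / 2 ^ s = b := by
      rw [mul_comm, Nat.mul_add_div (by positivity), Nat.div_eq_of_lt ho, add_zero]
    have q2 : (b * 2 ^ s + o) % 2 ^ s = o := by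
      rw [Nat.mul_add_mod_self_right, Nat.mod_eq_of_lt ho]
    rw [q1, q2]
    exact h1

end Pool.Agent.H65.Um.ST
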