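import Pool.Agent.H65.Um.Defs
import Mathlib.Data.Nat.Choose.Lucas

/-!
# The triangle pattern in the bulk
-/

set_option autoImplicit false

namespace Pool.Agent.H65.Um.ST

open Pool.Agent.H65.Ul

/-- Exactly one of three. -/
theorem E_iff3 (a b c : Bool) : E a b c = true ↔
    (a = true ∧ b = false ∧ c = false) ∨ (a = false ∧ b = true ∧ c = false) ∨
    (a = false ∧ b = false ∧ c = true) := by
  revert a b c; decide

/-- Odd binomial coefficients. -/
def pas (m a : ℕ) : Bool := decide (Nat.choose m a % 2 = 1)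

theorem pas_zero (m : ℕ) : pas m 0 = true := by simp [pas]

theorem pas_succ (m a : ℕ) : pas (m + 1) (a + 1) = (pas m a ^^ pas m (a + 1)) := by
  unfold pas
  rw [Nat.choose_succ_succ]
  have h1 : (Nat.choose m a + Nat.choose m (a + 1)) % 2 =
    (Nat.choose m a % 2 + Nat.choose m (a + 1) % 2) % 2 := by omega
  rw [Nat.succ_eq_add_one, h1]
  rcases Nat.mod_two_eq_zero_or_one (Nat.choose m a) with h2 | h2 <;>
  rcases Nat.mod_two_eq_zero_or_one (Nat.choose m (a + 1)) with h3 | h3 <;> rw [h2, h3] <;> rfl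

theorem pas_gt {m a : ℕ} (h : m < a) : pas m a = false := by
  unfold pas; rw [Nat.choose_eq_zero_of_lt h]; rfl

theorem pas_full (j : ℕ) : ∀ a : ℕ, a < 2 ^ j → pas (2 ^ j - 1) a = true := by
  intro a
  induction a with
  | zero => intro _; exact pas_zero _
  | succ a ih =>
    intro h
    have h1 := ih (by omega)
    have h2 := pas_succ (2 ^ j - 1) a
    have h3 : 2 ^ j - 1 + 1 = 2 ^ j := Nat.sub_add_cancel (by omega)
    rw [h3, h1] at h2
    have h4 : pas (2 ^ j) (a + 1) = false := by
      unfold pas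
      have h5 : 2 ∣ Nat.choose (2 ^ j) (a + 1) :=
        Nat.Prime.dvd_choose_pow Nat.prime_two (by omega) (by omega)
      have h6 : Nat.choose (2 ^ j) (a + 1) % 2 = 0 := by omega
      rw [h6]; rfl
    rw [h4] at h2
    revert h2
    cases pas (2 ^ j - 1) (a + 1)
    · intro h; exact Bool.noConfusion h
    · intro _; rfl

/-- The triangle. -/
def A (τ c : ℕ) : Bool :=
  (if τ % 2 = 0 then decide (c % 4 = 0) else decide (c % 4 ≤ 2)) && pas (τ / 2) (c / 4)

theorem A_zero (c : ℕ) : A 0 c = decide (c = 0) := by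
  unfold A
  simp only [Nat.zero_mod, if_true, Nat.zero_div]
  rw [Bool.eq_iff_iff]
  simp only [Bool.and_eq_true, decide_eq_true_eq]
  constructor
  · rintro ⟨h1, h2⟩
    by_contra h3
    rw [pas_gt (by omega)] at h2
    exact Bool.noConfusion h2
  · rintro rfl; exact ⟨rfl, pas_zero 0⟩

theorem A_supp {τ c : ℕ} (h : 2 * τ < c) : A τ c = false := by
  unfold A
  by_cases h1 : τ % 2 = 0
  · rw [if_pos h1]
    by_cases h2 : c % 4 = 0
    · rw [pas_gt (by omega), Bool.and_false]
    · simp [h2]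
  · rw [if_neg h1]
    by_cases h2 : c % 4 ≤ 2
    · rw [pas_gt (by omega), Bool.and_false]
    · simp only [h2, decide_false, Bool.false_and]

theorem A_step (τ c : ℕ) : A (τ + 1) c =
    E (A τ c) (decide (1 ≤ c) && A τ (c - 1)) (decide (2 ≤ c) && A τ (c - 2)) := by
  obtain ⟨a, r, hr, rfl⟩ : ∃ a r, r < 4 ∧ c = 4 * a + r := ⟨c / 4, c % 4, by omega, by omega⟩
  rcases Nat.mod_two_eq_zero_or_one τ with h0 | h0
  · obtain ⟨m, rfl⟩ : ∃ m, τ = 2 * m := ⟨τ / 2, by omega⟩
    have h1 : ¬ ((2 * m + 1) % 2 = 0) := by omega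
    have h2 : (2 * m + 1) / 2 = m := by omega
    have h3 : 2 * m / 2 = m := by omega
    simp only [A, h0, h1, h2, h3, if_true, if_false]
    interval_cases r
    · have e1 : (4 * a + 0) % 4 = 0 := by omega
      have e2 : (4 * a + 0) / 4 = a := by omega
      rcases Nat.eq_zero_or_pos a with rfl | ha
      · simp [pas_zero, E]
      · have e3 : (4 * a + 0 - 1) % 4 = 3 := by omega
        have e4 : (4 * a + 0 - 2) % 4 = 2 := by omega
        rw [e1, e2, e3, e4]; simp [E]
    · have e1 : (4 * a + 1) % 4 = 1 := by omega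
      have e2 : (4 * a + 1) / 4 = a := by omega
      have e3 : (4 * a + 1 - 1) % 4 = 0 := by omega
      have e3' : (4 * a + 1 - 1) / 4 = a := by omega
      rcases Nat.eq_zero_or_pos a with rfl | ha
      · simp [pas_zero, E]
      · have e4 : (4 * a + 1 - 2) % 4 = 3 := by omega
        have d1 : decide (1 ≤ 4 * a + 1) = true := by simp
        rw [e1, e2, e3, e3', e4, d1]; simp [E]
    · have e1 : (4 * a + 2) % 4 = 2 := by omega
      have e2 : (4 * a + 2) / 4 = a := by omega
      have e3 : (4 * a + 2 - 1) % 4 = 1 := by omega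
      have e4 : (4 * a + 2 - 2) % 4 = 0 := by omega
      have e5 : (4 * a + 2 - 2) / 4 = a := by omega
      rw [e1, e2, e3, e4, e5]; simp [E]
    · have e1 : (4 * a + 3) % 4 = 3 := by omega
      have e3 : (4 * a + 3 - 1) % 4 = 2 := by omega
      have e4 : (4 * a + 3 - 2) % 4 = 1 := by omega
      rw [e1, e3, e4]; simp [E]
  · obtain ⟨m, rfl⟩ : ∃ m, τ = 2 * m + 1 := ⟨τ / 2, by omega⟩
    have h1 : (2 * m + 1 + 1) % 2 = 0 := by omega
    have h2 : (2 * m + 1 + 1) / 2 = m + 1 := by omega
    have h3 : (2 * m + 1) / 2 = m := by omega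
    have h4 : ¬ ((2 * m + 1) % 2 = 0) := by omega
    simp only [A, h1, h2, h3, h4, if_true, if_false]
    interval_cases r
    · rcases Nat.eq_zero_or_pos a with rfl | ha
      · simp [pas_zero, E]
      · obtain ⟨b, rfl⟩ : ∃ b, a = b + 1 := ⟨a - 1, by omega⟩
        have e1 : (4 * (b + 1) + 0) % 4 = 0 := by omega
        have e2 : (4 * (b + 1) + 0) / 4 = b + 1 := by omega
        have e3 : (4 * (b + 1) + 0 - 1) % 4 = 3 := by omega
        have e4 : (4 * (b + 1) + 0 - 2) % 4 = 2 := by omega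
        have e5 : (4 * (b + 1) + 0 - 2) / 4 = b := by omega
        have d2 : decide (2 ≤ 4 * (b + 1) + 0) = true := by simp; omega
        rw [e1, e2, e3, e4, e5, d2, pas_succ]
        cases pas m b <;> cases pas m (b + 1) <;> simp [E]
    · have e1 : (4 * a + 1) % 4 = 1 := by omega
      have e2 : (4 * a + 1) / 4 = a := by omega
      have e3 : (4 * a + 1 - 1) % 4 = 0 := by omega
      have e3' : (4 * a + 1 - 1) / 4 = a := by omega
      have d1 : decide (1 ≤ 4 * a + 1) = true := by simp
      rcases Nat.eq_zero_or_pos a with rfl | ha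
      · simp [pas_zero, E]
      · have e4 : (4 * a + 1 - 2) % 4 = 3 := by omega
        rw [e1, e2, e3, e3', e4, d1]; cases pas m a <;> simp [E]
    · have e1 : (4 * a + 2) % 4 = 2 := by omega
      have e2 : (4 * a + 2) / 4 = a := by omega
      have e3 : (4 * a + 2 - 1) % 4 = 1 := by omega
      have e3' : (4 * a + 2 - 1) / 4 = a := by omega
      have e4 : (4 * a + 2 - 2) % 4 = 0 := by omega
      have e5 : (4 * a + 2 - 2) / 4 = a := by omega
      have d1 : decide (1 ≤ 4 * a + 2) = true := by simp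
      have d2 : decide (2 ≤ 4 * a + 2) = true := by simp
      rw [e1, e2, e3, e3', e4, e5, d1, d2]; cases pas m a <;> simp [E]
    · have e1 : (4 * a + 3) % 4 = 3 := by omega
      have e2 : (4 * a + 3) / 4 = a := by omega
      have e3 : (4 * a + 3 - 1) % 4 = 2 := by omega
      have e3' : (4 * a + 3 - 1) / 4 = a := by omega
      have e4 : (4 * a + 3 - 2) % 4 = 1 := by omega
      have e5 : (4 * a + 3 - 2) / 4 = a := by omega
      have d1 : decide (1 ≤ 4 * a + 3) = true := by simp
      have d2 : decide (2 ≤ 4 * a + 3) = true := by simp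
      rw [e1, e2, e3, e3', e4, e5, d1, d2]; cases pas m a <;> simp [E]

/-- The last row of a triangle. -/
theorem A_full {k c : ℕ} (hk : 1 ≤ k) (hc : c < 2 * 2 ^ k) :
    A (2 ^ k - 1) c = decide (c % 4 ≤ 2) := by
  obtain ⟨j, rfl⟩ : ∃ j, k = j + 1 := ⟨k - 1, by omega⟩
  have h1 : 2 ^ (j + 1) = 2 * 2 ^ j := by ring
  have h0 : 0 < 2 ^ j := by positivity
  have h2 : ¬ ((2 ^ (j + 1) - 1) % 2 = 0) := by omega
  have h3 : (2 ^ (j + 1) - 1) / 2 = 2 ^ j - 1 := by omega
  unfold A
  rw [if_neg h2, h3, pas_full j _ (by omega), Bool.and_true]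

/-- The row before the last one. -/
theorem A_four {k c : ℕ} (hk : 1 ≤ k) (hc : c < 2 * 2 ^ k) (h4 : c % 4 = 0) :
    A (2 ^ k - 2) c = true := by
  obtain ⟨j, rfl⟩ : ∃ j, k = j + 1 := ⟨k - 1, by omega⟩
  have h1 : 2 ^ (j + 1) = 2 * 2 ^ j := by ring
  have h0 : 0 < 2 ^ j := by positivity
  have h2 : (2 ^ (j + 1) - 2) % 2 = 0 := by omega
  have h3 : (2 ^ (j + 1) - 2) / 2 = 2 ^ j - 1 := by omega
  unfold A
  rw [if_pos h2, h3, pas_full j _ (by omega), Bool.and_true, h4]
  rfl

theorem A_col0 (τ : ℕ) : A τ 0 = true := by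
  unfold A; by_cases h : τ % 2 = 0 <;> simp [h, pas_zero]

theorem A_col1 (τ : ℕ) (h : τ % 2 = 1) : A τ 1 = true := by
  unfold A; simp [h, pas_zero]

theorem A_col2 (τ : ℕ) (h : τ % 2 = 1) : A τ 2 = true := by
  unfold A; simp [h, pas_zero]

/-- Two copies of the triangle. -/
def G (k τ c : ℕ) : Bool := A τ c || (decide (2 ^ (k + 1) - 1 ≤ c) && A τ (c - (2 ^ (k + 1) - 1)))

theorem G_step {k τ : ℕ} (h : τ + 1 < 2 ^ k) (c : ℕ) : G k (τ + 1) c =
    E (G k τ c) (decide (1 ≤ c) && G k τ (c - 1)) (decide (2 ≤ c) && G k τ (c - 2)) := by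
  have h1 : 2 ^ (k + 1) = 2 * 2 ^ k := by ring
  unfold G
  generalize hD : 2 ^ (k + 1) - 1 = D
  have hD1 : D + 1 = 2 * 2 ^ k := by omega
  by_cases hc : c < D
  · have d0 : decide (D ≤ c) = false := by simpa using hc
    have d1 : decide (D ≤ c - 1) = false := by simp; omega
    have d2 : decide (D ≤ c - 2) = false := by simp; omega
    rw [d0, d1, d2]
    simp only [Bool.false_and, Bool.or_false]
    exact A_step τ c
  · obtain ⟨e, rfl⟩ : ∃ e, c = D + e := ⟨c - D, by omega⟩
    have a0 : A (τ + 1) (D + e) = false := A_supp (by omega)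
    have a1 : A τ (D + e) = false := A_supp (by omega)
    have a2 : A τ (D + e - 1) = false := A_supp (by omega)
    have a3 : A τ (D + e - 2) = false := A_supp (by omega)
    rw [a0, a1, a2, a3]
    have d0 : decide (D ≤ D + e) = true := by simp
    have d1 : (decide (1 ≤ D + e) && (false || (decide (D ≤ D + e - 1) &&
        A τ (D + e - 1 - D)))) = (decide (1 ≤ e) && A τ (e - 1)) := by
      by_cases he : 1 ≤ e
      · have x1 : decide (1 ≤ D + e) = true := by simp; omega
        have x2 : decide (D ≤ D + e - 1) = true := by simp; omega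
        have x3 : D + e - 1 - D = e - 1 := by omega
        have x4 : decide (1 ≤ e) = true := by simpa using he
        rw [x1, x2, x3, x4]; simp
      · have x2 : decide (D ≤ D + e - 1) = false := by simp; omega
        have x4 : decide (1 ≤ e) = false := by simpa using he
        rw [x2, x4]; simp
    have d2 : (decide (2 ≤ D + e) && (false || (decide (D ≤ D + e - 2) &&
        A τ (D + e - 2 - D)))) = (decide (2 ≤ e) && A τ (e - 2)) := by
      by_cases he : 2 ≤ e
      · have x1 : decide (2 ≤ D + e) = true := by simp; omega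
        have x2 : decide (D ≤ D + e - 2) = true := by simp; omega
        have x3 : D + e - 2 - D = e - 2 := by omega
        have x4 : decide (2 ≤ e) = true := by simpa using he
        rw [x1, x2, x3, x4]; simp
      · have x2 : decide (D ≤ D + e - 2) = false := by simp; omega
        have x4 : decide (2 ≤ e) = false := by simpa using he
        rw [x2, x4]; simp
    rw [d1, d2, d0]
    simp only [Bool.false_or, Bool.true_and, Nat.add_sub_cancel_left]
    exact A_step τ e

/-- The last row of the two copies. -/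
theorem G_full {k c : ℕ} (hk : 1 ≤ k) : G k (2 ^ k - 1) c = true ↔
    ((c + 1 < 2 * 2 ^ k ∧ c % 4 ≤ 2) ∨
      (2 * 2 ^ k ≤ c + 1 ∧ c + 2 < 4 * 2 ^ k ∧ c % 4 ≠ 2)) := by
  have h1 : 2 ^ (k + 1) = 2 * 2 ^ k := by ring
  obtain ⟨j, rfl⟩ : ∃ j, k = j + 1 := ⟨k - 1, by omega⟩
  have h0 : 2 ^ (j + 1) = 2 * 2 ^ j := by ring
  have h00 : 0 < 2 ^ j := by positivity
  unfold G
  rw [Bool.or_eq_true, Bool.and_eq_true, decide_eq_true_eq]
  by_cases hc : c < 2 * 2 ^ (j + 1)
  · rw [A_full (by omega) hc, decide_eq_true_eq]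
    constructor
    · rintro (h | ⟨h2, h3⟩)
      · left; omega
      · rw [A_full (by omega) (by omega), decide_eq_true_eq] at h3
        right; omega
    · rintro (h | h)
      · left; omega
      · right
        refine ⟨by omega, ?_⟩
        rw [A_full (by omega) (by omega), decide_eq_true_eq]
        omega
  · rw [A_supp (by omega : 2 * (2 ^ (j + 1) - 1) < c)]
    simp only [Bool.false_eq_true, false_or]
    by_cases hc2 : c + 2 < 4 * 2 ^ (j + 1)
    · rw [A_full (by omega) (by omega), decide_eq_true_eq]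
      omega
    · constructor
      · rintro ⟨h2, h3⟩
        rw [A_supp (by omega)] at h3
        exact Bool.noConfusion h3
      · intro h; omega

theorem G_zero (k c : ℕ) : G k 0 c = true ↔ (c = 0 ∨ c + 1 = 2 * 2 ^ k) := by
  have h1 : 2 ^ (k + 1) = 2 * 2 ^ k := by ring
  have h0 : 0 < 2 ^ k := by positivity
  unfold G
  rw [A_zero, A_zero, Bool.or_eq_true, Bool.and_eq_true, decide_eq_true_eq, decide_eq_true_eq,
    decide_eq_true_eq]
  omega

theorem G_jump (k c : ℕ) : G (k + 1) 0 c =
    E (G k (2 ^ k - 1) c) (decide (1 ≤ c) && G k (2 ^ k - 1) (c - 1))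
      (decide (2 ≤ c) && G k (2 ^ k - 1) (c - 2)) := by
  rw [Bool.eq_iff_iff, E_iff3]
  have hneg : ∀ b : Bool, b = false ↔ ¬ (b = true) := by decide
  rcases Nat.eq_zero_or_pos k with rfl | hk
  · simp only [pow_zero, Nat.sub_self, hneg, Bool.and_eq_true, decide_eq_true_eq, G_zero]
    omega
  · simp only [hneg, Bool.and_eq_true, decide_eq_true_eq, G_full hk, G_zero]
    obtain ⟨j, rfl⟩ : ∃ j, k = j + 1 := ⟨k - 1, by omega⟩
    have h0 : 2 ^ (j + 1) = 2 * 2 ^ j := by ring
    have h1 : 2 ^ (j + 1 + 1) = 2 * 2 ^ (j + 1) := by ring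
    have h00 : 0 < 2 ^ j := by positivity
    rw [h1, h0]
    generalize 2 ^ j = x at *
    omega

end Pool.Agent.H65.Um.ST
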