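import Pool.Agent.H65.Um.StructA

/-!
# The rows of the bulk and of the strip
-/

set_option autoImplicit false

namespace Pool.Agent.H65.Um.ST

open Pool.Agent.H65.Ul

/-- The first row. -/
def r0 (s : ℕ) (q : Bool) (c : ℕ) : Bool :=
  if c + 2 ≤ 2 * 2 ^ s then decide (c = 0) || decide (c % 4 ≠ 1)
  else (msk q 0 0).testBit (c + 1 - 2 * 2 ^ s)

/-- The first row as a number. -/
def p0 (s : ℕ) (q : Bool) : ℕ := Nat.ofBits (fun i : Fin (2 * 2 ^ s + 9) => r0 s q i)

/-- All rows. -/
def R (s : ℕ) (q : Bool) (t c : ℕ) : Bool := (P (2 * 2 ^ s + 9) (p0 s q) t).testBit c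

theorem p0_testBit (s : ℕ) (q : Bool) {c : ℕ} (hc : c < 2 * 2 ^ s + 9) :
    (p0 s q).testBit c = r0 s q c := by
  unfold p0
  rw [Nat.testBit_ofBits]
  simp [hc]

theorem R_zero (s : ℕ) (q : Bool) {c : ℕ} (hc : c < 2 * 2 ^ s + 9) : R s q 0 c = r0 s q c :=
  p0_testBit s q hc

theorem R_succ (s : ℕ) (q : Bool) (t : ℕ) {c : ℕ} (hc : c < 2 * 2 ^ s + 9) : R s q (t + 1) c =
    E (R s q t c) (decide (1 ≤ c) && R s q t (c - 1)) (decide (2 ≤ c) && R s q t (c - 2)) := by
  unfold R
  rw [P, up_testBit]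
  have d : decide (c < 2 * 2 ^ s + 9) = true := by simpa using hc
  rw [d, Bool.true_and]

theorem R_congr (s : ℕ) (q : Bool) (t : ℕ) (F : ℕ → Bool)
    (h : ∀ c, c + 2 ≤ 2 * 2 ^ s → R s q t c = F c) (c : ℕ) (hc : c + 2 ≤ 2 * 2 ^ s) :
    R s q (t + 1) c = E (F c) (decide (1 ≤ c) && F (c - 1)) (decide (2 ≤ c) && F (c - 2)) := by
  rw [R_succ s q t (by omega), h c hc, h (c - 1) (by omega), h (c - 2) (by omega)]

/-- The first block. -/
theorem bulk0 (s : ℕ) (q : Bool) : ∀ k : ℕ, ∀ τ : ℕ, τ < 2 ^ k → ∀ c : ℕ,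
    c + 2 ≤ 2 * 2 ^ s → R s q (2 ^ k + τ) c = G k τ c := by
  intro k
  induction k with
  | zero =>
    intro τ hτ c hc
    have e : τ = 0 := by rw [pow_zero] at hτ; omega
    subst e
    have h := R_congr s q 0 (fun c => decide (c = 0) || decide (c % 4 ≠ 1)) (by
      intro c hc
      rw [R_zero s q (by omega)]
      unfold r0; rw [if_pos hc]) c hc
    have e1 : 2 ^ 0 + 0 = 0 + 1 := by norm_num
    rw [e1, h, Bool.eq_iff_iff, E_iff3, G_zero]
    have hneg : ∀ b : Bool, b = false ↔ ¬ (b = true) := by decide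
    simp only [hneg, Bool.and_eq_true, Bool.or_eq_true, decide_eq_true_eq, pow_zero]
    omega
  | succ k ih =>
    intro τ
    induction τ with
    | zero =>
      intro _ c hc
      have h0 : 0 < 2 ^ k := by positivity
      have e1 : 2 ^ (k + 1) + 0 = (2 ^ k + (2 ^ k - 1)) + 1 := by
        have : 2 ^ (k + 1) = 2 * 2 ^ k := by ring
        omega
      rw [e1, R_congr s q _ _ (ih (2 ^ k - 1) (by omega)) c hc, G_jump]
    | succ τ ih2 =>
      intro hτ c hc
      have e1 : 2 ^ (k + 1) + (τ + 1) = (2 ^ (k + 1) + τ) + 1 := by ring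
      rw [e1, R_congr s q _ _ (ih2 (by omega)) c hc, G_step hτ]

theorem A_jump {s c : ℕ} (hs : 1 ≤ s) (hc : c + 2 ≤ 2 * 2 ^ s) :
    E (A (2 ^ s - 1) c) (decide (1 ≤ c) && A (2 ^ s - 1) (c - 1))
      (decide (2 ≤ c) && A (2 ^ s - 1) (c - 2)) = A 0 c := by
  rw [A_full hs (by omega), A_full hs (by omega), A_full hs (by omega), A_zero, Bool.eq_iff_iff,
    E_iff3]
  have hneg : ∀ b : Bool, b = false ↔ ¬ (b = true) := by decide
  simp only [hneg, Bool.and_eq_true, decide_eq_true_eq]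
  omega

/-- The other blocks. -/
theorem bulk1 (s : ℕ) (hs : 1 ≤ s) (q : Bool) : ∀ j : ℕ, 1 ≤ j → ∀ τ : ℕ, τ < 2 ^ s → ∀ c : ℕ,
    c + 2 ≤ 2 * 2 ^ s → R s q (j * 2 ^ s + τ) c = A τ c := by
  intro j hj
  have h0 : 0 < 2 ^ s := by positivity
  induction j, hj using Nat.le_induction with
  | base =>
    intro τ
    induction τ with
    | zero =>
      intro _ c hc
      rw [one_mul, bulk0 s q s 0 (by omega) c hc, Bool.eq_iff_iff, G_zero, A_zero,
        decide_eq_true_eq]
      omega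
    | succ τ ih =>
      intro hτ c hc
      have e1 : 1 * 2 ^ s + (τ + 1) = (1 * 2 ^ s + τ) + 1 := by ring
      rw [e1, R_congr s q _ _ (ih (by omega)) c hc, A_step]
  | succ j _ ihj =>
    intro τ
    induction τ with
    | zero =>
      intro _ c hc
      have e1 : (j + 1) * 2 ^ s + 0 = (j * 2 ^ s + (2 ^ s - 1)) + 1 := by
        have : (j + 1) * 2 ^ s = j * 2 ^ s + 2 ^ s := by ring
        omega
      rw [e1, R_congr s q _ _ (ihj (2 ^ s - 1) (by omega)) c hc, A_jump hs hc]
    | succ τ ih =>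
      intro hτ c hc
      have e1 : (j + 1) * 2 ^ s + (τ + 1) = ((j + 1) * 2 ^ s + τ) + 1 := by ring
      rw [e1, R_congr s q _ _ (ih (by omega)) c hc, A_step]

/-- Rows between `1` and `2 ^ s - 1` as copies of the triangle. -/
theorem exists_log {t : ℕ} (ht : 1 ≤ t) : ∃ k τ : ℕ, t = 2 ^ k + τ ∧ τ < 2 ^ k := by
  refine ⟨Nat.log 2 t, t - 2 ^ Nat.log 2 t, ?_, ?_⟩
  · have := Nat.pow_log_le_self 2 (by omega : t ≠ 0)
    omega
  · have h1 := Nat.lt_pow_succ_log_self (by norm_num : 1 < 2) t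
    have h2 := Nat.pow_log_le_self 2 (by omega : t ≠ 0)
    rw [pow_succ] at h1
    omega

/-! ### The strip -/

/-- The two cells left of the strip. -/
def lw (s t : ℕ) : ℕ :=
  if t = 0 then 2 else if t + 1 = 2 ^ s then 1 else if (t + 1) % 2 ^ s = 0 then 3 else 0

theorem G_left0 {s k τ c : ℕ} (hks : k < s) (hτ : τ < 2 ^ k) (hne : 2 ^ k + τ + 1 ≠ 2 ^ s)
    (hc : 2 * 2 ^ s ≤ c + 3) : G k τ c = false := by
  have h1 : 2 ^ (k + 1) = 2 * 2 ^ k := by ring
  have h0 : 0 < 2 ^ k := by positivity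
  unfold G
  rcases Nat.lt_or_ge (k + 1) s with h2 | h2
  · have h3 : 2 ^ (k + 1) * 2 ≤ 2 ^ s := by
      rw [← pow_succ]; exact Nat.pow_le_pow_right (by norm_num) h2
    rw [A_supp (by omega), A_supp (by omega)]; simp
  · have h3 : s = k + 1 := by omega
    subst h3
    rw [A_supp (by omega), A_supp (by omega)]; simp

theorem left_bits (s : ℕ) (hs : 4 ≤ s) (q : Bool) (t : ℕ) (j : ℕ) (hj : j < 2) :
    R s q t (2 * 2 ^ s - 3 + j) = (lw s t).testBit j := by
  have h16 : 2 ^ 4 ≤ 2 ^ s := Nat.pow_le_pow_right (by norm_num) hs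
  have hq : 2 ^ s % 4 = 0 := by
    obtain ⟨r, rfl⟩ : ∃ r, s = r + 2 := ⟨s - 2, by omega⟩
    rw [pow_add]; omega
  rcases Nat.eq_zero_or_pos t with rfl | ht
  · rw [R_zero s q (by omega)]
    unfold r0 lw
    rw [if_pos (by omega), if_pos rfl]
    have hj2 : j = 0 ∨ j = 1 := by omega
    rcases hj2 with rfl | rfl
    · have e1 : (2 * 2 ^ s - 3 + 0) % 4 = 1 := by omega
      have e2 : ¬ (2 * 2 ^ s - 3 + 0 = 0) := by omega
      simp only [e1, e2]; rfl
    · have e1 : (2 * 2 ^ s - 3 + 1) % 4 = 2 := by omega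
      simp only [e1]; simp; rfl
  · by_cases h1 : t < 2 ^ s
    · obtain ⟨k, τ, rfl, hτ⟩ := exists_log ht
      have hks : k < s := by
        by_contra hc
        have : 2 ^ s ≤ 2 ^ k := Nat.pow_le_pow_right (by norm_num) (by omega)
        omega
      rw [bulk0 s q k τ hτ _ (by omega)]
      unfold lw
      rw [if_neg (by omega)]
      by_cases h2 : 2 ^ k + τ + 1 = 2 ^ s
      · rw [if_pos h2]
        have h3 : 2 ^ (k + 1) ≤ 2 ^ s := Nat.pow_le_pow_right (by norm_num) hks
        have h4 : 2 ^ (k + 1) = 2 * 2 ^ k := by ring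
        have h5 : τ = 2 ^ k - 1 := by omega
        have h6 : 2 ^ s = 2 * 2 ^ k := by omega
        have hk1 : 1 ≤ k := by
          by_contra hc
          have : k = 0 := by omega
          subst this
          rw [pow_zero] at h6; omega
        rw [h5, h6]
        rw [h6] at h16 hq
        have hj2 : j = 0 ∨ j = 1 := by omega
        rcases hj2 with rfl | rfl
        · have : G k (2 ^ k - 1) (2 * (2 * 2 ^ k) - 3 + 0) = true := by
            rw [G_full hk1]; omega
          rw [this]; rfl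
        · have : G k (2 ^ k - 1) (2 * (2 * 2 ^ k) - 3 + 1) = false := by
            rw [Bool.eq_false_iff]
            intro h
            rw [G_full hk1] at h; omega
          rw [this]; rfl
      · rw [if_neg h2]
        have h3 : ¬ ((2 ^ k + τ + 1) % 2 ^ s = 0) := by
          rw [Nat.mod_eq_of_lt (by omega)]; omega
        rw [if_neg h3, G_left0 hks hτ h2 (by omega)]
        simp
    · obtain ⟨b, o, rfl, ho⟩ : ∃ b o, t = b * 2 ^ s + o ∧ o < 2 ^ s :=
        ⟨t / 2 ^ s, t % 2 ^ s, by rw [Nat.div_add_mod'], Nat.mod_lt _ (by positivity)⟩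
      have hb : 1 ≤ b := by
        by_contra hc
        have : b = 0 := by omega
        subst this
        omega
      have hb2 : 1 * 2 ^ s ≤ b * 2 ^ s := Nat.mul_le_mul_right _ hb
      rw [bulk1 s (by omega) q b hb o ho _ (by omega)]
      unfold lw
      rw [if_neg (by omega), if_neg (by omega)]
      by_cases h2 : o + 1 = 2 ^ s
      · have h3 : (b * 2 ^ s + o + 1) % 2 ^ s = 0 := by
          rw [add_assoc, h2, Nat.mul_add_mod_self_right]; exact Nat.mod_self _
        have h4 : o = 2 ^ s - 1 := by omega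
        rw [if_pos h3, h4, A_full (by omega) (by omega)]
        have hj2 : j = 0 ∨ j = 1 := by omega
        rcases hj2 with rfl | rfl
        · have : (2 * 2 ^ s - 3 + 0) % 4 ≤ 2 := by omega
          simp only [this]; rfl
        · have : (2 * 2 ^ s - 3 + 1) % 4 ≤ 2 := by omega
          simp only [this]; rfl
      · have h3 : ¬ ((b * 2 ^ s + o + 1) % 2 ^ s = 0) := by
          rw [add_assoc, Nat.mul_add_mod_self_right, Nat.mod_eq_of_lt (by omega)]; omega
        rw [if_neg h3, A_supp (by omega)]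
        simp

/-- The step of the masks. -/
def nx (m l : ℕ) : ℕ := up 12 (m <<< 2 ||| l) >>> 2

/-- Row of the table. -/
def mk (q : Bool) (bc oc : ℕ) : ℕ := (tab q bc >>> (10 * oc)) % 1024

/-- Class of the next block. -/
def nb (bc : ℕ) : ℕ := if bc = 5 then 4 else bc + 1

theorem fin_int : ∀ q : Bool, ∀ bc < 6, ∀ oc < 20, nx (mk q bc oc)
    (if bc = 0 ∧ oc = 0 then 2 else 0) = mk q bc (if oc = 19 then 16 else oc + 1) := by
  decide +kernel

theorem fin_blk : ∀ q : Bool, ∀ bc < 6, nx (mk q bc 15) (if bc = 0 then 1 else 3) =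
    mk q (nb bc) 0 ∧ nx (mk q bc 19) (if bc = 0 then 1 else 3) = mk q (nb bc) 0 := by
  decide +kernel

theorem mk_lt (q : Bool) (bc oc : ℕ) : mk q bc oc < 2 ^ 10 := Nat.mod_lt _ (by norm_num)

theorem cb_lt (b : ℕ) : cb b < 6 := by unfold cb; split_ifs <;> omega

theorem cb_succ (b : ℕ) : cb (b + 1) = nb (cb b) := by
  unfold cb nb; split_ifs <;> omega

theorem cb_zero_iff (b : ℕ) : cb b = 0 ↔ b = 0 := by
  unfold cb; split_ifs <;> omega

theorem co_lt (o : ℕ) : co o < 20 := by unfold co; split_ifs <;> omega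

theorem co_succ (o : ℕ) : co (o + 1) = if co o = 19 then 16 else co o + 1 := by
  unfold co; split_ifs <;> omega

theorem co_zero_iff (o : ℕ) : co o = 0 ↔ o = 0 := by
  unfold co; split_ifs <;> omega

theorem co_last {s : ℕ} (hs : 4 ≤ s) : co (2 ^ s - 1) = 15 ∨ co (2 ^ s - 1) = 19 := by
  rcases Nat.eq_or_lt_of_le hs with h | h
  · subst h; left; rfl
  · right
    obtain ⟨r, rfl⟩ : ∃ r, s = r + 5 := ⟨s - 5, by omega⟩
    have h0 : 0 < 2 ^ r := by positivity
    have e : 2 ^ (r + 5) = 32 * 2 ^ r := by rw [pow_add]; ring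
    unfold co
    rw [e, if_neg (by omega)]; omega

theorem msk_eq (q : Bool) (b o : ℕ) : msk q b o = mk q (cb b) (co o) := rfl

/-- The step of the strip. -/
theorem strip_step (s : ℕ) (hs : 4 ≤ s) (q : Bool) (t m : ℕ)
    (h : ∀ i < 10, R s q t (2 * 2 ^ s - 1 + i) = m.testBit i) (i : ℕ) (hi : i < 10) :
    R s q (t + 1) (2 * 2 ^ s - 1 + i) = (nx m (lw s t)).testBit i := by
  have h16 : 2 ^ 4 ≤ 2 ^ s := Nat.pow_le_pow_right (by norm_num) hs
  have hl : lw s t < 2 ^ 2 := by unfold lw; split_ifs <;> norm_num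
  have key : ∀ j < 12, R s q t (2 * 2 ^ s - 3 + j) = (m <<< 2 ||| lw s t).testBit j := by
    intro j hj
    rw [Nat.testBit_or, Nat.testBit_shiftLeft]
    by_cases hj2 : j < 2
    · have d : decide (j ≥ 2) = false := by simpa using hj2
      rw [d, Bool.false_and, Bool.false_or]
      exact left_bits s hs q t j hj2
    · have d : decide (j ≥ 2) = true := by simp; omega
      have e : 2 * 2 ^ s - 3 + j = 2 * 2 ^ s - 1 + (j - 2) := by omega
      have z : (lw s t).testBit j = false :=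
        Nat.testBit_lt_two_pow (lt_of_lt_of_le hl (Nat.pow_le_pow_right (by norm_num) (by omega)))
      rw [d, z, Bool.true_and, Bool.or_false, e]
      exact h _ (by omega)
  unfold nx
  rw [Nat.testBit_shiftRight, up_testBit, R_succ s q t (by omega)]
  have d : decide (2 + i < 12) = true := by simp; omega
  have d1 : decide (1 ≤ 2 + i) = true := by simp; omega
  have d2 : decide (2 ≤ 2 + i) = true := by simp
  have d3 : decide (1 ≤ 2 * 2 ^ s - 1 + i) = true := by simp; omega
  have d4 : decide (2 ≤ 2 * 2 ^ s - 1 + i) = true := by simp; omega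
  rw [d, d1, d2, d3, d4]
  simp only [Bool.true_and]
  rw [← key (2 + i) (by omega), ← key (2 + i - 1) (by omega), ← key (2 + i - 2) (by omega)]
  have e1 : 2 * 2 ^ s - 1 + i = 2 * 2 ^ s - 3 + (2 + i) := by omega
  have e2 : 2 * 2 ^ s - 1 + i - 1 = 2 * 2 ^ s - 3 + (2 + i - 1) := by omega
  have e3 : 2 * 2 ^ s - 1 + i - 2 = 2 * 2 ^ s - 3 + (2 + i - 2) := by omega
  rw [e2, e3, e1]

/-- The strip. -/
theorem strip_all (s : ℕ) (hs : 4 ≤ s) (q : Bool) : ∀ t : ℕ, ∀ i < 10,
    R s q t (2 * 2 ^ s - 1 + i) = (msk q (t / 2 ^ s) (t % 2 ^ s)).testBit i := by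
  have h16 : 2 ^ 4 ≤ 2 ^ s := Nat.pow_le_pow_right (by norm_num) hs
  intro t
  induction t with
  | zero =>
    intro i hi
    rw [R_zero s q (by omega)]
    unfold r0
    rw [if_neg (by omega), Nat.zero_div, Nat.zero_mod]
    congr 1; omega
  | succ t ih =>
    intro i hi
    rw [strip_step s hs q t _ ih i hi]
    congr 1
    obtain ⟨b, o, rfl, ho⟩ : ∃ b o, t = b * 2 ^ s + o ∧ o < 2 ^ s :=
      ⟨t / 2 ^ s, t % 2 ^ s, by rw [Nat.div_add_mod'], Nat.mod_lt _ (by positivity)⟩
    have q1 : (b * 2 ^ s + o) / 2 ^ s = b := by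
      rw [mul_comm, Nat.mul_add_div (by positivity), Nat.div_eq_of_lt ho, add_zero]
    have q2 : (b * 2 ^ s + o) % 2 ^ s = o := by
      rw [Nat.mul_add_mod_self_right, Nat.mod_eq_of_lt ho]
    rw [q1, q2, msk_eq]
    by_cases hl : o + 1 = 2 ^ s
    · have e1 : b * 2 ^ s + o + 1 = (b + 1) * 2 ^ s := by rw [add_assoc, hl]; ring
      have e2 : o = 2 ^ s - 1 := by omega
      rw [e1, Nat.mul_div_cancel _ (by positivity), Nat.mul_mod_left, msk_eq, cb_succ]
      have e3 : lw s (b * 2 ^ s + o) = if cb b = 0 then 1 else 3 := by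
        unfold lw
        by_cases hb : b = 0
        · subst hb
          rw [if_neg (by omega), if_pos (by omega), if_pos (by rfl)]
        · have hb2 : 1 * 2 ^ s ≤ b * 2 ^ s := Nat.mul_le_mul_right _ (by omega)
          rw [if_neg (by omega), if_neg (by omega), e1, Nat.mul_mod_left, if_pos rfl, if_neg]
          rw [cb_zero_iff]; exact hb
      rw [e3, e2]
      have e4 := fin_blk q (cb b) (cb_lt b)
      have e5 : co 0 = 0 := rfl
      rcases co_last hs with h | h
      · rw [h, e4.1, e5]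
      · rw [h, e4.2, e5]
    · have q3 : (b * 2 ^ s + o + 1) / 2 ^ s = b := by
        rw [add_assoc, mul_comm, Nat.mul_add_div (by positivity), Nat.div_eq_of_lt (by omega),
          add_zero]
      have q4 : (b * 2 ^ s + o + 1) % 2 ^ s = o + 1 := by
        rw [add_assoc, Nat.mul_add_mod_self_right, Nat.mod_eq_of_lt (by omega)]
      rw [q3, q4, msk_eq, co_succ]
      have e3 : lw s (b * 2 ^ s + o) = if cb b = 0 ∧ co o = 0 then 2 else 0 := by
        unfold lw
        simp only [cb_zero_iff, co_zero_iff, q4]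
        by_cases hb : b = 0
        · subst hb
          by_cases h0 : o = 0
          · subst h0; simp
          · rw [if_neg (by omega), if_neg (by omega), if_neg (by omega), if_neg (by omega)]
        · have hb2 : 1 * 2 ^ s ≤ b * 2 ^ s := Nat.mul_le_mul_right _ (by omega)
          rw [if_neg (by omega), if_neg (by omega), if_neg (by omega), if_neg (by omega)]
      rw [e3]
      exact fin_int q (cb b) (cb_lt b) (co o) (co_lt o)

end Pool.Agent.H65.Um.ST
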